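import Mathlib

/-!
# Convergence of finite Markov chains under a Doeblin condition
-/

set_option autoImplicit false

namespace Pool.Agent.R964.Doeblin

open Matrix Finset Filter Topology

variable {S : Type*} [Fintype S] [DecidableEq S]

/-- nonnegative entries and row sums one -/
structure IsStochastic (P : Matrix S S ℝ) : Prop where
  nonneg : ∀ x y, 0 ≤ P x y
  row_sum : ∀ x, ∑ y, P x y = 1

/-- probability vector -/
structure IsProb (μ : S → ℝ) : Prop where
  nonneg : ∀ x, 0 ≤ μ x
  sum_one : ∑ x, μ x = 1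

lemma IsStochastic.one : IsStochastic (1 : Matrix S S ℝ) where
  nonneg x y := by rw [Matrix.one_apply]; split_ifs <;> norm_num
  row_sum x := by simp [Matrix.one_apply]

lemma IsStochastic.mul {A B : Matrix S S ℝ} (hA : IsStochastic A) (hB : IsStochastic B) :
    IsStochastic (A * B) where
  nonneg i j := by
    rw [Matrix.mul_apply]
    exact Finset.sum_nonneg fun k _ => mul_nonneg (hA.nonneg i k) (hB.nonneg k j)
  row_sum i := by
    simp only [Matrix.mul_apply]
    rw [Finset.sum_comm]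
    simp only [← Finset.mul_sum, hB.row_sum, mul_one, hA.row_sum]

lemma IsStochastic.pow {A : Matrix S S ℝ} (hA : IsStochastic A) (k : ℕ) :
    IsStochastic (A ^ k) := by
  induction k with
  | zero => rw [pow_zero]; exact IsStochastic.one
  | succ k ih => rw [pow_succ]; exact ih.mul hA

/-- `ℓ¹` norm -/
def l1 (v : S → ℝ) : ℝ := ∑ x, |v x|

lemma l1_nonneg (v : S → ℝ) : 0 ≤ l1 v := Finset.sum_nonneg fun _ _ => abs_nonneg _

/-- a nonnegative matrix with row sums `r` -/
lemma l1_vecMul_le {B : Matrix S S ℝ} {r : ℝ} (h0 : ∀ x y, 0 ≤ B x y)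
    (h1 : ∀ x, ∑ y, B x y = r) (v : S → ℝ) : l1 (v ᵥ* B) ≤ r * l1 v := by
  unfold l1
  calc ∑ y, |(v ᵥ* B) y| ≤ ∑ y, ∑ x, |v x| * B x y := by
        refine Finset.sum_le_sum fun y _ => ?_
        simp only [vecMul, dotProduct]
        refine (Finset.abs_sum_le_sum_abs _ _).trans (le_of_eq ?_)
        refine Finset.sum_congr rfl fun x _ => ?_
        rw [abs_mul, abs_of_nonneg (h0 x y)]
    _ = r * ∑ x, |v x| := by
        rw [Finset.sum_comm]
        simp only [← Finset.mul_sum, h1]
        rw [← Finset.sum_mul, mul_comm]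

lemma sum_vecMul {A : Matrix S S ℝ} (hA : IsStochastic A) (v : S → ℝ) :
    ∑ y, (v ᵥ* A) y = ∑ x, v x := by
  simp only [vecMul, dotProduct]
  rw [Finset.sum_comm]
  simp only [← Finset.mul_sum, hA.row_sum, mul_one]

/-- contraction for vectors of total mass zero -/
lemma l1_doeblin {A : Matrix S S ℝ} (hA : IsStochastic A) {δ : ℝ} (y0 : S)
    (hδ : ∀ x, δ ≤ A x y0) (v : S → ℝ) (hv : ∑ x, v x = 0) :
    l1 (v ᵥ* A) ≤ (1 - δ) * l1 v := by
  have h1 : v ᵥ* A = v ᵥ* (Matrix.of fun x y => A x y - if y = y0 then δ else 0) := by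
    funext y
    simp only [vecMul, dotProduct, Matrix.of_apply, mul_sub, Finset.sum_sub_distrib,
      ← Finset.sum_mul, hv, zero_mul, sub_zero]
  rw [h1]
  apply l1_vecMul_le
  · intro x y
    rw [Matrix.of_apply]
    split_ifs with h
    · rw [h]; linarith [hδ x]
    · rw [sub_zero]; exact hA.nonneg x y
  · intro x
    simp only [Matrix.of_apply, Finset.sum_sub_distrib, hA.row_sum]
    simp

/-- the chain has a unique stationary distribution and converges to it from every initial
distribution -/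
def IsErgodic (P : Matrix S S ℝ) : Prop :=
  ∃ π : S → ℝ, IsProb π ∧ π ᵥ* P = π ∧ (∀ π' : S → ℝ, IsProb π' → π' ᵥ* P = π' → π' = π) ∧
    ∀ μ : S → ℝ, IsProb μ → ∀ x, Tendsto (fun n : ℕ => (μ ᵥ* P ^ n) x) atTop (𝓝 (π x))

theorem isErgodic_of_doeblin {P : Matrix S S ℝ} (hP : IsStochastic P) {π : S → ℝ}
    (hπ : IsProb π) (hst : π ᵥ* P = π) (k : ℕ) (y0 : S) (h : ∀ x, 0 < (P ^ k) x y0) :
    IsErgodic P := by
  have hne : (Finset.univ : Finset S).Nonempty := ⟨y0, Finset.mem_univ _⟩
  obtain ⟨z, -, hz⟩ := Finset.exists_min_image Finset.univ (fun x => (P ^ k) x y0) hne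
  set δ := (P ^ k) z y0 with hδdef
  have hδ : 0 < δ := h z
  have hδle : δ ≤ 1 := by
    have := (hP.pow k).row_sum z
    rw [← this]
    exact Finset.single_le_sum (f := fun y => (P ^ k) z y) (fun y _ => (hP.pow k).nonneg z y)
      (Finset.mem_univ y0)
  have hpi : ∀ n : ℕ, π ᵥ* P ^ n = π := by
    intro n
    induction n with
    | zero => simp
    | succ n ih => rw [pow_succ', ← vecMul_vecMul, hst, ih]
  have hconv : ∀ μ : S → ℝ, IsProb μ → ∀ x,
      Tendsto (fun n : ℕ => (μ ᵥ* P ^ n) x) atTop (𝓝 (π x)) := by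
    intro μ hμ x
    set a : ℕ → ℝ := fun n => l1 ((μ - π) ᵥ* P ^ n) with ha
    have hsum : ∀ n, ∑ y, ((μ - π) ᵥ* P ^ n) y = 0 := by
      intro n
      rw [sum_vecMul (hP.pow n)]
      simp only [Pi.sub_apply, Finset.sum_sub_distrib, hμ.sum_one, hπ.sum_one, sub_self]
    have hanti : Antitone a := by
      apply antitone_nat_of_succ_le
      intro n
      rw [ha]
      simp only
      rw [pow_succ, ← vecMul_vecMul]
      have := l1_vecMul_le hP.nonneg hP.row_sum ((μ - π) ᵥ* P ^ n)
      rwa [one_mul] at this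
    have hgeo : ∀ n, a (k * n) ≤ (1 - δ) ^ n * a 0 := by
      intro n
      induction n with
      | zero => simp
      | succ n ih =>
        have h1 : a (k * (n + 1)) ≤ (1 - δ) * a (k * n) := by
          rw [ha]
          simp only
          rw [mul_add, mul_one, pow_add, ← vecMul_vecMul]
          exact l1_doeblin (hP.pow k) y0 (fun x => hz x (Finset.mem_univ x)) _ (hsum _)
        calc a (k * (n + 1)) ≤ (1 - δ) * a (k * n) := h1
          _ ≤ (1 - δ) * ((1 - δ) ^ n * a 0) := mul_le_mul_of_nonneg_left ih (by linarith)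
          _ = (1 - δ) ^ (n + 1) * a 0 := by ring
    have hlim : Tendsto a atTop (𝓝 0) := by
      have h2 : Tendsto (fun n : ℕ => (1 - δ) ^ n * a 0) atTop (𝓝 0) := by
        have := (tendsto_pow_atTop_nhds_zero_of_lt_one (by linarith : 0 ≤ 1 - δ)
          (by linarith)).mul_const (a 0)
        simpa using this
      rw [Metric.tendsto_atTop]
      intro ε hε
      obtain ⟨N, hN⟩ := (Metric.tendsto_atTop.1 h2) ε hε
      refine ⟨k * N, fun n hn => ?_⟩
      have h3 := hN N le_rfl
      rw [Real.dist_eq, sub_zero] at h3 ⊢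
      have h4 : 0 ≤ a n := l1_nonneg _
      rw [abs_of_nonneg h4]
      calc a n ≤ a (k * N) := hanti hn
        _ ≤ (1 - δ) ^ N * a 0 := hgeo N
        _ ≤ |(1 - δ) ^ N * a 0| := le_abs_self _
        _ < ε := h3
    rw [tendsto_iff_norm_sub_tendsto_zero]
    refine squeeze_zero (fun n => norm_nonneg _) (fun n => ?_) hlim
    rw [Real.norm_eq_abs]
    have h5 : (μ ᵥ* P ^ n) x - π x = ((μ - π) ᵥ* P ^ n) x := by
      rw [sub_vecMul, hpi n]
      rfl
    rw [h5]
    exact Finset.single_le_sum (f := fun y => |((μ - π) ᵥ* P ^ n) y|)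
      (fun y _ => abs_nonneg _) (Finset.mem_univ x)
  refine ⟨π, hπ, hst, fun π' hπ' hst' => ?_, hconv⟩
  have hpi' : ∀ n : ℕ, π' ᵥ* P ^ n = π' := by
    intro n
    induction n with
    | zero => simp
    | succ n ih => rw [pow_succ', ← vecMul_vecMul, hst', ih]
  funext x
  have h6 := hconv π' hπ' x
  simp only [hpi'] at h6
  exact tendsto_nhds_unique tendsto_const_nhds h6

lemma pow_pos_trans {P : Matrix S S ℝ} (hP : IsStochastic P) {k l : ℕ} {x y z : S}
    (h1 : 0 < (P ^ k) x y) (h2 : 0 < (P ^ l) y z) : 0 < (P ^ (k + l)) x z := by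
  rw [pow_add, Matrix.mul_apply]
  exact (mul_pos h1 h2).trans_le (Finset.single_le_sum
    (f := fun q => (P ^ k) x q * (P ^ l) q z)
    (fun q _ => mul_nonneg ((hP.pow k).nonneg x q) ((hP.pow l).nonneg q z)) (Finset.mem_univ y))

end Pool.Agent.R964.Doeblin
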