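import Pool.Agent.R964.TwoTime

/-!
# Dynamical Brownian last passage percolation: Gaussian tails for the change of the passage time
-/

set_option autoImplicit false

open MeasureTheory ProbabilityTheory Filter Topology
open scoped ENNReal NNReal

namespace Pool.Agent.R964.DynBLPP

/-- The admissible jump points `0 = z 0 ≤ z 1 ≤ ... ≤ z (n + 1) = n`. -/
def Adm (n : ℕ) : Set (Fin (n + 2) → ℝ≥0) :=
  {z | Monotone z ∧ z 0 = 0 ∧ z (Fin.last (n + 1)) = n}

/-- The weight `∑_{i ≤ n} (b_i (z (i + 1)) - b_i (z i))` collected from the lines `b 0, ..., b n`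
with jump points `z`. -/
def weight (n : ℕ) (b : ℕ → ℝ≥0 → ℝ) (z : Fin (n + 2) → ℝ≥0) : ℝ :=
  ∑ i : Fin (n + 1), (b i (z i.succ) - b i (z i.castSucc))

/-- The last passage time from `(0, 0)` to `(n, n)` across the lines `b`: the supremum of the
weights of the admissible jump points. -/
noncomputable def T (n : ℕ) (b : ℕ → ℝ≥0 → ℝ) : ℝ := sSup (weight n b '' Adm n)

/-- The dynamical Brownian environment `B i t x` (line `i`, time `t`, position `x`): a centred
Gaussian field with covariance `1{i = j} e^{-|s - t|} min (x, y)`, whose lines are continuous. -/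
structure IsEnv {Ω : Type*} [MeasurableSpace Ω] (P : Measure Ω) (B : ℕ → ℝ≥0 → ℝ≥0 → Ω → ℝ) :
    Prop where
  gaussian : IsGaussianProcess (fun (p : ℕ × ℝ≥0 × ℝ≥0) ω => B p.1 p.2.1 p.2.2 ω) P
  centred : ∀ i t x, ∫ ω, B i t x ω ∂P = 0
  cov : ∀ i j s t x y, cov[B i s x, B j t y; P] =
    if i = j then Real.exp (-|(s : ℝ) - t|) * min (x : ℝ) y else 0
  cont : ∀ i t, ∀ᵐ ω ∂P, Continuous fun x => B i t x ω

/-! ### deterministic part -/

lemma adm_zero (n : ℕ) : (fun i : Fin (n + 2) => if i = 0 then (0 : ℝ≥0) else n) ∈ Adm n := by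
  refine ⟨?_, by simp, ?_⟩
  · intro i j hij
    by_cases hj : j = 0
    · subst hj
      have : i = 0 := le_antisymm hij (Fin.zero_le _)
      subst this
      exact le_rfl
    · simp only [hj, if_false]
      split_ifs
      · exact zero_le
      · exact le_rfl
  · have : Fin.last (n + 1) ≠ 0 := (Fin.last_pos).ne'
    simp [this]

lemma adm_compact (n : ℕ) : IsCompact (Adm n) := by
  have hcl : IsClosed (Adm n) := by
    have h1 : IsClosed {z : Fin (n + 2) → ℝ≥0 | Monotone z} := by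
      have : {z : Fin (n + 2) → ℝ≥0 | Monotone z} =
          ⋂ i, ⋂ j, ⋂ (_ : i ≤ j), {z : Fin (n + 2) → ℝ≥0 | z i ≤ z j} := by
        ext z
        simp [Monotone]
      rw [this]
      exact isClosed_iInter fun i => isClosed_iInter fun j => isClosed_iInter fun _ =>
        isClosed_le (continuous_apply i) (continuous_apply j)
    have h2 : IsClosed {z : Fin (n + 2) → ℝ≥0 | z 0 = 0} :=
      isClosed_eq (continuous_apply 0) continuous_const
    have h3 : IsClosed {z : Fin (n + 2) → ℝ≥0 | z (Fin.last (n + 1)) = n} :=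
      isClosed_eq (continuous_apply _) continuous_const
    exact h1.inter (h2.inter h3)
  refine (isCompact_Icc (a := (0 : Fin (n + 2) → ℝ≥0)) (b := fun _ => (n : ℝ≥0))).of_isClosed_subset
    hcl ?_
  intro z hz
  refine ⟨fun i => zero_le, fun i => ?_⟩
  have := hz.1 (Fin.le_last i)
  rwa [hz.2.2] at this

lemma weight_continuous {n : ℕ} {b : ℕ → ℝ≥0 → ℝ} (hb : ∀ i, Continuous (b i)) :
    Continuous (weight n b) := by
  unfold weight
  refine continuous_finsetSum _ fun i _ => ?_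
  exact ((hb i).comp (continuous_apply i.succ)).sub ((hb i).comp (continuous_apply i.castSucc))

/-- the grid approximation of mesh `1 / (m + 1)` -/
noncomputable def grid (m : ℕ) (x : ℝ≥0) : ℝ≥0 := (⌊x * (m + 1)⌋₊ : ℝ≥0) / (m + 1)

lemma grid_mono (m : ℕ) : Monotone (grid m) := by
  intro x y h
  unfold grid
  gcongr

lemma grid_zero (m : ℕ) : grid m 0 = 0 := by simp [grid]

lemma grid_nat (m n : ℕ) : grid m n = n := by
  unfold grid
  have h : ((n : ℝ≥0) * (m + 1)) = ((n * (m + 1) : ℕ) : ℝ≥0) := by push_cast; ring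
  rw [h, Nat.floor_natCast, ← h, mul_div_cancel_right₀]
  positivity

lemma grid_tendsto (x : ℝ≥0) : Tendsto (fun m => grid m x) atTop (𝓝 x) := by
  have h1 : ∀ m, grid m x ≤ x := by
    intro m
    unfold grid
    rw [div_le_iff₀ (by positivity)]
    exact Nat.floor_le zero_le
  have h2 : ∀ m : ℕ, (x : ℝ) - 1 / ((m : ℝ) + 1) ≤ grid m x := by
    intro m
    have h3 : x * (m + 1) < (⌊x * (m + 1)⌋₊ : ℝ≥0) + 1 := Nat.lt_floor_add_one _
    have h4 : (x : ℝ) * (m + 1) < (⌊x * (m + 1)⌋₊ : ℝ) + 1 := by exact_mod_cast h3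
    unfold grid
    push_cast
    rw [sub_le_iff_le_add, ← add_div, le_div_iff₀ (by positivity)]
    exact h4.le
  rw [← NNReal.tendsto_coe]
  refine tendsto_of_tendsto_of_tendsto_of_le_of_le ?_ tendsto_const_nhds h2 h1
  have : Tendsto (fun m : ℕ => 1 / ((m : ℝ) + 1)) atTop (𝓝 0) :=
    tendsto_one_div_add_atTop_nhds_zero_nat
  simpa using this.const_sub (x : ℝ)

/-- the countable set of grid points -/
def D (n : ℕ) : Set (Fin (n + 2) → ℝ≥0) :=
  {z | z ∈ Adm n ∧ ∀ i, z i ∈ Set.range fun p : ℕ × ℕ => (p.1 : ℝ≥0) / (p.2 + 1)}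

lemma D_countable (n : ℕ) : (D n).Countable := by
  have : (D n) ⊆ Set.pi Set.univ fun _ : Fin (n + 2) =>
      Set.range fun p : ℕ × ℕ => (p.1 : ℝ≥0) / (p.2 + 1) := fun z hz i _ => hz.2 i
  refine Set.Countable.mono this ?_
  exact Set.countable_univ_pi fun _ => Set.countable_range _

lemma D_nonempty (n : ℕ) : (D n).Nonempty := by
  refine ⟨_, adm_zero n, fun i => ?_⟩
  by_cases hi : i = 0
  · exact ⟨(0, 0), by simp [hi]⟩
  · exact ⟨(n, 0), by simp [hi]⟩

lemma exists_enum (n : ℕ) : ∃ zs : ℕ → Fin (n + 2) → ℝ≥0, D n = Set.range zs :=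
  (D_countable n).exists_eq_range (D_nonempty n)

lemma T_lim {n : ℕ} {b : ℕ → ℝ≥0 → ℝ} (hb : ∀ i, Continuous (b i))
    {zs : ℕ → Fin (n + 2) → ℝ≥0} (hz : D n = Set.range zs) :
    Tendsto (fun N : ℕ => Rot.mx fun j : Fin (N + 1) => weight n b (zs j)) atTop (𝓝 (T n b)) := by
  have hcont := weight_continuous (n := n) hb
  have hbdd : BddAbove (weight n b '' Adm n) := ((adm_compact n).image hcont).bddAbove
  have hmem : ∀ j, zs j ∈ Adm n := by
    intro j
    have : zs j ∈ D n := by rw [hz]; exact ⟨j, rfl⟩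
    exact this.1
  have hle : ∀ N : ℕ, (Rot.mx fun j : Fin (N + 1) => weight n b (zs j)) ≤ T n b := by
    intro N
    unfold Rot.mx
    exact Finset.sup'_le _ _ fun j _ => le_csSup hbdd ⟨_, hmem j, rfl⟩
  have hmono : Monotone (fun N : ℕ => Rot.mx fun j : Fin (N + 1) => weight n b (zs j)) := by
    intro N M hNM
    unfold Rot.mx
    refine Finset.sup'_le _ _ fun j _ => ?_
    exact Finset.le_sup' (fun j : Fin (M + 1) => weight n b (zs j))
      (Finset.mem_univ (⟨j, lt_of_lt_of_le j.2 (by omega)⟩ : Fin (M + 1)))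
  refine tendsto_atTop_isLUB hmono ⟨?_, ?_⟩
  · rintro _ ⟨N, rfl⟩
    exact hle N
  · intro c hc
    refine csSup_le ((Set.nonempty_of_mem (adm_zero n)).image _) ?_
    rintro _ ⟨z, hzA, rfl⟩
    -- grid approximations
    have h1 : Tendsto (fun m => weight n b fun i => grid m (z i)) atTop (𝓝 (weight n b z)) := by
      refine (hcont.tendsto z).comp ?_
      exact tendsto_pi_nhds.2 fun i => grid_tendsto (z i)
    refine le_of_tendsto h1 (Eventually.of_forall fun m => ?_)
    have h2 : (fun i => grid m (z i)) ∈ D n := by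
      refine ⟨⟨fun i j h => grid_mono m (hzA.1 h), ?_, ?_⟩, fun i => ?_⟩
      · simp only [hzA.2.1, grid_zero]
      · simp only [hzA.2.2, grid_nat]
      · exact ⟨(⌊z i * (m + 1)⌋₊, m), rfl⟩
    rw [hz] at h2
    obtain ⟨j, hj⟩ := h2
    rw [← hj]
    refine le_trans ?_ (hc ⟨j, rfl⟩)
    exact Rot.le_mx (fun i : Fin (j + 1) => weight n b (zs i)) ⟨j, Nat.lt_succ_self j⟩

/-! ### the Gaussian field of path weights -/

/-- the overlap of two families of jump points -/
noncomputable def ov (n : ℕ) (z w : Fin (n + 2) → ℝ≥0) : ℝ :=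
  ∑ i : Fin (n + 1), (min (z i.succ : ℝ) (w i.succ) - min (z i.succ : ℝ) (w i.castSucc)
    - min (z i.castSucc : ℝ) (w i.succ) + min (z i.castSucc : ℝ) (w i.castSucc))

lemma ov_self {n : ℕ} {z : Fin (n + 2) → ℝ≥0} (hz : z ∈ Adm n) : ov n z z = n := by
  unfold ov
  have h1 : ∀ i : Fin (n + 1), (min (z i.succ : ℝ) (z i.succ) - min (z i.succ : ℝ) (z i.castSucc)
    - min (z i.castSucc : ℝ) (z i.succ) + min (z i.castSucc : ℝ) (z i.castSucc)) =
      (z i.succ : ℝ) - z i.castSucc := by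
    intro i
    have h : (z i.castSucc : ℝ) ≤ z i.succ := by
      exact_mod_cast hz.1 (Fin.castSucc_le_succ i)
    rw [min_self, min_self, min_eq_right h, min_eq_left h]
    ring
  rw [Finset.sum_congr rfl fun i _ => h1 i, Finset.sum_sub_distrib, sub_eq_iff_eq_add]
  have h2 := Fin.sum_univ_succ (fun i : Fin (n + 2) => (z i : ℝ))
  have h3 := Fin.sum_univ_castSucc (fun i : Fin (n + 2) => (z i : ℝ))
  rw [h2] at h3
  rw [hz.2.1, hz.2.2] at h3
  simp only [NNReal.coe_zero, zero_add, NNReal.coe_natCast] at h3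
  rw [h3]
  ring

variable {Ω : Type*} [MeasurableSpace Ω] {P : Measure Ω} {B : ℕ → ℝ≥0 → ℝ≥0 → Ω → ℝ}

/-- the weight of `z` in the environment at time `t` -/
noncomputable def G (n : ℕ) (B : ℕ → ℝ≥0 → ℝ≥0 → Ω → ℝ) (t : ℝ≥0) (z : Fin (n + 2) → ℝ≥0)
    (ω : Ω) : ℝ := weight n (fun i x => B i t x ω) z

lemma IsEnv.gauss (hB : IsEnv P B) (i : ℕ) (t x : ℝ≥0) : HasGaussianLaw (B i t x) P :=
  hB.gaussian.hasGaussianLaw_eval (i, t, x)

lemma IsEnv.prob (hB : IsEnv P B) : IsProbabilityMeasure P := hB.gaussian.isProbabilityMeasure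

lemma mean_G (hB : IsEnv P B) (n : ℕ) (t : ℝ≥0) (z : Fin (n + 2) → ℝ≥0) :
    ∫ ω, G n B t z ω ∂P = 0 := by
  unfold G weight
  rw [integral_finsetSum]
  · refine Finset.sum_eq_zero fun i _ => ?_
    rw [integral_sub (hB.gauss _ _ _).integrable (hB.gauss _ _ _).integrable, hB.centred,
      hB.centred, sub_zero]
  · intro i _
    exact (hB.gauss _ _ _).integrable.sub (hB.gauss _ _ _).integrable

lemma cov_G (hB : IsEnv P B) (n : ℕ) (s t : ℝ≥0) (z w : Fin (n + 2) → ℝ≥0) :
    cov[G n B s z, G n B t w; P] = Real.exp (-|(s : ℝ) - t|) * ov n z w := by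
  have hP := hB.prob
  have hm : ∀ i t x, MemLp (B i t x) 2 P := fun i t x => (hB.gauss i t x).memLp_two
  unfold G weight
  rw [covariance_fun_sum_fun_sum
    (X := fun (i : Fin (n + 1)) ω => B i s (z i.succ) ω - B i s (z i.castSucc) ω)
    (Y := fun (j : Fin (n + 1)) ω => B j t (w j.succ) ω - B j t (w j.castSucc) ω)
    (fun i => (hm _ _ _).sub (hm _ _ _)) (fun i => (hm _ _ _).sub (hm _ _ _))]
  unfold ov
  rw [Finset.mul_sum]
  refine Finset.sum_congr rfl fun i _ => ?_
  rw [Finset.sum_eq_single i]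
  · rw [covariance_fun_sub_fun_sub (hm _ _ _) (hm _ _ _) (hm _ _ _) (hm _ _ _)]
    simp only [hB.cov, if_true]
    ring
  · intro j _ hj
    rw [covariance_fun_sub_fun_sub (hm _ _ _) (hm _ _ _) (hm _ _ _) (hm _ _ _)]
    have h : ¬ ((i : ℕ) = (j : ℕ)) := fun h => hj (Fin.ext h.symm)
    simp only [hB.cov, h, if_false]
    ring
  · intro h
    exact absurd (Finset.mem_univ i) h

lemma gauss_pair (hB : IsEnv P B) (n : ℕ) (s t : ℝ≥0) {N : ℕ}
    (zs : Fin (N + 1) → Fin (n + 2) → ℝ≥0) :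
    HasGaussianLaw (fun ω => (fun j => G n B s (zs j) ω, fun j => G n B t (zs j) ω)) P := by
  classical
  let Y : Fin (N + 1) × Bool → Ω → ℝ := fun p ω => G n B (if p.2 then t else s) (zs p.1) ω
  have hY : IsGaussianProcess Y P := by
    refine hB.gaussian.of_isGaussianProcess fun p => ?_
    let τ : ℝ≥0 := if p.2 then t else s
    let I : Finset (ℕ × ℝ≥0 × ℝ≥0) :=
      (Finset.univ.image fun i : Fin (n + 1) => ((i : ℕ), τ, zs p.1 i.succ)) ∪
      (Finset.univ.image fun i : Fin (n + 1) => ((i : ℕ), τ, zs p.1 i.castSucc))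
    have h1 : ∀ i : Fin (n + 1), ((i : ℕ), τ, zs p.1 i.succ) ∈ I := fun i =>
      Finset.mem_union_left _ (Finset.mem_image_of_mem _ (Finset.mem_univ i))
    have h2 : ∀ i : Fin (n + 1), ((i : ℕ), τ, zs p.1 i.castSucc) ∈ I := fun i =>
      Finset.mem_union_right _ (Finset.mem_image_of_mem _ (Finset.mem_univ i))
    refine ⟨I, ∑ i : Fin (n + 1),
      (ContinuousLinearMap.proj (R := ℝ) (φ := fun _ : I => ℝ) ⟨_, h1 i⟩ -
        ContinuousLinearMap.proj (R := ℝ) (φ := fun _ : I => ℝ) ⟨_, h2 i⟩), fun ω => ?_⟩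
    rw [_root_.sum_apply]
    rfl
  let U : Finset (Fin (N + 1) × Bool) := Finset.univ
  let A : (U → ℝ) →L[ℝ] (Fin (N + 1) → ℝ) :=
    ContinuousLinearMap.pi fun j =>
      ContinuousLinearMap.proj (R := ℝ) (φ := fun _ : U => ℝ) ⟨(j, false), Finset.mem_univ _⟩
  let A' : (U → ℝ) →L[ℝ] (Fin (N + 1) → ℝ) :=
    ContinuousLinearMap.pi fun j =>
      ContinuousLinearMap.proj (R := ℝ) (φ := fun _ : U => ℝ) ⟨(j, true), Finset.mem_univ _⟩
  let L : (U → ℝ) →L[ℝ] ((Fin (N + 1) → ℝ) × (Fin (N + 1) → ℝ)) := ContinuousLinearMap.prod A A'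
  exact (hY.hasGaussianLaw U).map_fun L

/-- One-sided Gaussian tail for the change of the passage time between two times. -/
lemma one_sided (hB : IsEnv P B) {n : ℕ} (hn : 1 ≤ n) {s t : ℝ≥0} (hst : s ≠ t) {a : ℝ}
    (ha : 0 < a) :
    P {ω | a ≤ T n (fun i x => B i t x ω) - T n (fun i x => B i s x ω)} ≤
      ENNReal.ofReal (Real.exp (-a ^ 2 /
        (2 * n * Real.arccos (Real.exp (-|(s : ℝ) - t|)) ^ 2))) := by
  have hP := hB.prob
  set ρ : ℝ := Real.exp (-|(s : ℝ) - t|) with hρ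
  set φ : ℝ := Real.arccos ρ with hφ
  have hst' : 0 < |(s : ℝ) - t| := by
    rw [abs_pos, sub_ne_zero]
    exact fun h => hst (NNReal.coe_injective h)
  have hρ1 : ρ < 1 := by
    rw [hρ, Real.exp_lt_one_iff]
    linarith
  have hρ0 : 0 < ρ := Real.exp_pos _
  have hφ0 : 0 < φ := Real.arccos_pos.2 hρ1
  have hφ1 : φ < Real.pi := by
    have : φ ≤ Real.pi / 2 := Real.arccos_le_pi_div_two.2 hρ0.le
    linarith [Real.pi_pos]
  have hcos : Real.cos φ = ρ := Real.cos_arccos (by linarith) hρ1.le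
  have hn' : (0 : ℝ) < n := by exact_mod_cast hn
  obtain ⟨zs, hzs⟩ := exists_enum n
  have hmem : ∀ j, zs j ∈ Adm n := by
    intro j
    have : zs j ∈ D n := by rw [hzs]; exact ⟨j, rfl⟩
    exact this.1
  set f : ℝ≥0 → ℕ → Ω → ℝ := fun τ N ω =>
    Rot.mx fun j : Fin (N + 1) => weight n (fun i x => B i τ x ω) (zs j) with hf
  have hfin : ∀ (N : ℕ) (a' : ℝ), 0 ≤ a' → P {ω | a' ≤ f t N ω - f s N ω} ≤
      ENNReal.ofReal (Real.exp (-a' ^ 2 / (2 * n * φ ^ 2))) := by
    intro N a' ha'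
    refine Rot.tail_two (G₀ := fun j ω => G n B s (zs j) ω) (G₁ := fun j ω => G n B t (zs j) ω)
      (R := fun i j => ov n (zs i) (zs j)) (gauss_pair hB n s t fun j => zs j)
      (fun j => mean_G hB n s _) (fun j => mean_G hB n t _) hφ0 hφ1 (fun i j => ?_)
      (fun i j => ?_) (fun i j => ?_) (fun j => ?_) hn' ha'
    · rw [cov_G hB]; simp
    · rw [cov_G hB]; simp
    · rw [cov_G hB, hcos]
    · exact (ov_self (hmem j)).le
  -- almost sure convergence
  have hcont : ∀ τ, ∀ᵐ ω ∂P, ∀ i, Continuous fun x => B i τ x ω :=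
    fun τ => ae_all_iff.2 fun i => hB.cont i τ
  have hlim : ∀ᵐ ω ∂P, Tendsto (fun N => f t N ω - f s N ω) atTop
      (𝓝 (T n (fun i x => B i t x ω) - T n (fun i x => B i s x ω))) := by
    filter_upwards [hcont t, hcont s] with ω h1 h2
    exact (T_lim h1 hzs).sub (T_lim h2 hzs)
  have hstrict : ∀ a' : ℝ, 0 ≤ a' →
      P {ω | a' < T n (fun i x => B i t x ω) - T n (fun i x => B i s x ω)} ≤
        ENNReal.ofReal (Real.exp (-a' ^ 2 / (2 * n * φ ^ 2))) := by
    intro a' ha'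
    set E : ℕ → Set Ω := fun K => {ω | ∀ N, K ≤ N → a' ≤ f t N ω - f s N ω} with hE
    have hEmono : Monotone E := by
      intro K K' h ω hω N hN
      exact hω N (h.trans hN)
    have h1 : P {ω | a' < T n (fun i x => B i t x ω) - T n (fun i x => B i s x ω)} ≤
        P (⋃ K, E K) := by
      refine measure_mono_ae ?_
      filter_upwards [hlim] with ω hω h
      have h2 := hω.eventually (lt_mem_nhds h)
      obtain ⟨K, hK⟩ := eventually_atTop.1 h2
      exact Set.mem_iUnion.2 ⟨K, fun N hN => (hK N hN).le⟩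
    refine h1.trans ?_
    rw [hEmono.measure_iUnion]
    refine iSup_le fun K => ?_
    refine (measure_mono fun ω hω => ?_).trans (hfin K a' ha')
    exact hω K le_rfl
  -- non-strict inequality
  have hlimit : Tendsto (fun k : ℕ => ENNReal.ofReal
      (Real.exp (-(a - a / ((k : ℝ) + 2)) ^ 2 / (2 * n * φ ^ 2)))) atTop
      (𝓝 (ENNReal.ofReal (Real.exp (-a ^ 2 / (2 * n * φ ^ 2))))) := by
    apply ENNReal.tendsto_ofReal
    apply (Real.continuous_exp.tendsto _).comp
    apply Tendsto.div_const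
    apply Tendsto.neg
    apply Tendsto.pow
    have h1 : Tendsto (fun k : ℕ => a / ((k : ℝ) + 2)) atTop (𝓝 0) := by
      apply Tendsto.div_atTop tendsto_const_nhds
      exact tendsto_atTop_add_const_right _ _ tendsto_natCast_atTop_atTop
    simpa using h1.const_sub a
  refine ge_of_tendsto hlimit (Eventually.of_forall fun k => ?_)
  have hk : 0 < a / ((k : ℝ) + 2) := by positivity
  have hk2 : a / ((k : ℝ) + 2) ≤ a := by
    rw [div_le_iff₀ (by positivity)]
    nlinarith [(Nat.cast_nonneg k : (0 : ℝ) ≤ k)]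
  refine (measure_mono fun ω hω => ?_).trans (hstrict (a - a / ((k : ℝ) + 2)) (by linarith))
  rw [Set.mem_ofPred_eq] at hω ⊢
  linarith

/-- Two-sided Gaussian tail. -/
lemma two_sided (hB : IsEnv P B) {n : ℕ} (hn : 1 ≤ n) {s t : ℝ≥0} (hst : s ≠ t) {a : ℝ}
    (ha : 0 < a) :
    P {ω | a ≤ |T n (fun i x => B i t x ω) - T n (fun i x => B i s x ω)|} ≤
      ENNReal.ofReal (2 * Real.exp (-a ^ 2 /
        (2 * n * Real.arccos (Real.exp (-|(s : ℝ) - t|)) ^ 2))) := by
  have h1 := one_sided hB hn hst ha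
  have h2 := one_sided hB hn hst.symm ha
  rw [abs_sub_comm (t : ℝ) s] at h2
  have h3 : {ω | a ≤ |T n (fun i x => B i t x ω) - T n (fun i x => B i s x ω)|} ⊆
      {ω | a ≤ T n (fun i x => B i t x ω) - T n (fun i x => B i s x ω)} ∪
      {ω | a ≤ T n (fun i x => B i s x ω) - T n (fun i x => B i t x ω)} := by
    intro ω hω
    rw [Set.mem_ofPred_eq, le_abs] at hω
    rcases hω with h | h
    · exact Or.inl h
    · right
      rw [Set.mem_ofPred_eq]
      linarith
  refine (measure_mono h3).trans ((measure_union_le _ _).trans ?_)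
  rw [two_mul, ENNReal.ofReal_add (Real.exp_nonneg _) (Real.exp_nonneg _)]
  exact add_le_add h1 h2

/-- `arccos (e^{-t})² ≤ π² t / 2` -/
lemma arccos_bound {t : ℝ} (ht : 0 ≤ t) :
    Real.arccos (Real.exp (-t)) ^ 2 ≤ Real.pi ^ 2 * t / 2 := by
  set φ := Real.arccos (Real.exp (-t)) with hφ
  have h0 : 0 ≤ φ := Real.arccos_nonneg _
  have h1 : φ ≤ Real.pi := Real.arccos_le_pi _
  have h2 : Real.cos φ = Real.exp (-t) :=
    Real.cos_arccos (by linarith [Real.exp_pos (-t)]) (Real.exp_le_one_iff.2 (by linarith))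
  have h3 := Real.cos_le_one_sub_mul_cos_sq (x := φ) (by rw [abs_of_nonneg h0]; exact h1)
  have h4 : 1 - t ≤ Real.exp (-t) := by linarith [Real.add_one_le_exp (-t)]
  have h5 : 2 / Real.pi ^ 2 * φ ^ 2 ≤ t := by linarith
  have hpi : 0 < Real.pi ^ 2 := by positivity
  have h6 : 2 / Real.pi ^ 2 * φ ^ 2 * (Real.pi ^ 2 / 2) ≤ t * (Real.pi ^ 2 / 2) :=
    mul_le_mul_of_nonneg_right h5 (by positivity)
  have h7 : 2 / Real.pi ^ 2 * φ ^ 2 * (Real.pi ^ 2 / 2) = φ ^ 2 := by field_simp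
  rw [h7] at h6
  linarith

end Pool.Agent.R964.DynBLPP
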