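import Mathlib

/-!
# First-passage percolation with two-valued weights on the box `[-2n, 2n]^d`
-/

set_option autoImplicit false

open MeasureTheory

namespace Pool.Agent.R964.Fpp

/-- The vertex set `ℤ^d ∩ [-2n, 2n]^d` of `G_n`. -/
def V (d n : ℕ) : Type := {x : Fin d → ℤ // ∀ i, |x i| ≤ 2 * n}

/-- The graph `G_n`: two vertices are adjacent iff their `ℓ¹` distance is `1`. -/
def G (d n : ℕ) : SimpleGraph (V d n) where
  Adj x y := ∑ i, |x.1 i - y.1 i| = 1
  symm := ⟨fun x y h => by
    rw [← h]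
    exact Finset.sum_congr rfl fun i _ => abs_sub_comm _ _⟩
  loopless := ⟨fun x h => by simp at h⟩

/-- The edge set `W_n`. -/
abbrev Edge (d n : ℕ) : Type := (G d n).edgeSet

/-- Configurations: `true` stands for the weight `a` and `false` for the weight `b`. -/
abbrev Config (d n : ℕ) : Type := Edge d n → Bool

open Classical in
/-- The weight `ω_e ∈ {a, b}` of an edge (and `0` for pairs of vertices that are not edges). -/
noncomputable def wt {d n : ℕ} (a b : ℝ) (ω : Config d n) (e : Sym2 (V d n)) : ℝ :=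
  if h : e ∈ (G d n).edgeSet then (if ω ⟨e, h⟩ = true then a else b) else 0

/-- The passage time of a path. -/
noncomputable def T {d n : ℕ} (a b : ℝ) (ω : Config d n) {s t : V d n} (γ : (G d n).Walk s t) : ℝ :=
  (γ.edges.map (wt a b ω)).sum

/-- The origin. -/
def org (d n : ℕ) : V d n := ⟨fun _ => 0, fun i => by simp⟩

/-- The vertex `n v`. -/
def tgt {d : ℕ} (n : ℕ) (v : Fin d → ℤ) (hv : ∀ i, |v i| ≤ 2) : V d n :=
  ⟨fun i => n * v i, fun i => by
    rw [abs_mul, Nat.abs_cast, mul_comm]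
    exact mul_le_mul_of_nonneg_right (hv i) (Int.natCast_nonneg n)⟩

/-- The passage time `f` between `0` and `n v`: the infimum of `T` over all paths. -/
noncomputable def f {d n : ℕ} (a b : ℝ) (v : Fin d → ℤ) (hv : ∀ i, |v i| ≤ 2)
    (ω : Config d n) : ℝ :=
  ⨅ γ : (G d n).Walk (org d n) (tgt n v hv), T a b ω γ

/-- Geodesics from `0` to `n v`. -/
def IsGeodesic {d n : ℕ} (a b : ℝ) (v : Fin d → ℤ) (hv : ∀ i, |v i| ≤ 2) (ω : Config d n)
    (γ : (G d n).Walk (org d n) (tgt n v hv)) : Prop :=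
  T a b ω γ = f a b v hv ω

/-- `E_j`: every geodesic passes through `j`. -/
def Essential {d n : ℕ} (a b : ℝ) (v : Fin d → ℤ) (hv : ∀ i, |v i| ≤ 2) (j : Edge d n) :
    Set (Config d n) :=
  {ω | ∀ γ, IsGeodesic a b v hv ω γ → j.1 ∈ γ.edges}

/-- `Ê_j`: at least one geodesic passes through `j`. -/
def SemiEssential {d n : ℕ} (a b : ℝ) (v : Fin d → ℤ) (hv : ∀ i, |v i| ≤ 2) (j : Edge d n) :
    Set (Config d n) :=
  {ω | ∃ γ, IsGeodesic a b v hv ω γ ∧ j.1 ∈ γ.edges}

open Classical in
/-- `∂_j f = f ∘ σ_j^b - f ∘ σ_j^a`. -/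
noncomputable def deriv {d n : ℕ} (a b : ℝ) (v : Fin d → ℤ) (hv : ∀ i, |v i| ≤ 2) (j : Edge d n)
    (ω : Config d n) : ℝ :=
  f a b v hv (Function.update ω j false) - f a b v hv (Function.update ω j true)

/-- `A_j`: `∂_j f ≠ 0`. -/
def Influential {d n : ℕ} (a b : ℝ) (v : Fin d → ℤ) (hv : ∀ i, |v i| ≤ 2) (j : Edge d n) :
    Set (Config d n) :=
  {ω | deriv a b v hv j ω ≠ 0}

/-- `Â_j`: `∂_j f = b - a`. -/
def VeryInfluential {d n : ℕ} (a b : ℝ) (v : Fin d → ℤ) (hv : ∀ i, |v i| ≤ 2) (j : Edge d n) :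
    Set (Config d n) :=
  {ω | deriv a b v hv j ω = b - a}

instance instFiniteV (d n : ℕ) : Finite (V d n) := by
  have h : {x : Fin d → ℤ | ∀ i, |x i| ≤ 2 * n}.Finite := by
    refine (Set.finite_Icc (fun _ => -(2 * n : ℤ)) (fun _ : Fin d => (2 * n : ℤ))).subset ?_
    intro x hx
    exact ⟨fun i => (abs_le.1 (hx i)).1, fun i => (abs_le.1 (hx i)).2⟩
  exact h.to_subtype

noncomputable instance instFintypeEdge (d n : ℕ) : Fintype (Edge d n) := Fintype.ofFinite _

/-- The product measure: each edge has weight `a` (`true`) with probability `p` and weight `b`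
(`false`) with probability `1 - p`, independently. -/
noncomputable def law (d n : ℕ) (p : ℝ) : Measure (Config d n) :=
  Measure.pi fun _ => ENNReal.ofReal p • Measure.dirac true +
    ENNReal.ofReal (1 - p) • Measure.dirac false

/-! ### general facts -/

section general

variable {d n : ℕ} {a b : ℝ} {ω : Config d n}

lemma wt_nonneg (ha : 0 < a) (hb : 0 < b) (e : Sym2 (V d n)) : 0 ≤ wt a b ω e := by
  unfold wt
  split_ifs <;> linarith

lemma wt_ge (hab : a < b) {e : Sym2 (V d n)} (he : e ∈ (G d n).edgeSet) : a ≤ wt a b ω e := by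
  unfold wt
  rw [dif_pos he]
  split_ifs <;> linarith

lemma wt_le (hab : a < b) {e : Sym2 (V d n)} (he : e ∈ (G d n).edgeSet) : wt a b ω e ≤ b := by
  unfold wt
  rw [dif_pos he]
  split_ifs <;> linarith

lemma T_nonneg (ha : 0 < a) (hab : a < b) {s t : V d n} (γ : (G d n).Walk s t) :
    0 ≤ T a b ω γ := by
  unfold T
  apply List.sum_nonneg
  intro x hx
  obtain ⟨e, -, rfl⟩ := List.mem_map.1 hx
  exact wt_nonneg ha (ha.trans hab) e

lemma T_cons {s u t : V d n} (h : (G d n).Adj s u) (γ : (G d n).Walk u t) :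
    T a b ω (SimpleGraph.Walk.cons h γ) = wt a b ω s(s, u) + T a b ω γ := by
  unfold T
  simp

lemma T_ge_length (hab : a < b) {s t : V d n} (γ : (G d n).Walk s t) :
    a * γ.length ≤ T a b ω γ := by
  induction γ with
  | nil => simp [T]
  | cons h γ ih =>
    rw [T_cons, SimpleGraph.Walk.length_cons]
    have := wt_ge (ω := ω) hab ((G d n).mem_edgeSet.2 h)
    push_cast
    linarith

lemma T_le_length (hab : a < b) {s t : V d n} (γ : (G d n).Walk s t) :
    T a b ω γ ≤ b * γ.length := by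
  induction γ with
  | nil => simp [T]
  | cons h γ ih =>
    rw [T_cons, SimpleGraph.Walk.length_cons]
    have := wt_le (ω := ω) hab ((G d n).mem_edgeSet.2 h)
    push_cast
    linarith

lemma pot {s t : V d n} (γ : (G d n).Walk s t) (Φ : V d n → ℝ)
    (h : ∀ x y, s(x, y) ∈ γ.edges → Φ y - Φ x ≤ wt a b ω s(x, y)) :
    Φ t - Φ s ≤ T a b ω γ := by
  induction γ with
  | nil => simp [T]
  | @cons s u t hsu γ ih =>
    rw [T_cons]
    have h1 := h s u (by simp)
    have h2 := ih fun x y hxy => h x y (by simp [hxy])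
    linarith

lemma l1_le_length {s t : V d n} (γ : (G d n).Walk s t) :
    ∑ i, |s.1 i - t.1 i| ≤ γ.length := by
  induction γ with
  | nil => simp
  | @cons s u t hsu γ ih =>
    rw [SimpleGraph.Walk.length_cons]
    have h1 : ∑ i, |s.1 i - u.1 i| = 1 := hsu
    have h2 : ∑ i, |s.1 i - t.1 i| ≤ ∑ i, (|s.1 i - u.1 i| + |u.1 i - t.1 i|) :=
      Finset.sum_le_sum fun i _ => abs_sub_le _ _ _
    rw [Finset.sum_add_distrib, h1] at h2
    push_cast
    linarith

open Classical in
lemma length_through {s t z : V d n} (γ : (G d n).Walk s t) (hz : z ∈ γ.support) :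
    ∑ i, |s.1 i - z.1 i| + ∑ i, |z.1 i - t.1 i| ≤ γ.length := by
  have h1 := l1_le_length (γ.takeUntil z hz)
  have h2 := l1_le_length (γ.dropUntil z hz)
  have h3 : (γ.takeUntil z hz).length + (γ.dropUntil z hz).length = γ.length := by
    rw [← SimpleGraph.Walk.length_append, γ.take_spec hz]
  have h4 : ((γ.takeUntil z hz).length : ℤ) + (γ.dropUntil z hz).length = γ.length := by
    exact_mod_cast h3
  linarith

lemma bdd (ha : 0 < a) (hab : a < b) (s t : V d n) :
    BddBelow (Set.range fun γ : (G d n).Walk s t => T a b ω γ) :=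
  ⟨0, by rintro _ ⟨γ, rfl⟩; exact T_nonneg ha hab γ⟩

open Classical in
/-- geodesics exist -/
lemma exists_geodesic (ha : 0 < a) (hab : a < b) (v : Fin d → ℤ) (hv : ∀ i, |v i| ≤ 2)
    (hne : Nonempty ((G d n).Walk (org d n) (tgt n v hv))) :
    ∃ γ, IsGeodesic a b v hv ω γ := by
  have : Fintype (V d n) := Fintype.ofFinite _
  have hp : Nonempty ((G d n).Path (org d n) (tgt n v hv)) := hne.map SimpleGraph.Walk.toPath
  have hfin : Finite ((G d n).Path (org d n) (tgt n v hv)) := inferInstance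
  obtain ⟨γ, hγ⟩ := Finite.exists_min fun γ : (G d n).Path (org d n) (tgt n v hv) => T a b ω γ.1
  refine ⟨γ.1, ?_⟩
  unfold IsGeodesic f
  apply le_antisymm
  · apply le_ciInf
    intro γ'
    refine (hγ γ'.toPath).trans ?_
    change T a b ω γ'.bypass ≤ T a b ω γ'
    unfold T
    refine List.Sublist.sum_le_sum (γ'.edges_bypass_sublist_edges.map _) ?_
    intro x hx
    obtain ⟨e, -, rfl⟩ := List.mem_map.1 hx
    exact wt_nonneg ha (ha.trans hab) e
  · exact ciInf_le (bdd ha hab _ _) γ.1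

/-- every single configuration has positive probability -/
lemma law_pos {p : ℝ} (hp : 0 < p) (hp' : p < 1) (ω : Config d n) : 0 < law d n p {ω} := by
  unfold law
  have h1 : IsFiniteMeasure (ENNReal.ofReal p • Measure.dirac true : Measure Bool) :=
    Measure.smul_finite _ ENNReal.ofReal_ne_top
  have h2 : IsFiniteMeasure (ENNReal.ofReal (1 - p) • Measure.dirac false : Measure Bool) :=
    Measure.smul_finite _ ENNReal.ofReal_ne_top
  rw [Measure.pi_singleton]
  rw [pos_iff_ne_zero, Finset.prod_ne_zero_iff]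
  intro e _
  simp only [Measure.coe_add, Pi.add_apply, Measure.smul_apply, smul_eq_mul]
  cases h : ω e
  · simp [hp']
  · simp [hp]

end general

end Pool.Agent.R964.Fpp
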