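import Pool.Agent.R964.FppRect

/-!
# The rim edge of the rectangular detour
-/

set_option autoImplicit false

open MeasureTheory

namespace Pool.Agent.R964.Fpp

variable {d n h : ℕ} {a b : ℝ}

/-- clamped coordinates as real numbers -/
def c1 (n : ℕ) (x : V (d + 2) n) : ℤ := max 0 (min n (x.1 0))

def c2 (n h : ℕ) (x : V (d + 2) n) : ℤ := max 0 (min h (x.1 1))

/-- the potential -/
noncomputable def Φ (a : ℝ) (n h : ℕ) (x : V (d + 2) n) : ℝ :=
  a * c2 n h x + a * c1 n x * (n + 2 * h - 2 * c2 n h x) / n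

/-- the half-space indicator -/
noncomputable def gi (x : V (d + 2) n) : ℝ := if 1 ≤ x.1 0 then 1 else 0

lemma Φ_vert (ha : 0 < a) (hn : 1 ≤ n) {x y : V (d + 2) n} (hxy : (G (d + 2) n).Adj x y)
    (h0 : x.1 0 = y.1 0) : |Φ a n h y - Φ a n h x| ≤ a := by
  have hn' : (0 : ℝ) < n := by exact_mod_cast hn
  have hc1 : c1 n y = c1 n x := by unfold c1; rw [h0]
  obtain ⟨-, -, h3⟩ := adj_cases hxy
  have h4 : |c2 n h y - c2 n h x| ≤ 1 := by
    unfold c2
    rw [abs_le] at h3 ⊢
    omega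
  have h5 : |(c2 n h y : ℝ) - c2 n h x| ≤ 1 := by exact_mod_cast h4
  have h6 : 0 ≤ c1 n x ∧ c1 n x ≤ n := by unfold c1; omega
  have h7 : (0 : ℝ) ≤ c1 n x := by exact_mod_cast h6.1
  have h8 : (c1 n x : ℝ) ≤ n := by exact_mod_cast h6.2
  have e : Φ a n h y - Φ a n h x = a * (c2 n h y - c2 n h x) * ((n - 2 * c1 n x) / n) := by
    unfold Φ
    rw [hc1]
    field_simp
    ring
  rw [e, abs_mul, abs_mul, abs_of_pos ha]
  have h9 : |((n : ℝ) - 2 * c1 n x) / n| ≤ 1 := by
    rw [abs_le]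
    constructor
    · rw [le_div_iff₀ hn']; linarith
    · rw [div_le_iff₀ hn']; linarith
  calc a * |(c2 n h y : ℝ) - c2 n h x| * |((n : ℝ) - 2 * c1 n x) / n| ≤ a * 1 * 1 := by gcongr
    _ = a := by ring

lemma Φ_hor (ha : 0 < a) (hn : 1 ≤ n) {x y : V (d + 2) n} (hxy : (G (d + 2) n).Adj x y)
    (h0 : x.1 1 = y.1 1) :
    |Φ a n h y - Φ a n h x| ≤ a * (n + 2 * h - 2 * c2 n h x) / n := by
  have hn' : (0 : ℝ) < n := by exact_mod_cast hn
  have hc1 : c2 n h y = c2 n h x := by unfold c2; rw [h0]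
  obtain ⟨-, h3, -⟩ := adj_cases hxy
  have h4 : |c1 n y - c1 n x| ≤ 1 := by
    unfold c1
    rw [abs_le] at h3 ⊢
    omega
  have h5 : |(c1 n y : ℝ) - c1 n x| ≤ 1 := by exact_mod_cast h4
  have h6 : 0 ≤ c2 n h x ∧ c2 n h x ≤ h := by unfold c2; omega
  have h7 : (0 : ℝ) ≤ c2 n h x := by exact_mod_cast h6.1
  have h8 : (c2 n h x : ℝ) ≤ h := by exact_mod_cast h6.2
  have e : Φ a n h y - Φ a n h x =
      (c1 n y - c1 n x) * (a * (n + 2 * h - 2 * c2 n h x) / n) := by
    unfold Φ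
    rw [hc1]
    field_simp
    ring
  have h9 : 0 ≤ a * (n + 2 * h - 2 * c2 n h x) / n := by
    apply div_nonneg _ hn'.le
    apply mul_nonneg ha.le
    linarith
  rw [e, abs_mul, abs_of_nonneg h9]
  calc |(c1 n y : ℝ) - c1 n x| * (a * (n + 2 * h - 2 * c2 n h x) / n)
      ≤ 1 * (a * (n + 2 * h - 2 * c2 n h x) / n) := by gcongr
    _ = _ := one_mul _

lemma c2_bound (x : V (d + 2) n) : (0 : ℝ) ≤ c2 n h x ∧ (c2 n h x : ℝ) ≤ h := by
  have h6 : 0 ≤ c2 n h x ∧ c2 n h x ≤ h := by unfold c2; omega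
  exact ⟨by exact_mod_cast h6.1, by exact_mod_cast h6.2⟩

/-- global Lipschitz bound -/
lemma Φ_lip (ha : 0 < a) (hn : 1 ≤ n) {x y : V (d + 2) n} (hxy : (G (d + 2) n).Adj x y) :
    |Φ a n h y - Φ a n h x| ≤ a * (n + 2 * h) / n := by
  have hn' : (0 : ℝ) < n := by exact_mod_cast hn
  have hx := c2_bound (h := h) x
  rcases (adj_cases hxy).1 with h1 | h1
  · refine (Φ_vert ha hn hxy h1).trans ?_
    rw [le_div_iff₀ hn']
    nlinarith [hx.1, hx.2]
  · refine (Φ_hor ha hn hxy h1).trans ?_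
    gcongr
    linarith [hx.1]

/-- the edge sequence of the detour -/
def onRect (hh : h ≤ 2 * n) (e : Sym2 (V (d + 2) n)) : Prop :=
  ∃ k < n + 2 * h, e = s(rect d n h hh k, rect d n h hh (k + 1))

lemma rect0 (hh : h ≤ 2 * n) (k : ℕ) : (rect d n h hh k).1 0 = cx n h k := by
  simp [rect, pt_zero]

lemma rect1 (hh : h ≤ 2 * n) (k : ℕ) : (rect d n h hh k).1 1 = cy n h k := by
  simp [rect, pt_one]

lemma Φ_on (ha : 0 < a) (hn : 1 ≤ n) (hh1 : 1 ≤ h) (hh : h ≤ 2 * n) (k : ℕ)
    (hk : k < n + 2 * h) :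
    |Φ a n h (rect d n h hh (k + 1)) - Φ a n h (rect d n h hh k)| ≤ a := by
  have hn' : (0 : ℝ) < n := by exact_mod_cast hn
  have hadj := rect_adj (d := d) h hh hn hh1 k hk
  rcases lt_or_ge k h with h1 | h1
  · apply Φ_vert ha hn hadj
    rw [rect0, rect0]; unfold cx; omega
  · rcases lt_or_ge k (h + n) with h2 | h2
    · refine (Φ_hor ha hn hadj ?_).trans ?_
      · rw [rect1, rect1]; unfold cy; omega
      · have : c2 n h (rect d n h hh k) = h := by
          unfold c2
          rw [rect1]; unfold cy; omega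
        rw [this]
        push_cast
        rw [div_le_iff₀ hn']
        linarith
    · apply Φ_vert ha hn hadj
      rw [rect0, rect0]; unfold cx; omega

lemma Φ_on' (ha : 0 < a) (hn : 1 ≤ n) (hh1 : 1 ≤ h) (hh : h ≤ 2 * n) {x y : V (d + 2) n}
    (hxy : onRect hh s(x, y)) : |Φ a n h y - Φ a n h x| ≤ a := by
  obtain ⟨k, hk, he⟩ := hxy
  have := Φ_on (d := d) ha hn hh1 hh k hk
  rcases Sym2.eq_iff.1 he with ⟨rfl, rfl⟩ | ⟨rfl, rfl⟩
  · exact this
  · rwa [abs_sub_comm]

open Classical in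
/-- the configuration with weight `a` on the detour and `b` elsewhere -/
noncomputable def om (hh : h ≤ 2 * n) : Config (d + 2) n := fun e => decide (onRect hh e.1)

/-- the rim edge `{(0, h), (1, h)}` -/
def rim (d : ℕ) (hh : h ≤ 2 * n) (hn : 1 ≤ n) (hh1 : 1 ≤ h) : Edge (d + 2) n :=
  ⟨s(rect d n h hh h, rect d n h hh (h + 1)),
    (G (d + 2) n).mem_edgeSet.2 (rect_adj h hh hn hh1 h (by omega))⟩

lemma wt_om_on (hh : h ≤ 2 * n) {e : Sym2 (V (d + 2) n)} (he : e ∈ (G (d + 2) n).edgeSet)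
    (h1 : onRect hh e) : wt a b (om hh) e = a := by
  unfold wt om
  rw [dif_pos he, if_pos (by simpa using h1)]

lemma wt_om_off (hh : h ≤ 2 * n) {e : Sym2 (V (d + 2) n)} (he : e ∈ (G (d + 2) n).edgeSet)
    (h1 : ¬ onRect hh e) : wt a b (om hh) e = b := by
  unfold wt om
  rw [dif_pos he, if_neg (by simpa using h1)]

lemma Φ_org : Φ a n h (org (d + 2) n) = 0 := by
  have h1 : c1 n (org (d + 2) n) = 0 := by simp [c1, org]
  have h2 : c2 n h (org (d + 2) n) = 0 := by simp [c2, org]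
  unfold Φ
  rw [h1, h2]
  simp

lemma Φ_tgt (hn : 1 ≤ n) : Φ a n h (tgt n (e1 d) (e1_bound d)) = a * (n + 2 * h) := by
  have hn' : (0 : ℝ) < n := by exact_mod_cast hn
  have h1 : c1 n (tgt n (e1 d) (e1_bound d)) = n := by
    unfold c1; rw [tgt_zero]; omega
  have h2 : c2 n h (tgt n (e1 d) (e1_bound d)) = 0 := by
    unfold c2; rw [tgt_one]; omega
  unfold Φ
  rw [h1, h2]
  push_cast
  field_simp
  ring

/-- the potential bounds the weights of `om` -/
lemma Φ_le_om (ha : 0 < a) (hn : 1 ≤ n) (hh1 : 1 ≤ h) (hh : h ≤ 2 * n)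
    (hb : a * (n + 2 * h) ≤ b * n) {x y : V (d + 2) n} (hxy : (G (d + 2) n).Adj x y) :
    Φ a n h y - Φ a n h x ≤ wt a b (om hh) s(x, y) := by
  have hn' : (0 : ℝ) < n := by exact_mod_cast hn
  have he : s(x, y) ∈ (G (d + 2) n).edgeSet := (G (d + 2) n).mem_edgeSet.2 hxy
  refine (le_abs_self _).trans ?_
  by_cases h1 : onRect hh s(x, y)
  · rw [wt_om_on hh he h1]
    exact Φ_on' ha hn hh1 hh h1
  · rw [wt_om_off hh he h1]
    refine (Φ_lip ha hn hxy).trans ?_
    rw [div_le_iff₀ hn']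
    exact hb

/-- crossing edges of the detour are the rim edge -/
lemma cross (hn : 1 ≤ n) (hh1 : 1 ≤ h) (hh : h ≤ 2 * n) {x y : V (d + 2) n}
    (h1 : onRect hh s(x, y)) (hx : ¬ 1 ≤ x.1 0) (hy : 1 ≤ y.1 0) :
    s(x, y) = (rim d hh hn hh1).1 := by
  obtain ⟨k, hk, he⟩ := h1
  have hkh : k = h := by
    rcases Sym2.eq_iff.1 he with ⟨rfl, rfl⟩ | ⟨rfl, rfl⟩
    · rw [rect0] at hx hy
      unfold cx at hx hy
      omega
    · rw [rect0] at hx hy
      unfold cx at hx hy
      omega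
  subst hkh
  exact he

/-- the improved potential, away from the rim edge -/
lemma Φ_cut (ha : 0 < a) (hn : 1 ≤ n) (hh1 : 1 ≤ h) (hh : h ≤ 2 * n)
    {ε : ℝ} (hε : 0 ≤ ε) (hb : a * (n + 2 * h) / n + ε ≤ b) {x y : V (d + 2) n}
    (hxy : (G (d + 2) n).Adj x y) (hj : s(x, y) ≠ (rim d hh hn hh1).1) :
    (Φ a n h y + ε * gi y) - (Φ a n h x + ε * gi x) ≤ wt a b (om hh) s(x, y) := by
  have hn' : (0 : ℝ) < n := by exact_mod_cast hn
  have hb' : a * (n + 2 * h) ≤ b * n := by
    have : a * (n + 2 * h) / n ≤ b := by linarith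
    rwa [div_le_iff₀ hn'] at this
  have he : s(x, y) ∈ (G (d + 2) n).edgeSet := (G (d + 2) n).mem_edgeSet.2 hxy
  have h0 := Φ_le_om (b := b) ha hn hh1 hh hb' hxy
  by_cases hcr : (¬ 1 ≤ x.1 0) ∧ 1 ≤ y.1 0
  · have h1 : ¬ onRect hh s(x, y) := fun h1 => hj (cross hn hh1 hh h1 hcr.1 hcr.2)
    rw [wt_om_off hh he h1]
    have h2 := (le_abs_self _).trans (Φ_lip (h := h) ha hn hxy)
    unfold gi
    rw [if_pos hcr.2, if_neg hcr.1]
    linarith
  · have h1 : gi y ≤ gi x := by
      unfold gi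
      by_cases hx : 1 ≤ x.1 0
      · rw [if_pos hx]; split_ifs <;> norm_num
      · have hy : ¬ 1 ≤ y.1 0 := fun hy => hcr ⟨hx, hy⟩
        rw [if_neg hx, if_neg hy]
    have : ε * gi y ≤ ε * gi x := mul_le_mul_of_nonneg_left h1 hε
    linarith

lemma gi_org : gi (org (d + 2) n) = 0 := by simp [gi, org]

lemma gi_tgt (hn : 1 ≤ n) : gi (tgt n (e1 d) (e1_bound d)) = 1 := by
  unfold gi
  rw [tgt_zero, if_pos (by exact_mod_cast hn)]

lemma T_rectWalk (hn : 1 ≤ n) (hh1 : 1 ≤ h) (hh : h ≤ 2 * n) :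
    T a b (om hh) (rectWalk d n h hh hn hh1) = a * (n + 2 * h) := by
  unfold T rectWalk
  rw [SimpleGraph.Walk.edges_copy]
  have h1 : ∀ x ∈ ((seqWalk (rect d n h hh) (n + 2 * h)
      fun k hk => rect_adj h hh hn hh1 k hk).edges.map (wt a b (om hh))), x = a := by
    intro x hx
    obtain ⟨e, he, rfl⟩ := List.mem_map.1 hx
    have he' := SimpleGraph.Walk.edges_subset_edgeSet _ he
    exact wt_om_on hh he' ((mem_seqWalk _ _ _ _).1 he)
  rw [List.eq_replicate_of_mem h1, List.sum_replicate, List.length_map,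
    SimpleGraph.Walk.length_edges, seqWalk_length, nsmul_eq_mul]
  push_cast
  ring

lemma f_om (ha : 0 < a) (hab : a < b) (hn : 1 ≤ n) (hh1 : 1 ≤ h) (hh : h ≤ 2 * n)
    (hb : a * (n + 2 * h) ≤ b * n) :
    f a b (e1 d) (e1_bound d) (om (n := n) hh) = a * (n + 2 * h) := by
  unfold f
  have hne : Nonempty ((G (d + 2) n).Walk (org (d + 2) n) (tgt n (e1 d) (e1_bound d))) :=
    ⟨strtWalk d n⟩
  apply le_antisymm
  · refine (ciInf_le (bdd ha hab _ _) (rectWalk d n h hh hn hh1)).trans ?_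
    rw [T_rectWalk]
  · apply le_ciInf
    intro γ
    have := pot (a := a) (b := b) (ω := om hh) γ (Φ a n h) fun x y hxy =>
      Φ_le_om ha hn hh1 hh hb ((G (d + 2) n).mem_edgeSet.1
        (SimpleGraph.Walk.edges_subset_edgeSet _ hxy))
    rw [Φ_org, Φ_tgt hn] at this
    linarith

/-- the rim edge is on a geodesic of `om` -/
lemma semi (ha : 0 < a) (hab : a < b) (hn : 1 ≤ n) (hh1 : 1 ≤ h) (hh : h ≤ 2 * n)
    (hb : a * (n + 2 * h) ≤ b * n) :
    om hh ∈ SemiEssential a b (e1 d) (e1_bound d) (rim d hh hn hh1) := by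
  refine ⟨rectWalk d n h hh hn hh1, ?_, ?_⟩
  · unfold IsGeodesic
    rw [T_rectWalk, f_om ha hab hn hh1 hh hb]
  · unfold rectWalk
    rw [SimpleGraph.Walk.edges_copy, mem_seqWalk]
    exact ⟨h, by omega, rfl⟩

/-- strict case: every geodesic of `om` uses the rim edge -/
lemma ess (ha : 0 < a) (hab : a < b) (hn : 1 ≤ n) (hh1 : 1 ≤ h) (hh : h ≤ 2 * n)
    (hb : a * (n + 2 * h) < b * n) :
    om hh ∈ Essential a b (e1 d) (e1_bound d) (rim d hh hn hh1) := by
  have hn' : (0 : ℝ) < n := by exact_mod_cast hn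
  intro γ hγ
  by_contra hj
  unfold IsGeodesic at hγ
  rw [f_om ha hab hn hh1 hh hb.le] at hγ
  have hε : 0 < b - a * (n + 2 * h) / n := by
    rw [sub_pos, div_lt_iff₀ hn']
    exact hb
  have := pot (a := a) (b := b) (ω := om hh) γ
    (fun x => Φ a n h x + (b - a * (n + 2 * h) / n) * gi x) fun x y hxy =>
      Φ_cut ha hn hh1 hh hε.le (by linarith) ((G (d + 2) n).mem_edgeSet.1
        (SimpleGraph.Walk.edges_subset_edgeSet _ hxy)) (fun h => hj (h ▸ hxy))
  simp only [Φ_org, Φ_tgt hn, gi_org, gi_tgt hn] at this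
  linarith

open Classical in
/-- strict case: the rim edge is influential for `om` -/
lemma infl (ha : 0 < a) (hab : a < b) (hn : 1 ≤ n) (hh1 : 1 ≤ h) (hh : h ≤ 2 * n)
    (hb : a * (n + 2 * h) < b * n) :
    om hh ∈ Influential a b (e1 d) (e1_bound d) (rim d hh hn hh1) := by
  have hn' : (0 : ℝ) < n := by exact_mod_cast hn
  have hne : Nonempty ((G (d + 2) n).Walk (org (d + 2) n) (tgt n (e1 d) (e1_bound d))) :=
    ⟨strtWalk d n⟩
  set j := rim d hh hn hh1 with hj
  have hjon : onRect hh j.1 := ⟨h, by omega, rfl⟩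
  have h1 : Function.update (om hh) j true = om hh := by
    rw [Function.update_eq_self_iff]
    unfold om
    simpa using hjon
  set ε : ℝ := min (b - a * (n + 2 * h) / n) (b - a) with hε
  have hε0 : 0 < ε := by
    apply lt_min
    · rw [sub_pos, div_lt_iff₀ hn']
      exact hb
    · linarith
  have hε1 : ε ≤ b - a * (n + 2 * h) / n := min_le_left _ _
  have hε2 : ε ≤ b - a := min_le_right _ _
  have h2 : a * (n + 2 * h) + ε ≤ f a b (e1 d) (e1_bound d) (Function.update (om hh) j false) := by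
    unfold f
    apply le_ciInf
    intro γ
    have := pot (a := a) (b := b) (ω := Function.update (om hh) j false) γ
      (fun x => Φ a n h x + ε * gi x) (fun x y hxy => by
        have hadj := (G (d + 2) n).mem_edgeSet.1 (SimpleGraph.Walk.edges_subset_edgeSet _ hxy)
        have he : s(x, y) ∈ (G (d + 2) n).edgeSet := (G (d + 2) n).mem_edgeSet.2 hadj
        by_cases hxj : s(x, y) = j.1
        · have e1 : wt a b (Function.update (om hh) j false) s(x, y) = b := by
            unfold wt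
            rw [dif_pos he]
            have : (⟨s(x, y), he⟩ : Edge (d + 2) n) = j := Subtype.ext hxj
            rw [this]
            simp
          rw [e1]
          have e2 : |Φ a n h y - Φ a n h x| ≤ a := Φ_on' ha hn hh1 hh (hxj ▸ hjon)
          have e3 : gi y ≤ 1 := by unfold gi; split_ifs <;> norm_num
          have e4 : 0 ≤ gi x := by unfold gi; split_ifs <;> norm_num
          have e5 := le_abs_self (Φ a n h y - Φ a n h x)
          nlinarith
        · have e1 : wt a b (Function.update (om hh) j false) s(x, y) = wt a b (om hh) s(x, y) := by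
            unfold wt
            rw [dif_pos he, dif_pos he, Function.update_of_ne]
            intro h
            exact hxj (congrArg Subtype.val h)
          rw [e1]
          exact Φ_cut ha hn hh1 hh hε0.le (by linarith) hadj hxj)
    simp only [Φ_org, Φ_tgt hn, gi_org, gi_tgt hn] at this
    linarith
  change deriv a b (e1 d) (e1_bound d) j (om hh) ≠ 0
  unfold deriv
  rw [h1, f_om ha hab hn hh1 hh hb.le]
  linarith

lemma f_le_straight (ha : 0 < a) (hab : a < b) (ω : Config (d + 2) n) :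
    f a b (e1 d) (e1_bound d) ω ≤ b * n := by
  refine (ciInf_le (bdd ha hab _ _) (strtWalk d n)).trans ?_
  refine (T_le_length hab _).trans ?_
  unfold strtWalk
  rw [SimpleGraph.Walk.length_copy, seqWalk_length]

/-- a path through the rim edge is long -/
lemma long_of_rim (hn : 1 ≤ n) (hh1 : 1 ≤ h) (hh : h ≤ 2 * n)
    (γ : (G (d + 2) n).Walk (org (d + 2) n) (tgt n (e1 d) (e1_bound d)))
    (hj : (rim d hh hn hh1).1 ∈ γ.edges) : n + 2 * h ≤ γ.length := by
  have h1 : rect d n h hh h ∈ γ.support :=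
    SimpleGraph.Walk.fst_mem_support_of_mem_edges γ hj
  have h2 := length_through γ h1
  rw [l1_split, l1_split] at h2
  have e1 : (rect d n h hh h).1 0 = 0 := by rw [rect0]; unfold cx; omega
  have e2 : (rect d n h hh h).1 1 = h := by rw [rect1]; unfold cy; omega
  have e3 : (org (d + 2) n).1 0 = 0 := rfl
  have e4 : (org (d + 2) n).1 1 = 0 := rfl
  rw [e1, e2, e3, e4, tgt_zero, tgt_one] at h2
  have h3 : 0 ≤ ∑ i : Fin d, |(org (d + 2) n).1 i.succ.succ - (rect d n h hh h).1 i.succ.succ| :=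
    Finset.sum_nonneg fun i _ => abs_nonneg _
  have h4 : 0 ≤ ∑ i : Fin d, |(rect d n h hh h).1 i.succ.succ -
      (tgt n (Fpp.e1 d) (e1_bound d)).1 i.succ.succ| :=
    Finset.sum_nonneg fun i _ => abs_nonneg _
  have e5 : |(0 : ℤ) - 0| = 0 := by simp
  have e6 : |(0 : ℤ) - h| = h := by rw [zero_sub, abs_neg, Nat.abs_cast]
  have e7 : |(0 : ℤ) - n| = n := by rw [zero_sub, abs_neg, Nat.abs_cast]
  have e8 : |(h : ℤ) - 0| = h := by rw [sub_zero, Nat.abs_cast]
  rw [e5, e6, e7, e8] at h2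
  omega

open Classical in
/-- the rim edge is never very influential -/
lemma not_very (ha : 0 < a) (hab : a < b) (hn : 1 ≤ n) (hh1 : 1 ≤ h) (hh : h ≤ 2 * n)
    (hb : b * n < a * (n + 2 * h) + (b - a)) :
    VeryInfluential a b (e1 d) (e1_bound d) (rim d hh hn hh1) = ∅ := by
  have hne : Nonempty ((G (d + 2) n).Walk (org (d + 2) n) (tgt n (e1 d) (e1_bound d))) :=
    ⟨strtWalk d n⟩
  rw [Set.eq_empty_iff_forall_notMem]
  intro ω hω
  change deriv a b (e1 d) (e1_bound d) (rim d hh hn hh1) ω = b - a at hω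
  unfold deriv at hω
  set j := rim d hh hn hh1 with hj
  have h1 := f_le_straight ha hab (Function.update ω j false)
  have h2 : min (f a b (e1 d) (e1_bound d) (Function.update ω j false)) (a * (n + 2 * h)) ≤
      f a b (e1 d) (e1_bound d) (Function.update ω j true) := by
    conv_rhs => unfold f
    apply le_ciInf
    intro γ
    by_cases hjγ : j.1 ∈ γ.edges
    · refine (min_le_right _ _).trans ?_
      refine le_trans ?_ (T_ge_length hab γ)
      have := long_of_rim hn hh1 hh γ hjγ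
      have h3 : ((n : ℝ) + 2 * h) ≤ γ.length := by exact_mod_cast this
      exact mul_le_mul_of_nonneg_left h3 ha.le
    · refine (min_le_left _ _).trans ?_
      have h3 : T a b (Function.update ω j true) γ = T a b (Function.update ω j false) γ := by
        unfold T
        congr 1
        apply List.map_congr_left
        intro e he
        unfold wt
        have he' := SimpleGraph.Walk.edges_subset_edgeSet _ he
        have hne : (⟨e, he'⟩ : Edge (d + 2) n) ≠ j := by
          intro h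
          exact hjγ (by rw [← h]; exact he)
        rw [dif_pos he', dif_pos he', Function.update_of_ne hne, Function.update_of_ne hne]
      rw [h3]
      exact ciInf_le (bdd ha hab _ _) γ
  rcases min_le_iff.1 h2 with h3 | h3 <;> linarith

/-- tie case: the rim edge is never essential -/
lemma not_ess (ha : 0 < a) (hab : a < b) (hn : 1 ≤ n) (hh1 : 1 ≤ h) (hh : h ≤ 2 * n)
    (hb : b * n = a * (n + 2 * h)) :
    Essential a b (e1 d) (e1_bound d) (rim d hh hn hh1) = ∅ := by
  have hne : Nonempty ((G (d + 2) n).Walk (org (d + 2) n) (tgt n (e1 d) (e1_bound d))) :=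
    ⟨strtWalk d n⟩
  rw [Set.eq_empty_iff_forall_notMem]
  intro ω hω
  obtain ⟨γ, hγ⟩ := exists_geodesic (ω := ω) ha hab (e1 d) (e1_bound d) hne
  have h1 := long_of_rim hn hh1 hh γ (hω γ hγ)
  have h2 : ((n : ℝ) + 2 * h) ≤ γ.length := by exact_mod_cast h1
  have h3 := T_ge_length (ω := ω) hab γ
  have h4 : a * ((n : ℝ) + 2 * h) ≤ a * γ.length := mul_le_mul_of_nonneg_left h2 ha.le
  -- the straight path is then a geodesic, and it avoids the rim edge
  have h5 : T a b ω (strtWalk d n) ≤ b * n := by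
    refine (T_le_length hab _).trans ?_
    unfold strtWalk
    rw [SimpleGraph.Walk.length_copy, seqWalk_length]
  have h6 : IsGeodesic a b (e1 d) (e1_bound d) ω (strtWalk d n) := by
    unfold IsGeodesic at hγ ⊢
    apply le_antisymm
    · rw [← hγ]; linarith
    · exact ciInf_le (bdd ha hab _ _) (strtWalk d n)
  have h7 := long_of_rim hn hh1 hh _ (hω _ h6)
  unfold strtWalk at h7
  rw [SimpleGraph.Walk.length_copy, seqWalk_length] at h7
  omega

end Pool.Agent.R964.Fpp
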