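import Pool.Agent.R964.Fpp

/-!
# The rectangular detour of height `h`
-/

set_option autoImplicit false

open MeasureTheory

namespace Pool.Agent.R964.Fpp

section seq

variable {W : Type*} {H : SimpleGraph W}

/-- the walk along a sequence of consecutive neighbours -/
def seqWalk (u : ℕ → W) : (m : ℕ) → (∀ k < m, H.Adj (u k) (u (k + 1))) → H.Walk (u 0) (u m)
  | 0, _ => SimpleGraph.Walk.nil
  | m + 1, h => (seqWalk u m fun k hk => h k (Nat.lt_succ_of_lt hk)).concat (h m (Nat.lt_succ_self m))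

lemma seqWalk_length (u : ℕ → W) (m : ℕ) (h : ∀ k < m, H.Adj (u k) (u (k + 1))) :
    (seqWalk u m h).length = m := by
  induction m with
  | zero => rfl
  | succ m ih => rw [seqWalk, SimpleGraph.Walk.length_concat, ih]

lemma mem_seqWalk (u : ℕ → W) (m : ℕ) (h : ∀ k < m, H.Adj (u k) (u (k + 1))) (e : Sym2 W) :
    e ∈ (seqWalk u m h).edges ↔ ∃ k < m, e = s(u k, u (k + 1)) := by
  induction m with
  | zero => simp [seqWalk]
  | succ m ih =>
    rw [seqWalk, SimpleGraph.Walk.edges_concat, List.concat_eq_append, List.mem_append,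
      List.mem_singleton, ih]
    constructor
    · rintro (⟨k, hk, rfl⟩ | rfl)
      · exact ⟨k, by omega, rfl⟩
      · exact ⟨m, by omega, rfl⟩
    · rintro ⟨k, hk, rfl⟩
      rcases Nat.lt_succ_iff_lt_or_eq.1 hk with h1 | rfl
      · exact Or.inl ⟨k, h1, rfl⟩
      · exact Or.inr rfl

end seq

variable {d n : ℕ}

/-- the point `(x, y, 0, ..., 0)` -/
def pt (d n : ℕ) (x y : ℤ) (hx : |x| ≤ 2 * n) (hy : |y| ≤ 2 * n) : V (d + 2) n :=
  ⟨fun i => if i = 0 then x else if i = 1 then y else 0, fun i => by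
    by_cases h0 : i = 0
    · simp only [h0, if_true]; exact hx
    · by_cases h1 : i = 1
      · simp only [h1, if_true]
        rw [if_neg (by simp)]
        exact hy
      · simp only [h0, h1, if_false]; simp⟩

lemma pt_zero (x y : ℤ) (hx : |x| ≤ 2 * n) (hy : |y| ≤ 2 * n) : (pt d n x y hx hy).1 0 = x := by
  simp [pt]

lemma pt_one (x y : ℤ) (hx : |x| ≤ 2 * n) (hy : |y| ≤ 2 * n) : (pt d n x y hx hy).1 1 = y := by
  simp [pt]

lemma pt_rest (x y : ℤ) (hx : |x| ≤ 2 * n) (hy : |y| ≤ 2 * n) (i : Fin d) :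
    (pt d n x y hx hy).1 i.succ.succ = 0 := by
  have h1 : (i.succ.succ : Fin (d + 2)) ≠ 0 := Fin.succ_ne_zero _
  have h2 : (i.succ.succ : Fin (d + 2)) ≠ 1 := by
    intro h
    have := congrArg Fin.val h
    simp at this
  simp [pt, h1, h2]

lemma l1_split (x y : V (d + 2) n) : ∑ i, |x.1 i - y.1 i| =
    |x.1 0 - y.1 0| + |x.1 1 - y.1 1| + ∑ i : Fin d, |x.1 i.succ.succ - y.1 i.succ.succ| := by
  rw [Fin.sum_univ_succ, Fin.sum_univ_succ]
  exact (add_assoc _ _ _).symm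

lemma adj_pt {x y x' y' : ℤ} (hx : |x| ≤ 2 * n) (hy : |y| ≤ 2 * n) (hx' : |x'| ≤ 2 * n)
    (hy' : |y'| ≤ 2 * n) (h : |x - x'| + |y - y'| = 1) :
    (G (d + 2) n).Adj (pt d n x y hx hy) (pt d n x' y' hx' hy') := by
  change ∑ i, |(pt d n x y hx hy).1 i - (pt d n x' y' hx' hy').1 i| = 1
  rw [l1_split, pt_zero, pt_zero, pt_one, pt_one, h]
  simp [pt_rest]

/-- what adjacency means for the first two coordinates -/
lemma adj_cases {x y : V (d + 2) n} (h : (G (d + 2) n).Adj x y) :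
    (x.1 0 = y.1 0 ∨ x.1 1 = y.1 1) ∧ |x.1 0 - y.1 0| ≤ 1 ∧ |x.1 1 - y.1 1| ≤ 1 := by
  have h1 : ∑ i, |x.1 i - y.1 i| = 1 := h
  rw [l1_split] at h1
  have h2 : 0 ≤ ∑ i : Fin d, |x.1 i.succ.succ - y.1 i.succ.succ| :=
    Finset.sum_nonneg fun i _ => abs_nonneg _
  have h3 := abs_nonneg (x.1 0 - y.1 0)
  have h4 := abs_nonneg (x.1 1 - y.1 1)
  refine ⟨?_, by linarith, by linarith⟩
  by_contra hcon
  push Not at hcon
  have h5 : 1 ≤ |x.1 0 - y.1 0| := Int.one_le_abs (sub_ne_zero.2 hcon.1)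
  have h6 : 1 ≤ |x.1 1 - y.1 1| := Int.one_le_abs (sub_ne_zero.2 hcon.2)
  linarith

/-- clamped first coordinate of the detour -/
def cx (n h k : ℕ) : ℤ := max 0 (min n ((k : ℤ) - h))

/-- clamped second coordinate of the detour -/
def cy (n h k : ℕ) : ℤ := max 0 (min (min k h) ((n : ℤ) + 2 * h - k))

/-- the vertices of the detour `(0, 0) → (0, h) → (n, h) → (n, 0)` -/
def rect (d n h : ℕ) (hh : h ≤ 2 * n) (k : ℕ) : V (d + 2) n :=
  pt d n (cx n h k) (cy n h k) (by unfold cx; rw [abs_le]; omega)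
    (by unfold cy; rw [abs_le]; omega)

lemma rect_adj (h : ℕ) (hh : h ≤ 2 * n) (hn : 1 ≤ n) (hh1 : 1 ≤ h) (k : ℕ) (hk : k < n + 2 * h) :
    (G (d + 2) n).Adj (rect d n h hh k) (rect d n h hh (k + 1)) := by
  apply adj_pt
  unfold cx cy
  rcases lt_or_ge k h with h1 | h1
  · have e1 : max (0 : ℤ) (min (n : ℤ) ((k : ℤ) - h)) = 0 := by omega
    have e2 : max (0 : ℤ) (min (n : ℤ) (((k + 1 : ℕ) : ℤ) - h)) = 0 := by omega
    have e3 : max (0 : ℤ) (min (min (k : ℤ) h) ((n : ℤ) + 2 * h - k)) = k := by omega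
    have e4 : max (0 : ℤ) (min (min ((k + 1 : ℕ) : ℤ) h) ((n : ℤ) + 2 * h - (k + 1 : ℕ))) =
      k + 1 := by omega
    rw [e1, e2, e3, e4]
    simp
  · rcases lt_or_ge k (h + n) with h2 | h2
    · have e1 : max (0 : ℤ) (min (n : ℤ) ((k : ℤ) - h)) = k - h := by omega
      have e2 : max (0 : ℤ) (min (n : ℤ) (((k + 1 : ℕ) : ℤ) - h)) = k - h + 1 := by omega
      have e3 : max (0 : ℤ) (min (min (k : ℤ) h) ((n : ℤ) + 2 * h - k)) = h := by omega
      have e4 : max (0 : ℤ) (min (min ((k + 1 : ℕ) : ℤ) h) ((n : ℤ) + 2 * h - (k + 1 : ℕ))) =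
        h := by omega
      rw [e1, e2, e3, e4]
      simp
    · have e1 : max (0 : ℤ) (min (n : ℤ) ((k : ℤ) - h)) = n := by omega
      have e2 : max (0 : ℤ) (min (n : ℤ) (((k + 1 : ℕ) : ℤ) - h)) = n := by omega
      have e3 : max (0 : ℤ) (min (min (k : ℤ) h) ((n : ℤ) + 2 * h - k)) = n + 2 * h - k := by
        omega
      have e4 : max (0 : ℤ) (min (min ((k + 1 : ℕ) : ℤ) h) ((n : ℤ) + 2 * h - (k + 1 : ℕ))) =
        n + 2 * h - k - 1 := by omega
      rw [e1, e2, e3, e4]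
      simp

/-- the straight path -/
def strt (d n : ℕ) (k : ℕ) : V (d + 2) n :=
  pt d n (min (k : ℤ) n) 0 (by rw [abs_le]; omega) (by simp)

lemma strt_adj (k : ℕ) (hk : k < n) : (G (d + 2) n).Adj (strt d n k) (strt d n (k + 1)) := by
  apply adj_pt
  have e1 : min (k : ℤ) n = k := by omega
  have e2 : min ((k + 1 : ℕ) : ℤ) n = k + 1 := by omega
  rw [e1, e2]
  simp

/-- the direction `e_1` -/
def e1 (d : ℕ) : Fin (d + 2) → ℤ := Pi.single 0 1

lemma e1_bound (d : ℕ) : ∀ i, |e1 d i| ≤ 2 := by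
  intro i
  unfold e1
  by_cases h : i = 0
  · subst h; simp
  · simp [Pi.single_eq_of_ne h]

lemma ext_V {x y : V (d + 2) n} (h0 : x.1 0 = y.1 0) (h1 : x.1 1 = y.1 1)
    (h2 : ∀ i : Fin d, x.1 i.succ.succ = y.1 i.succ.succ) : x = y := by
  apply Subtype.ext
  funext i
  refine Fin.cases h0 (fun i => ?_) i
  exact Fin.cases h1 h2 i

lemma tgt_zero : (tgt n (e1 d) (e1_bound d)).1 0 = n := by simp [tgt, e1]

lemma tgt_one : (tgt n (e1 d) (e1_bound d)).1 1 = 0 := by simp [tgt, e1]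

lemma tgt_rest (i : Fin d) : (tgt n (e1 d) (e1_bound d)).1 i.succ.succ = 0 := by
  simp [tgt, e1]

lemma strt_zero : strt d n 0 = org (d + 2) n := by
  apply ext_V
  · simp [strt, pt_zero, org]
  · simp [strt, pt_one, org]
  · intro i; simp [strt, pt_rest, org]

lemma strt_last : strt d n n = tgt n (e1 d) (e1_bound d) := by
  apply ext_V
  · rw [tgt_zero]; simp [strt, pt_zero]
  · rw [tgt_one]; simp [strt, pt_one]
  · intro i; rw [tgt_rest]; simp [strt, pt_rest]

lemma rect_zero (h : ℕ) (hh : h ≤ 2 * n) : rect d n h hh 0 = org (d + 2) n := by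
  apply ext_V
  · simp only [rect, pt_zero, org, cx]; omega
  · simp only [rect, pt_one, org, cy]; omega
  · intro i; simp [rect, pt_rest, org]

lemma rect_last (h : ℕ) (hh : h ≤ 2 * n) :
    rect d n h hh (n + 2 * h) = tgt n (e1 d) (e1_bound d) := by
  apply ext_V
  · rw [tgt_zero]; simp only [rect, pt_zero, cx]; omega
  · rw [tgt_one]; simp only [rect, pt_one, cy]; omega
  · intro i; rw [tgt_rest]; simp [rect, pt_rest]

/-- the straight path as a walk from `0` to `n e_1` -/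
def strtWalk (d n : ℕ) : (G (d + 2) n).Walk (org (d + 2) n) (tgt n (e1 d) (e1_bound d)) :=
  (seqWalk (strt d n) n fun k hk => strt_adj k hk).copy strt_zero strt_last

/-- the detour as a walk from `0` to `n e_1` -/
def rectWalk (d n h : ℕ) (hh : h ≤ 2 * n) (hn : 1 ≤ n) (hh1 : 1 ≤ h) :
    (G (d + 2) n).Walk (org (d + 2) n) (tgt n (e1 d) (e1_bound d)) :=
  (seqWalk (rect d n h hh) (n + 2 * h) fun k hk => rect_adj h hh hn hh1 k hk).copy
    (rect_zero h hh) (rect_last h hh)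

end Pool.Agent.R964.Fpp
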