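import Pool.Agent.R964.NegBin

/-!
# A window of hitting times of large probability
-/

set_option autoImplicit false

namespace Pool.Agent.R964.HitWindow

open Finset Matrix NegBin

/-! ### hitting probabilities of a finite chain -/

section hit

variable {S : Type*} [Fintype S] [DecidableEq S]

/-- The hitting probability `P_x(τ(y) = k)`, `τ(y) = min {j ≥ 0 : X_j = y}`: the sum of the
probabilities of all trajectories `w 0 = x, w 1, ..., w k = y` with `w j ≠ y` for `j < k`. -/
noncomputable def hitProb (P : Matrix S S ℝ) (x y : S) (k : ℕ) : ℝ :=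
  ∑ w : Fin (k + 1) → S,
    if w 0 = x ∧ w (Fin.last k) = y ∧ ∀ j : Fin (k + 1), j ≠ Fin.last k → w j ≠ y then
      ∏ i : Fin k, P (w i.castSucc) (w i.succ) else 0

lemma sum_fun_succ {M : Type*} [AddCommMonoid M] (n : ℕ) (F : (Fin (n + 1) → S) → M) :
    ∑ w, F w = ∑ a : S, ∑ w : Fin n → S, F (Fin.cons a w) := by
  rw [← Fintype.sum_prod_type']
  exact (Fintype.sum_equiv (Fin.consEquiv fun _ => S) _ _ fun _ => rfl).symm

lemma hitProb_zero (P : Matrix S S ℝ) (x y : S) :
    hitProb P x y 0 = if x = y then 1 else 0 := by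
  unfold hitProb
  rw [sum_fun_succ]
  simp only [Fintype.sum_unique]
  rw [Finset.sum_eq_single x]
  · have h1 : (Fin.cons x (default : Fin 0 → S) : Fin (0 + 1) → S) 0 = x := rfl
    have h2 : (Fin.cons x (default : Fin 0 → S) : Fin (0 + 1) → S) (Fin.last 0) = x := rfl
    rw [h1, h2]
    by_cases hxy : x = y
    · rw [if_pos hxy, if_pos]
      · simp
      · refine ⟨rfl, hxy, fun j hj => ?_⟩
        exact absurd (Fin.ext (by have := j.isLt; have h3 : (Fin.last 0).val = 0 := rfl; omega)) hj
    · rw [if_neg hxy, if_neg]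
      rintro ⟨-, h, -⟩
      exact hxy h
  · intro a _ ha
    rw [if_neg]
    rintro ⟨h, -, -⟩
    exact ha h
  · intro h
    exact absurd (Finset.mem_univ x) h

lemma hitProb_succ (P : Matrix S S ℝ) (x y : S) (k : ℕ) :
    hitProb P x y (k + 1) = if x = y then 0 else ∑ z, P x z * hitProb P z y k := by
  unfold hitProb
  rw [sum_fun_succ, Finset.sum_eq_single x]
  · by_cases hxy : x = y
    · rw [if_pos hxy]
      refine Finset.sum_eq_zero fun w _ => if_neg ?_
      rintro ⟨-, -, h⟩
      exact h 0 (by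
        intro h0
        have := congrArg Fin.val h0
        simp at this) hxy
    · rw [if_neg hxy]
      -- split according to the first state of `w`
      have key : ∀ w : Fin (k + 1) → S,
          (if (Fin.cons x w : Fin (k + 1 + 1) → S) 0 = x ∧
            (Fin.cons x w : Fin (k + 1 + 1) → S) (Fin.last (k + 1)) = y ∧
            ∀ j : Fin (k + 1 + 1), j ≠ Fin.last (k + 1) →
              (Fin.cons x w : Fin (k + 1 + 1) → S) j ≠ y then
            ∏ i : Fin (k + 1), P ((Fin.cons x w : Fin (k + 1 + 1) → S) i.castSucc)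
              ((Fin.cons x w : Fin (k + 1 + 1) → S) i.succ) else 0) =
          ∑ z, P x z * (if w 0 = z ∧ w (Fin.last k) = y ∧
            ∀ j : Fin (k + 1), j ≠ Fin.last k → w j ≠ y then
              ∏ i : Fin k, P (w i.castSucc) (w i.succ) else 0) := by
        intro w
        rw [Finset.sum_eq_single (w 0)]
        · have e1 : ((Fin.cons x w : Fin (k + 1 + 1) → S) 0 = x ∧
              (Fin.cons x w : Fin (k + 1 + 1) → S) (Fin.last (k + 1)) = y ∧
              ∀ j : Fin (k + 1 + 1), j ≠ Fin.last (k + 1) →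
                (Fin.cons x w : Fin (k + 1 + 1) → S) j ≠ y) ↔
              (w 0 = w 0 ∧ w (Fin.last k) = y ∧
              ∀ j : Fin (k + 1), j ≠ Fin.last k → w j ≠ y) := by
            constructor
            · rintro ⟨-, h2, h3⟩
              refine ⟨rfl, h2, fun j hj => ?_⟩
              have := h3 j.succ (by
                intro h
                apply hj
                exact Fin.succ_injective _ h)
              rwa [Fin.cons_succ] at this
            · rintro ⟨-, h2, h3⟩
              refine ⟨rfl, h2, fun j hj => ?_⟩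
              refine Fin.cases ?_ (fun i => ?_) j (motive := fun j => j ≠ Fin.last (k + 1) →
                (Fin.cons x w : Fin (k + 1 + 1) → S) j ≠ y) hj
              · intro _
                exact hxy
              · intro hi
                rw [Fin.cons_succ]
                exact h3 i (fun h => hi (by rw [h]; rfl))
          by_cases hc : w (Fin.last k) = y ∧ ∀ j : Fin (k + 1), j ≠ Fin.last k → w j ≠ y
          · rw [if_pos (e1.2 ⟨rfl, hc⟩), if_pos ⟨rfl, hc⟩, Fin.prod_univ_succ]
            rfl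
          · rw [if_neg (fun h => hc (e1.1 h).2), if_neg (fun h => hc h.2), mul_zero]
        · intro z _ hz
          rw [if_neg, mul_zero]
          rintro ⟨h, -, -⟩
          exact hz h.symm
        · intro h
          exact absurd (Finset.mem_univ _) h
      rw [Finset.sum_congr rfl fun w _ => key w, Finset.sum_comm]
      refine Finset.sum_congr rfl fun z _ => ?_
      rw [Finset.mul_sum]
  · intro a _ ha
    refine Finset.sum_eq_zero fun w _ => if_neg ?_
    rintro ⟨h, -, -⟩
    exact ha h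
  · intro h
    exact absurd (Finset.mem_univ x) h

end hit

/-! ### the pure birth chain -/

/-- the chain on `{0, ..., m}` which stays with probability `1 - q`, moves one step up with
probability `q`, and is absorbed at `m` -/
noncomputable def birth (m : ℕ) (q : ℝ) : Matrix (Fin (m + 1)) (Fin (m + 1)) ℝ :=
  Matrix.of fun i j => if i = Fin.last m then (if j = i then 1 else 0) else
    (if j = i then 1 - q else 0) + (if j.val = i.val + 1 then q else 0)

lemma birth_nonneg {m : ℕ} {q : ℝ} (h0 : 0 ≤ q) (h1 : q ≤ 1) (i j : Fin (m + 1)) :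
    0 ≤ birth m q i j := by
  simp only [birth, Matrix.of_apply]
  split_ifs <;> linarith

lemma birth_sum {m : ℕ} {q : ℝ} (i : Fin (m + 1)) (F : Fin (m + 1) → ℝ) (hi : i.val < m) :
    ∑ j, birth m q i j * F j = (1 - q) * F i + q * F ⟨i.val + 1, by omega⟩ := by
  have hne : i ≠ Fin.last m := by
    intro h
    rw [h] at hi
    simp at hi
  simp only [birth, Matrix.of_apply, if_neg hne, add_mul, Finset.sum_add_distrib, ite_mul,
    zero_mul]
  congr 1
  · rw [Finset.sum_ite_eq' Finset.univ i, if_pos (Finset.mem_univ i)]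
  · have : ∀ j : Fin (m + 1), (j.val = i.val + 1) ↔ j = ⟨i.val + 1, by omega⟩ := by
      intro j
      rw [Fin.ext_iff]
    simp only [this]
    rw [Finset.sum_ite_eq' Finset.univ, if_pos (Finset.mem_univ _)]

lemma birth_row {m : ℕ} {q : ℝ} (i : Fin (m + 1)) : ∑ j, birth m q i j = 1 := by
  by_cases hi : i = Fin.last m
  · simp only [birth, Matrix.of_apply, if_pos hi]
    rw [Finset.sum_ite_eq' Finset.univ i, if_pos (Finset.mem_univ i)]
  · have hlt : i.val < m := by
      have := i.isLt
      have h2 : i.val ≠ m := fun h => hi (Fin.ext h)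
      omega
    have := birth_sum (q := q) i (fun _ => 1) hlt
    simp only [mul_one] at this
    rw [this]
    ring

lemma birth_hit {m : ℕ} {q : ℝ} (k : ℕ) (i : Fin (m + 1)) :
    hitProb (birth m q) i (Fin.last m) k = h q (m - i.val) k := by
  induction k generalizing i with
  | zero =>
    rw [hitProb_zero]
    by_cases hi : i = Fin.last m
    · rw [if_pos hi, hi]
      simp [h_zero_zero]
    · have hlt : i.val < m := by
        have := i.isLt
        have h2 : i.val ≠ m := fun h => hi (Fin.ext h)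
        omega
      rw [if_neg hi]
      obtain ⟨l, hl⟩ : ∃ l, m - i.val = l + 1 := ⟨m - i.val - 1, by omega⟩
      rw [hl, h_succ_zero]
  | succ k ih =>
    rw [hitProb_succ]
    by_cases hi : i = Fin.last m
    · rw [if_pos hi, hi]
      simp [h_zero_succ]
    · have hlt : i.val < m := by
        have := i.isLt
        have h2 : i.val ≠ m := fun h => hi (Fin.ext h)
        omega
      rw [if_neg hi, birth_sum i _ hlt, ih, ih]
      obtain ⟨l, hl⟩ : ∃ l, m - i.val = l + 1 := ⟨m - i.val - 1, by omega⟩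
      have hl2 : m - (i.val + 1) = l := by omega
      simp only [hl2]
      rw [hl, h_succ_succ]
      ring

/-! ### the window -/

lemma window {L : ℕ} (hL : 4 ≤ L) :
    ∃ t : ℕ, L ^ 3 - 2 * L ^ 2 ≤ t ∧
      3 / 16 ≤ ∑ k ∈ Finset.Icc t (t + (L ^ 2 + 1)), h (1 / (L : ℝ)) (L ^ 2) k := by
  obtain ⟨i, hi⟩ : ∃ i, L ^ 2 = i + 1 := ⟨L ^ 2 - 1, by have : 1 ≤ L ^ 2 := Nat.one_le_pow _ _ (by omega); omega⟩
  have hLr : (4 : ℝ) ≤ L := by exact_mod_cast hL
  have hLpos : (0 : ℝ) < L := by linarith
  have hi' : (i : ℝ) + 1 = (L : ℝ) ^ 2 := by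
    have : ((L ^ 2 : ℕ) : ℝ) = ((i + 1 : ℕ) : ℝ) := by rw [hi]
    push_cast at this
    linarith
  have h0 : (0 : ℝ) < 1 / L := by positivity
  have h1 : 1 / (L : ℝ) ≤ 1 := by
    rw [div_le_one hLpos]; linarith
  set A : ℕ := L ^ 3 - 2 * L ^ 2 with hA
  have hA2 : A + 2 * L ^ 2 = L ^ 3 := by
    rw [hA]
    apply Nat.sub_add_cancel
    nlinarith [Nat.pow_le_pow_left (show 2 ≤ L by omega) 1, Nat.one_le_pow 2 L (by omega)]
  have hAge : L ^ 2 ≤ A := by nlinarith [Nat.one_le_pow 2 L (by omega)]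
  have hA3 : (A : ℝ) + 2 * (L : ℝ) ^ 2 = (L : ℝ) ^ 3 := by exact_mod_cast hA2
  -- total mass of the long window
  set B : ℕ := A + 4 * (L ^ 2 + 2) with hB
  have hlong : 3 / 4 ≤ ∑ k ∈ Finset.Ico A B, h (1 / (L : ℝ)) (L ^ 2) k := by
    have hc := chebyshev h0 h1 i (Finset.Ico (A - L ^ 2) (B - L ^ 2)) (2 * (L : ℝ) ^ 2)
      (by positivity) (fun N hN => by
        have hmu : ((i : ℝ) + 1) * (1 - 1 / (L : ℝ)) / (1 / (L : ℝ)) =
            (L : ℝ) ^ 3 - (L : ℝ) ^ 2 := by
          rw [hi']
          field_simp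
        rw [hmu]
        rw [Finset.mem_Ico, not_and_or, not_le, not_lt] at hN
        rcases hN with hN | hN
        · have h5 : N + L ^ 2 < A := by omega
          have h6 : (N : ℝ) + (L : ℝ) ^ 2 < A := by exact_mod_cast h5
          have h7 : 2 * (L : ℝ) ^ 2 ≤ (L : ℝ) ^ 3 - (L : ℝ) ^ 2 - N := by linarith
          have h8 : 0 ≤ 2 * (L : ℝ) ^ 2 := by positivity
          nlinarith
        · have h5 : B ≤ N + L ^ 2 := by omega
          have h6 : (B : ℝ) ≤ (N : ℝ) + (L : ℝ) ^ 2 := by exact_mod_cast h5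
          have h9 : (B : ℝ) = A + 4 * ((L : ℝ) ^ 2 + 2) := by rw [hB]; push_cast; ring
          have h7 : 2 * (L : ℝ) ^ 2 ≤ N - ((L : ℝ) ^ 3 - (L : ℝ) ^ 2) := by linarith
          have h8 : 0 ≤ 2 * (L : ℝ) ^ 2 := by positivity
          nlinarith)
    have hv : ((i : ℝ) + 1) * (1 - 1 / (L : ℝ)) / (1 / (L : ℝ)) ^ 2 / (2 * (L : ℝ) ^ 2) ^ 2 ≤
        1 / 4 := by
      rw [hi']
      have : (L : ℝ) ^ 2 * (1 - 1 / (L : ℝ)) / (1 / (L : ℝ)) ^ 2 / (2 * (L : ℝ) ^ 2) ^ 2 =
          (1 - 1 / (L : ℝ)) / 4 := by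
        field_simp
        ring
      rw [this]
      linarith
    have he : ∑ N ∈ Finset.Ico (A - L ^ 2) (B - L ^ 2), h (1 / (L : ℝ)) (i + 1) (N + (i + 1)) =
        ∑ k ∈ Finset.Ico A B, h (1 / (L : ℝ)) (L ^ 2) k := by
      rw [hi, Finset.sum_Ico_add' (fun k => h (1 / (L : ℝ)) (i + 1) k)]
      congr 2 <;> omega
    rw [← he]
    linarith
  -- pigeonhole
  set w : ℕ := L ^ 2 + 2 with hw
  have hsplit : ∑ k ∈ Finset.Ico A B, h (1 / (L : ℝ)) (L ^ 2) k =
      (∑ k ∈ Finset.Ico A (A + w), h (1 / (L : ℝ)) (L ^ 2) k) +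
      (∑ k ∈ Finset.Ico (A + w) (A + 2 * w), h (1 / (L : ℝ)) (L ^ 2) k) +
      (∑ k ∈ Finset.Ico (A + 2 * w) (A + 3 * w), h (1 / (L : ℝ)) (L ^ 2) k) +
      (∑ k ∈ Finset.Ico (A + 3 * w) B, h (1 / (L : ℝ)) (L ^ 2) k) := by
    rw [Finset.sum_Ico_consecutive _ (by omega) (by omega),
      Finset.sum_Ico_consecutive _ (by omega) (by omega),
      Finset.sum_Ico_consecutive _ (by omega) (by omega)]
  have hIcc : ∀ t u : ℕ, u = t + w → Finset.Ico t u = Finset.Icc t (t + (L ^ 2 + 1)) := by
    intro t u hu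
    ext k
    rw [Finset.mem_Ico, Finset.mem_Icc]
    omega
  rw [hIcc A (A + w) rfl, hIcc (A + w) (A + 2 * w) (by ring),
    hIcc (A + 2 * w) (A + 3 * w) (by ring), hIcc (A + 3 * w) B (by omega)] at hsplit
  by_contra hcon
  push Not at hcon
  have c1 := hcon A (by omega)
  have c2 := hcon (A + w) (by omega)
  have c3 := hcon (A + 2 * w) (by omega)
  have c4 := hcon (A + 3 * w) (by omega)
  linarith

end Pool.Agent.R964.HitWindow
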