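import Mathlib

/-!
# The negative binomial law as a hitting time distribution
-/

set_option autoImplicit false

namespace Pool.Agent.R964.NegBin

open Finset

/-- `h q i k`: probability that the sum of `i` independent geometric times with parameter `q`
(on `{1, 2, ...}`) equals `k`, by first-step analysis. -/
noncomputable def h (q : ℝ) : ℕ → ℕ → ℝ
  | 0, 0 => 1
  | 0, _ + 1 => 0
  | _ + 1, 0 => 0
  | i + 1, k + 1 => q * h q i k + (1 - q) * h q (i + 1) k

variable {q : ℝ}

lemma h_zero_zero : h q 0 0 = 1 := by rw [h]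

lemma h_zero_succ (k : ℕ) : h q 0 (k + 1) = 0 := by rw [h]

lemma h_succ_zero (i : ℕ) : h q (i + 1) 0 = 0 := by rw [h]

lemma h_succ_succ (i k : ℕ) : h q (i + 1) (k + 1) = q * h q i k + (1 - q) * h q (i + 1) k := by
  rw [h]

lemma h_eq_zero_of_lt (i k : ℕ) (hk : k < i) : h q i k = 0 := by
  induction k generalizing i with
  | zero =>
    obtain ⟨j, rfl⟩ : ∃ j, i = j + 1 := ⟨i - 1, by omega⟩
    exact h_succ_zero j
  | succ k ih =>
    obtain ⟨j, rfl⟩ : ∃ j, i = j + 1 := ⟨i - 1, by omega⟩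
    rw [h_succ_succ, ih j (by omega), ih (j + 1) (by omega)]
    ring

lemma h_formula (i N : ℕ) :
    h q (i + 1) (N + (i + 1)) = ((N + i).choose i : ℝ) * q ^ (i + 1) * (1 - q) ^ N := by
  induction i generalizing N with
  | zero =>
    induction N with
    | zero => rw [zero_add, zero_add, h_succ_succ, h_zero_zero, h_succ_zero]; simp
    | succ N ih =>
      rw [show N + 1 + (0 + 1) = (N + (0 + 1)) + 1 by ring, h_succ_succ, ih]
      rw [show N + (0 + 1) = N + 1 by ring, h_zero_succ]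
      simp [pow_succ]
      ring
  | succ i ih =>
    induction N with
    | zero =>
      rw [zero_add, h_succ_succ]
      have h1 := ih 0
      rw [zero_add] at h1
      rw [h1, h_eq_zero_of_lt (i + 1 + 1) (i + 1) (by omega)]
      simp [pow_succ]
      ring
    | succ N ihN =>
      rw [show N + 1 + (i + 1 + 1) = (N + (i + 1 + 1)) + 1 by ring, h_succ_succ, ihN]
      have h1 := ih (N + 1)
      rw [show N + 1 + (i + 1) = N + (i + 1 + 1) by ring] at h1
      rw [h1]
      have h2 : ((N + 1 + (i + 1)).choose (i + 1) : ℝ) =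
          ((N + 1 + i).choose i : ℝ) + ((N + (i + 1)).choose (i + 1) : ℝ) := by
        rw [show N + 1 + (i + 1) = (N + (i + 1)) + 1 by ring, Nat.choose_succ_succ,
          show N + 1 + i = N + (i + 1) by ring]
        push_cast
        ring
      rw [h2]
      ring

lemma h_nonneg (h0 : 0 ≤ q) (h1 : q ≤ 1) (i k : ℕ) : 0 ≤ h q i k := by
  induction k generalizing i with
  | zero =>
    cases i with
    | zero => rw [h_zero_zero]; norm_num
    | succ i => rw [h_succ_zero]
  | succ k ih =>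
    cases i with
    | zero => rw [h_zero_succ]
    | succ i =>
      rw [h_succ_succ]
      have := ih i
      have := ih (i + 1)
      have : 0 ≤ 1 - q := by linarith
      positivity

lemma hasSum_congr' {f g : ℕ → ℝ} {a : ℝ} (h : HasSum f a) (e : ∀ n, g n = f n) :
    HasSum g a := by
  have : g = f := funext e
  rwa [this]

section moments

variable (h0 : 0 < q) (h1 : q ≤ 1) (i : ℕ)

include h0 h1

lemma hasSum_base (k : ℕ) :
    HasSum (fun N : ℕ => ((N + k).choose k : ℝ) * (1 - q) ^ N) (1 / q ^ (k + 1)) := by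
  have := hasSum_choose_mul_geometric_of_norm_lt_one (r := (1 - q : ℝ)) k (by
    rw [Real.norm_eq_abs, abs_lt]
    constructor <;> linarith)
  rw [sub_sub_cancel] at this
  exact this

lemma sum0 : HasSum (fun N : ℕ => h q (i + 1) (N + (i + 1))) 1 := by
  have h2 := (hasSum_base h0 h1 i).mul_left (q ^ (i + 1))
  rw [mul_one_div_cancel (pow_pos h0 _).ne'] at h2
  refine hasSum_congr' h2 fun N => ?_
  rw [h_formula]
  ring

/-- first factorial moment -/
lemma sum1 : HasSum (fun N : ℕ => (N : ℝ) * h q (i + 1) (N + (i + 1)))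
    ((i + 1) * (1 - q) / q) := by
  have h2 := (hasSum_base h0 h1 (i + 1)).mul_left ((i + 1) * (1 - q) * q ^ (i + 1))
  have h3 : (((i : ℝ) + 1) * (1 - q) * q ^ (i + 1)) * (1 / q ^ (i + 1 + 1)) =
      (i + 1) * (1 - q) / q := by
    have := h0.ne'
    field_simp
    ring
  rw [h3] at h2
  have h4 := (hasSum_nat_add_iff (f := fun N : ℕ => (N : ℝ) * h q (i + 1) (N + (i + 1))) 1).1
    (hasSum_congr' h2 fun N => by
      rw [h_formula]
      have h5 := Nat.choose_succ_right_eq (N + 1 + i) i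
      have h6 : N + 1 + i - i = N + 1 := by omega
      rw [h6] at h5
      have h7 : ((N + 1 + i).choose (i + 1) : ℝ) * (i + 1) = (N + 1 + i).choose i * (N + 1) := by
        exact_mod_cast h5
      rw [show N + (i + 1) = N + 1 + i by ring]
      push_cast
      rw [pow_succ (1 - q) N]
      linear_combination (-(q ^ (i + 1) * ((1 - q) ^ N * (1 - q)))) * h7)
  simpa using h4

/-- second factorial moment -/
lemma sum2 : HasSum (fun N : ℕ => (N : ℝ) * ((N : ℝ) - 1) * h q (i + 1) (N + (i + 1)))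
    ((i + 1) * (i + 2) * (1 - q) ^ 2 / q ^ 2) := by
  have h2 := (hasSum_base h0 h1 (i + 2)).mul_left
    ((i + 1) * (i + 2) * (1 - q) ^ 2 * q ^ (i + 1))
  have h3 : (((i : ℝ) + 1) * (i + 2) * (1 - q) ^ 2 * q ^ (i + 1)) * (1 / q ^ (i + 2 + 1)) =
      (i + 1) * (i + 2) * (1 - q) ^ 2 / q ^ 2 := by
    have := h0.ne'
    field_simp
    ring
  rw [h3] at h2
  have h4 := (hasSum_nat_add_iff
    (f := fun N : ℕ => (N : ℝ) * ((N : ℝ) - 1) * h q (i + 1) (N + (i + 1))) 2).1
    (hasSum_congr' h2 fun N => by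
      rw [h_formula]
      have h5 := Nat.choose_succ_right_eq (N + 2 + i) i
      have h6 : N + 2 + i - i = N + 2 := by omega
      rw [h6] at h5
      have h7 : ((N + 2 + i).choose (i + 1) : ℝ) * (i + 1) = (N + 2 + i).choose i * (N + 2) := by
        exact_mod_cast h5
      have h8 := Nat.choose_succ_right_eq (N + 2 + i) (i + 1)
      have h9 : N + 2 + i - (i + 1) = N + 1 := by omega
      rw [h9] at h8
      have h10 : ((N + 2 + i).choose (i + 2) : ℝ) * (i + 2) =
          (N + 2 + i).choose (i + 1) * (N + 1) := by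
        have := h8
        rw [show i + 1 + 1 = i + 2 by ring] at this
        exact_mod_cast this
      rw [show N + (i + 2) = N + 2 + i by ring]
      push_cast
      rw [pow_add (1 - q) N 2]
      linear_combination (-(q ^ (i + 1) * ((1 - q) ^ N * (1 - q) ^ 2)) * (N + 1)) * h7 -
        (q ^ (i + 1) * ((1 - q) ^ N * (1 - q) ^ 2) * (i + 1)) * h10)
  have h11 : ∑ N ∈ Finset.range 2,
      (N : ℝ) * ((N : ℝ) - 1) * h q (i + 1) (N + (i + 1)) = 0 := by
    rw [Finset.sum_range_succ, Finset.sum_range_one]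
    simp
  rw [h11, add_zero] at h4
  exact h4

/-- the variance -/
lemma sum_var : HasSum (fun N : ℕ => h q (i + 1) (N + (i + 1)) *
    ((N : ℝ) - (i + 1) * (1 - q) / q) ^ 2) ((i + 1) * (1 - q) / q ^ 2) := by
  set μ : ℝ := (i + 1) * (1 - q) / q with hμ
  have h2 := (sum2 h0 h1 i).add (((sum1 h0 h1 i).mul_left (1 - 2 * μ)).add
    ((sum0 h0 h1 i).mul_left (μ ^ 2)))
  have h3 : ((i : ℝ) + 1) * (i + 2) * (1 - q) ^ 2 / q ^ 2 +
      ((1 - 2 * μ) * ((i + 1) * (1 - q) / q) + μ ^ 2 * 1) = (i + 1) * (1 - q) / q ^ 2 := by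
    rw [hμ]
    have := h0.ne'
    field_simp
    ring
  rw [h3] at h2
  refine hasSum_congr' h2 fun N => ?_
  ring

/-- Chebyshev's inequality for a finite set -/
lemma chebyshev (F : Finset ℕ) (A : ℝ) (hA : 0 < A)
    (hF : ∀ N : ℕ, N ∉ F → A ^ 2 ≤ ((N : ℝ) - (i + 1) * (1 - q) / q) ^ 2) :
    1 - ((i + 1) * (1 - q) / q ^ 2) / A ^ 2 ≤ ∑ N ∈ F, h q (i + 1) (N + (i + 1)) := by
  have h2 := (sum0 h0 h1 i).sub ((sum_var h0 h1 i).div_const (A ^ 2))
  have h3 : HasSum (fun N : ℕ => if N ∈ F then h q (i + 1) (N + (i + 1)) else 0)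
      (∑ N ∈ F, if N ∈ F then h q (i + 1) (N + (i + 1)) else 0) :=
    hasSum_sum_of_ne_finset_zero fun N hN => if_neg hN
  have h4 : (∑ N ∈ F, if N ∈ F then h q (i + 1) (N + (i + 1)) else 0) =
      ∑ N ∈ F, h q (i + 1) (N + (i + 1)) :=
    Finset.sum_congr rfl fun N hN => if_pos hN
  rw [h4] at h3
  refine hasSum_le (fun N => ?_) h2 h3
  have h5 := h_nonneg h0.le h1 (i + 1) (N + (i + 1))
  have h6 : 0 < A ^ 2 := by positivity
  split_ifs with hN
  · have : 0 ≤ h q (i + 1) (N + (i + 1)) * ((N : ℝ) - (i + 1) * (1 - q) / q) ^ 2 / A ^ 2 := by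
      positivity
    linarith
  · have h7 := hF N hN
    have h8 : h q (i + 1) (N + (i + 1)) ≤
        h q (i + 1) (N + (i + 1)) * ((N : ℝ) - (i + 1) * (1 - q) / q) ^ 2 / A ^ 2 := by
      rw [le_div_iff₀ h6]
      exact mul_le_mul_of_nonneg_left h7 h5
    linarith

end moments

end Pool.Agent.R964.NegBin
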