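import Pool.Agent.R964.Spec2

/-!
# Pseudo spectral gap of a finite Markov chain
-/

set_option autoImplicit false

namespace Pool.Agent.R964.Pseudo

open Matrix Spec2

variable {d : ℕ}

/-- `M` is row-stochastic, irreducible and aperiodic. -/
structure IsErgodic (M : Matrix (Fin d) (Fin d) ℝ) : Prop where
  nonneg : ∀ i j, 0 ≤ M i j
  row_sum : ∀ i, ∑ j, M i j = 1
  irreducible : ∀ i j, ∃ k : ℕ, 0 < (M ^ k) i j
  aperiodic : ∀ i, ∀ m : ℕ, (∀ k : ℕ, 1 ≤ k → 0 < (M ^ k) i i → m ∣ k) → m = 1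

/-- `π` is a stationary probability distribution of `M`. -/
structure IsStationary (M : Matrix (Fin d) (Fin d) ℝ) (π : Fin d → ℝ) : Prop where
  nonneg : ∀ i, 0 ≤ π i
  sum_one : ∑ i, π i = 1
  stationary : ∀ j, ∑ i, π i * M i j = π j

/-- The time reversal `M*(i,j) = π(j) M(j,i) / π(i)`. -/
noncomputable def reversal (π : Fin d → ℝ) (M : Matrix (Fin d) (Fin d) ℝ) :
    Matrix (Fin d) (Fin d) ℝ :=
  Matrix.of fun i j => π j * M j i / π i

/-- The multiplicative reversiblization `M† = M* M`. -/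
noncomputable def dagger (π : Fin d → ℝ) (M : Matrix (Fin d) (Fin d) ℝ) :
    Matrix (Fin d) (Fin d) ℝ :=
  reversal π M * M

/-- The second largest eigenvalue: the second entry of the list of all real roots of the
characteristic polynomial (with multiplicity), sorted in decreasing order. -/
noncomputable def lambda2 (A : Matrix (Fin d) (Fin d) ℝ) : ℝ :=
  (A.charpoly.roots.sort (· ≥ ·)).getD 1 0

/-- The spectral gap `γ(A) = 1 - λ₂(A)`. -/
noncomputable def gap (A : Matrix (Fin d) (Fin d) ℝ) : ℝ := 1 - lambda2 A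

/-- The pseudo spectral gap `γ_ps(M) = sup_{k ≥ 1} γ((M^k)†) / k`. -/
noncomputable def pseudoGap (π : Fin d → ℝ) (M : Matrix (Fin d) (Fin d) ℝ) : ℝ :=
  ⨆ k : ℕ, gap (dagger π (M ^ (k + 1))) / (k + 1 : ℕ)

/-- The `α`-lazy version `α I + (1 - α) M`. -/
noncomputable def lazy (α : ℝ) (M : Matrix (Fin d) (Fin d) ℝ) : Matrix (Fin d) (Fin d) ℝ :=
  α • (1 : Matrix (Fin d) (Fin d) ℝ) + (1 - α) • M

/-! ### weighted norms -/

/-- the square of the norm of `L²(π)` -/
noncomputable def nsq (π f : Fin d → ℝ) : ℝ := ∑ i, π i * f i ^ 2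

lemma nsq_nonneg {π : Fin d → ℝ} (hπ : ∀ i, 0 ≤ π i) (f : Fin d → ℝ) : 0 ≤ nsq π f :=
  Finset.sum_nonneg fun i _ => mul_nonneg (hπ i) (sq_nonneg _)

/-- a nonnegative matrix with row sums `r` and `π A = r π` has norm at most `r` -/
lemma nsq_mulVec_le {π : Fin d → ℝ} (hπ : ∀ i, 0 ≤ π i) {A : Matrix (Fin d) (Fin d) ℝ} {r : ℝ}
    (h0 : ∀ i j, 0 ≤ A i j) (h1 : ∀ i, ∑ j, A i j = r)
    (h2 : ∀ j, ∑ i, π i * A i j = r * π j) (f : Fin d → ℝ) :
    nsq π (A *ᵥ f) ≤ r ^ 2 * nsq π f := by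
  have hcs : ∀ i, (A *ᵥ f) i ^ 2 ≤ r * ∑ j, A i j * f j ^ 2 := by
    intro i
    have := Finset.sum_sq_le_sum_mul_sum_of_sq_le_mul Finset.univ (r := fun j => A i j * f j)
      (f := fun j => A i j) (g := fun j => A i j * f j ^ 2) (fun j _ => h0 i j)
      (fun j _ => mul_nonneg (h0 i j) (sq_nonneg _)) (fun j _ => le_of_eq (by ring))
    rw [h1 i] at this
    exact this
  calc nsq π (A *ᵥ f) ≤ ∑ i, π i * (r * ∑ j, A i j * f j ^ 2) :=
        Finset.sum_le_sum fun i _ => mul_le_mul_of_nonneg_left (hcs i) (hπ i)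
    _ = r * ∑ j, (∑ i, π i * A i j) * f j ^ 2 := by
        simp only [Finset.mul_sum, Finset.sum_mul]
        rw [Finset.sum_comm]
        refine Finset.sum_congr rfl fun j _ => Finset.sum_congr rfl fun i _ => ?_
        ring
    _ = r ^ 2 * nsq π f := by
        simp only [h2, nsq, Finset.mul_sum]
        refine Finset.sum_congr rfl fun j _ => ?_
        ring

/-- stochastic matrices for which `π` is stationary -/
structure Good (π : Fin d → ℝ) (A : Matrix (Fin d) (Fin d) ℝ) : Prop where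
  nonneg : ∀ i j, 0 ≤ A i j
  row_sum : ∀ i, ∑ j, A i j = 1
  stat : ∀ j, ∑ i, π i * A i j = π j

lemma Good.contr {π : Fin d → ℝ} (hπ : ∀ i, 0 ≤ π i) {A : Matrix (Fin d) (Fin d) ℝ}
    (h : Good π A) (f : Fin d → ℝ) : nsq π (A *ᵥ f) ≤ nsq π f := by
  have := nsq_mulVec_le hπ h.nonneg h.row_sum (fun j => by rw [h.stat, one_mul]) f
  simpa using this

lemma Good.one (π : Fin d → ℝ) : Good π (1 : Matrix (Fin d) (Fin d) ℝ) where
  nonneg i j := by rw [Matrix.one_apply]; split_ifs <;> norm_num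
  row_sum i := by simp [Matrix.one_apply]
  stat j := by simp [Matrix.one_apply]

lemma Good.mul {π : Fin d → ℝ} {A B : Matrix (Fin d) (Fin d) ℝ} (hA : Good π A)
    (hB : Good π B) : Good π (A * B) where
  nonneg i j := by
    rw [Matrix.mul_apply]
    exact Finset.sum_nonneg fun k _ => mul_nonneg (hA.nonneg i k) (hB.nonneg k j)
  row_sum i := by
    simp only [Matrix.mul_apply]
    rw [Finset.sum_comm]
    simp only [← Finset.mul_sum, hB.row_sum, mul_one, hA.row_sum]
  stat j := by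
    simp only [Matrix.mul_apply, Finset.mul_sum]
    rw [Finset.sum_comm]
    simp only [← mul_assoc, ← Finset.sum_mul, hA.stat, hB.stat]

lemma Good.pow {π : Fin d → ℝ} {A : Matrix (Fin d) (Fin d) ℝ} (hA : Good π A) (k : ℕ) :
    Good π (A ^ k) := by
  induction k with
  | zero => rw [pow_zero]; exact Good.one π
  | succ k ih => rw [pow_succ]; exact ih.mul hA

lemma Good.lazy {π : Fin d → ℝ} {A : Matrix (Fin d) (Fin d) ℝ} (hA : Good π A) {α : ℝ}
    (h0 : 0 ≤ α) (h1 : α ≤ 1) : Good π (lazy α A) where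
  nonneg i j := by
    unfold Pseudo.lazy
    simp only [Matrix.add_apply, Matrix.smul_apply, smul_eq_mul]
    have := (Good.one π).nonneg i j
    have := hA.nonneg i j
    have : 0 ≤ 1 - α := by linarith
    positivity
  row_sum i := by
    unfold Pseudo.lazy
    simp only [Matrix.add_apply, Matrix.smul_apply, smul_eq_mul, Finset.sum_add_distrib,
      ← Finset.mul_sum, hA.row_sum, (Good.one π).row_sum]
    ring
  stat j := by
    unfold Pseudo.lazy
    simp only [Matrix.add_apply, Matrix.smul_apply, smul_eq_mul, mul_add, Finset.sum_add_distrib]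
    have e1 : ∀ i, π i * (α * (1 : Matrix (Fin d) (Fin d) ℝ) i j) =
        α * (π i * (1 : Matrix (Fin d) (Fin d) ℝ) i j) := fun i => by ring
    have e2 : ∀ i, π i * ((1 - α) * A i j) = (1 - α) * (π i * A i j) := fun i => by ring
    simp only [e1, e2, ← Finset.mul_sum, hA.stat, (Good.one π).stat]
    ring

/-- the mean is preserved -/
lemma Good.mean {π : Fin d → ℝ} {A : Matrix (Fin d) (Fin d) ℝ} (hA : Good π A)
    (f : Fin d → ℝ) : ∑ i, π i * (A *ᵥ f) i = ∑ i, π i * f i := by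
  simp only [mulVec, dotProduct, Finset.mul_sum]
  rw [Finset.sum_comm]
  refine Finset.sum_congr rfl fun j _ => ?_
  rw [← hA.stat j, Finset.sum_mul]
  refine Finset.sum_congr rfl fun i _ => ?_
  ring

/-! ### the symmetrized matrix -/

section sym

variable {π : Fin d → ℝ} {A : Matrix (Fin d) (Fin d) ℝ}

/-- the symmetrized matrix `D A† D⁻¹`, `D = diag(√π)` -/
noncomputable def sym (π : Fin d → ℝ) (A : Matrix (Fin d) (Fin d) ℝ) :
    Matrix (Fin d) (Fin d) ℝ :=
  Matrix.of fun i j => Real.sqrt (π i) * dagger π A i j / Real.sqrt (π j)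

lemma sym_apply (hπ : ∀ i, 0 < π i) (i j : Fin d) :
    sym π A i j = ∑ k, π k * (A k i / Real.sqrt (π i)) * (A k j / Real.sqrt (π j)) := by
  have h1 : Real.sqrt (π i) ≠ 0 := (Real.sqrt_pos.2 (hπ i)).ne'
  have h2 : Real.sqrt (π j) ≠ 0 := (Real.sqrt_pos.2 (hπ j)).ne'
  have h3 : π i = Real.sqrt (π i) * Real.sqrt (π i) := (Real.mul_self_sqrt (hπ i).le).symm
  simp only [sym, dagger, reversal, Matrix.of_apply, Matrix.mul_apply]
  rw [Finset.mul_sum, Finset.sum_div]
  refine Finset.sum_congr rfl fun k _ => ?_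
  rw [show π k * A k i / π i = π k * A k i / (Real.sqrt (π i) * Real.sqrt (π i)) by rw [← h3]]
  field_simp

lemma sym_hermitian (hπ : ∀ i, 0 < π i) : (sym π A).IsHermitian := by
  ext i j
  rw [conjTranspose_apply, star_trivial, sym_apply hπ, sym_apply hπ]
  refine Finset.sum_congr rfl fun k _ => ?_
  ring

lemma sym_charpoly (hπ : ∀ i, 0 < π i) : (sym π A).charpoly = (dagger π A).charpoly := by
  have hu : ∀ i, Real.sqrt (π i) ≠ 0 := fun i => (Real.sqrt_pos.2 (hπ i)).ne'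
  let U : (Matrix (Fin d) (Fin d) ℝ)ˣ :=
    { val := diagonal fun i => Real.sqrt (π i)
      inv := diagonal fun i => (Real.sqrt (π i))⁻¹
      val_inv := by
        rw [diagonal_mul_diagonal]
        simp [hu]
      inv_val := by
        rw [diagonal_mul_diagonal]
        simp [hu] }
  have h := charpoly_units_conj U (dagger π A)
  have h3 : U.val⁻¹ = diagonal fun i => (Real.sqrt (π i))⁻¹ := by
    rw [← Matrix.coe_units_inv]
    rfl
  have h2 : U.val * dagger π A * U.val⁻¹ = sym π A := by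
    rw [h3]
    ext i j
    have h4 : U.val = diagonal fun i => Real.sqrt (π i) := rfl
    rw [h4, mul_diagonal, diagonal_mul]
    simp only [sym, Matrix.of_apply]
    rw [div_eq_mul_inv]
  rw [← h2]
  exact h

lemma lambda2_eq (hπ : ∀ i, 0 < π i) : lambda2 (dagger π A) = second (sym π A) := by
  unfold lambda2 second
  rw [sym_charpoly hπ]

/-- quadratic form of the symmetrized matrix -/
lemma sym_quad (hπ : ∀ i, 0 < π i) (x : Fin d → ℝ) :
    x ⬝ᵥ (sym π A *ᵥ x) = nsq π (A *ᵥ fun i => x i / Real.sqrt (π i)) := by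
  have h1 : x ⬝ᵥ (sym π A *ᵥ x) = ∑ i, ∑ j, ∑ k,
      π k * ((A k i * (x i / Real.sqrt (π i))) * (A k j * (x j / Real.sqrt (π j)))) := by
    simp only [dotProduct, mulVec, sym_apply hπ, Finset.mul_sum, Finset.sum_mul]
    refine Finset.sum_congr rfl fun i _ => Finset.sum_congr rfl fun j _ =>
      Finset.sum_congr rfl fun k _ => ?_
    ring
  have h2 : nsq π (A *ᵥ fun i => x i / Real.sqrt (π i)) = ∑ k, ∑ i, ∑ j,
      π k * ((A k i * (x i / Real.sqrt (π i))) * (A k j * (x j / Real.sqrt (π j)))) := by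
    unfold nsq
    refine Finset.sum_congr rfl fun k _ => ?_
    simp only [dotProduct, mulVec]
    rw [sq, Finset.sum_mul_sum, Finset.mul_sum]
    refine Finset.sum_congr rfl fun i _ => ?_
    rw [Finset.mul_sum]
  rw [h1, h2]
  have h3 : ∀ i : Fin d, ∑ j, ∑ k,
      π k * ((A k i * (x i / Real.sqrt (π i))) * (A k j * (x j / Real.sqrt (π j)))) =
      ∑ k, ∑ j,
      π k * ((A k i * (x i / Real.sqrt (π i))) * (A k j * (x j / Real.sqrt (π j)))) :=
    fun i => Finset.sum_comm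
  simp only [h3]
  exact Finset.sum_comm

lemma dot_self_eq (hπ : ∀ i, 0 < π i) (x : Fin d → ℝ) :
    x ⬝ᵥ x = nsq π (fun i => x i / Real.sqrt (π i)) := by
  unfold nsq dotProduct
  refine Finset.sum_congr rfl fun i _ => ?_
  rw [div_pow, Real.sq_sqrt (hπ i).le, mul_div_cancel₀ _ (hπ i).ne', sq]

lemma sqrt_dot (hπ : ∀ i, 0 < π i) (x : Fin d → ℝ) :
    (fun i => Real.sqrt (π i)) ⬝ᵥ x = ∑ i, π i * (x i / Real.sqrt (π i)) := by
  unfold dotProduct
  refine Finset.sum_congr rfl fun i _ => ?_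
  have h1 : Real.sqrt (π i) ≠ 0 := (Real.sqrt_pos.2 (hπ i)).ne'
  rw [← mul_div_assoc, eq_div_iff h1]
  linear_combination x i * (Real.mul_self_sqrt (hπ i).le)

lemma sym_fix (hπ : ∀ i, 0 < π i) (hA : Good π A) :
    sym π A *ᵥ (fun i => Real.sqrt (π i)) = fun i => Real.sqrt (π i) := by
  funext i
  have h1 : ∀ i, Real.sqrt (π i) ≠ 0 := fun i => (Real.sqrt_pos.2 (hπ i)).ne'
  simp only [mulVec, dotProduct, sym_apply hπ, Finset.sum_mul]
  rw [Finset.sum_comm]
  have h2 : ∀ k j, π k * (A k i / Real.sqrt (π i)) * (A k j / Real.sqrt (π j)) *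
      Real.sqrt (π j) = π k * (A k i / Real.sqrt (π i)) * A k j := by
    intro k j
    have := h1 j
    field_simp
  simp only [h2, ← Finset.mul_sum, hA.row_sum, mul_one]
  have h4 : ∀ k, π k * (A k i / Real.sqrt (π i)) = π k * A k i / Real.sqrt (π i) :=
    fun k => by ring
  simp only [h4, ← Finset.sum_div, hA.stat]
  exact Real.div_sqrt

/-- variational inequality for the gap of the reversiblization -/
lemma nsq_le_gap (hd : 2 ≤ d) (hπ : ∀ i, 0 < π i) (hA : Good π A) (f : Fin d → ℝ)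
    (hf : ∑ i, π i * f i = 0) : nsq π (A *ᵥ f) ≤ (1 - gap (dagger π A)) * nsq π f := by
  have h1 : ∀ i, Real.sqrt (π i) ≠ 0 := fun i => (Real.sqrt_pos.2 (hπ i)).ne'
  have hx : (fun i => (Real.sqrt (π i) * f i) / Real.sqrt (π i)) = f := by
    funext i
    have := h1 i
    field_simp
  have key := le_second (sym_hermitian (A := A) hπ) hd (fun i => Real.sqrt (π i))
    (fun h => by
      have := congrFun h ⟨0, by omega⟩
      exact h1 _ this) (sym_fix hπ hA)
    (fun x => by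
      rw [sym_quad hπ, dot_self_eq hπ]
      exact hA.contr (fun i => (hπ i).le) _) (fun i => Real.sqrt (π i) * f i)
    (by rw [sqrt_dot hπ, ← hf]
        refine Finset.sum_congr rfl fun i _ => ?_
        have := h1 i
        field_simp)
  rw [sym_quad hπ, dot_self_eq hπ, hx] at key
  rw [gap, lambda2_eq hπ, sub_sub_cancel]
  exact key

lemma gap_ge (hd : 2 ≤ d) (hπ : ∀ i, 0 < π i) (c : ℝ)
    (h : ∀ f : Fin d → ℝ, ∑ i, π i * f i = 0 → nsq π (A *ᵥ f) ≤ c * nsq π f) :
    1 - c ≤ gap (dagger π A) := by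
  have := second_le (sym_hermitian (A := A) hπ) hd (fun i => Real.sqrt (π i)) c
    (fun x hx => by
      rw [sym_quad hπ, dot_self_eq hπ]
      rw [sqrt_dot hπ] at hx
      exact h _ hx)
  rw [gap, lambda2_eq hπ]
  linarith

lemma gap_le_one (hd : 2 ≤ d) (hπ : ∀ i, 0 < π i) : gap (dagger π A) ≤ 1 := by
  have := second_nonneg (sym_hermitian (A := A) hπ) hd
    (fun x => by
      rw [sym_quad hπ]
      exact nsq_nonneg (fun i => (hπ i).le) _)
  rw [gap, lambda2_eq hπ]
  linarith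

end sym

/-! ### laziness -/

section main

variable {π : Fin d → ℝ} {M : Matrix (Fin d) (Fin d) ℝ}

/-- convexity: one lazy step -/
lemma nsq_lazy_step (hπ : ∀ i, 0 ≤ π i) {α : ℝ} (h0 : 0 ≤ α) (h1 : α ≤ 1)
    (g h : Fin d → ℝ) :
    nsq π (α • g + (1 - α) • h) ≤ α * nsq π g + (1 - α) * nsq π h := by
  unfold nsq
  rw [Finset.mul_sum, Finset.mul_sum, ← Finset.sum_add_distrib]
  refine Finset.sum_le_sum fun i _ => ?_
  simp only [Pi.add_apply, Pi.smul_apply, smul_eq_mul]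
  have h2 : (α * g i + (1 - α) * h i) ^ 2 ≤ α * g i ^ 2 + (1 - α) * h i ^ 2 := by
    nlinarith [mul_nonneg (mul_nonneg h0 (sub_nonneg.2 h1)) (sq_nonneg (g i - h i))]
  calc π i * (α * g i + (1 - α) * h i) ^ 2 ≤ π i * (α * g i ^ 2 + (1 - α) * h i ^ 2) :=
        mul_le_mul_of_nonneg_left h2 (hπ i)
    _ = _ := by ring

lemma nsq_lazy_pow (hπ : ∀ i, 0 ≤ π i) (hM : Good π M) {α : ℝ} (h0 : 0 ≤ α) (h1 : α ≤ 1)
    (k : ℕ) (f : Fin d → ℝ) :
    nsq π ((lazy α M) ^ k *ᵥ f) ≤
      (1 - (1 - α) ^ k) * nsq π f + (1 - α) ^ k * nsq π (M ^ k *ᵥ f) := by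
  induction k generalizing f with
  | zero => simp
  | succ k ih =>
    have h2 : (lazy α M) ^ (k + 1) *ᵥ f =
        α • ((lazy α M) ^ k *ᵥ f) + (1 - α) • ((lazy α M) ^ k *ᵥ (M *ᵥ f)) := by
      rw [pow_succ, ← mulVec_mulVec]
      have : lazy α M *ᵥ f = α • f + (1 - α) • (M *ᵥ f) := by
        unfold lazy
        rw [add_mulVec, smul_mulVec, smul_mulVec, one_mulVec]
      rw [this, mulVec_add, mulVec_smul, mulVec_smul]
    rw [h2]
    have h3 := nsq_lazy_step hπ h0 h1 ((lazy α M) ^ k *ᵥ f) ((lazy α M) ^ k *ᵥ (M *ᵥ f))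
    have h4 := ((hM.lazy h0 h1).pow k).contr hπ f
    have h5 := ih (M *ᵥ f)
    have h6 := hM.contr hπ f
    have e : M ^ k *ᵥ (M *ᵥ f) = M ^ (k + 1) *ᵥ f := by rw [mulVec_mulVec, ← pow_succ]
    rw [e] at h5
    have hq : 0 ≤ 1 - α := by linarith
    have hp : 0 ≤ (1 - α) ^ k := pow_nonneg hq k
    have hp1 : (1 - α) ^ k ≤ 1 := pow_le_one₀ hq (by linarith)
    have h7 : (1 - (1 - α) ^ k) * nsq π (M *ᵥ f) ≤ (1 - (1 - α) ^ k) * nsq π f :=
      mul_le_mul_of_nonneg_left h6 (by linarith)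
    have h8 : (1 - α) * nsq π ((lazy α M) ^ k *ᵥ (M *ᵥ f)) ≤ (1 - α) *
        ((1 - (1 - α) ^ k) * nsq π f + (1 - α) ^ k * nsq π (M ^ (k + 1) *ᵥ f)) :=
      mul_le_mul_of_nonneg_left (by linarith) hq
    have h9 : α * nsq π ((lazy α M) ^ k *ᵥ f) ≤ α * nsq π f := mul_le_mul_of_nonneg_left h4 h0
    calc _ ≤ _ := h3
      _ ≤ α * nsq π f + (1 - α) *
        ((1 - (1 - α) ^ k) * nsq π f + (1 - α) ^ k * nsq π (M ^ (k + 1) *ᵥ f)) :=
          add_le_add h9 h8
      _ = _ := by ring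

/-- the key inequality, for each fixed power -/
lemma gap_lazy_ge (hd : 2 ≤ d) (hπ : ∀ i, 0 < π i) (hM : Good π M) {α : ℝ} (h0 : 0 ≤ α)
    (h1 : α ≤ 1) (k : ℕ) :
    (1 - α) ^ k * gap (dagger π (M ^ k)) ≤ gap (dagger π ((lazy α M) ^ k)) := by
  have := gap_ge (A := (lazy α M) ^ k) hd hπ (1 - (1 - α) ^ k * gap (dagger π (M ^ k)))
    (fun f hf => by
      have h2 := nsq_lazy_pow (fun i => (hπ i).le) hM h0 h1 k f
      have h3 := nsq_le_gap hd hπ (hM.pow k) f hf
      have hp : 0 ≤ (1 - α) ^ k := pow_nonneg (by linarith) k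
      have h4 := mul_le_mul_of_nonneg_left h3 hp
      calc _ ≤ _ := h2
        _ ≤ (1 - (1 - α) ^ k) * nsq π f +
          (1 - α) ^ k * ((1 - gap (dagger π (M ^ k))) * nsq π f) := by linarith
        _ = _ := by ring)
  linarith

lemma bdd (hd : 2 ≤ d) (hπ : ∀ i, 0 < π i) :
    BddAbove (Set.range fun k : ℕ => gap (dagger π (M ^ (k + 1))) / (k + 1 : ℕ)) := by
  refine ⟨1, ?_⟩
  rintro _ ⟨k, rfl⟩
  have h1 : (1 : ℝ) ≤ ((k + 1 : ℕ) : ℝ) := by exact_mod_cast Nat.succ_pos k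
  rw [div_le_one (by linarith)]
  exact (gap_le_one hd hπ).trans h1

lemma pseudoGap_le_one (hd : 2 ≤ d) (hπ : ∀ i, 0 < π i) : pseudoGap π M ≤ 1 := by
  apply ciSup_le
  intro k
  have h1 : (1 : ℝ) ≤ ((k + 1 : ℕ) : ℝ) := by exact_mod_cast Nat.succ_pos k
  rw [div_le_one (by linarith)]
  exact (gap_le_one hd hπ).trans h1

/-- the supremum is attained -/
lemma attained (hd : 2 ≤ d) (hπ : ∀ i, 0 < π i) (hpos : 0 < pseudoGap π M) :
    ∃ k : ℕ, gap (dagger π (M ^ (k + 1))) / (k + 1 : ℕ) = pseudoGap π M := by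
  set a : ℕ → ℝ := fun k => gap (dagger π (M ^ (k + 1))) / (k + 1 : ℕ) with ha
  have hg : pseudoGap π M = ⨆ k, a k := rfl
  have hle : ∀ k, a k ≤ 1 / ((k + 1 : ℕ) : ℝ) := by
    intro k
    have h1 : (0 : ℝ) < ((k + 1 : ℕ) : ℝ) := by exact_mod_cast Nat.succ_pos k
    exact div_le_div_of_nonneg_right (gap_le_one hd hπ) h1.le
  obtain ⟨N, hN⟩ := exists_nat_gt (2 / pseudoGap π M)
  obtain ⟨k0, hk0⟩ := exists_lt_of_lt_ciSup (show pseudoGap π M / 2 < ⨆ k, a k by
    rw [← hg]; linarith)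
  obtain ⟨m, -, hm⟩ := Finset.exists_max_image (Finset.range (N + k0 + 1)) a ⟨0, by simp⟩
  refine ⟨m, le_antisymm ?_ ?_⟩
  · exact le_ciSup (bdd hd hπ) m
  · rw [hg]
    apply ciSup_le
    intro k
    by_cases hk : k < N + k0 + 1
    · exact hm k (Finset.mem_range.2 hk)
    · have h2 : a k ≤ pseudoGap π M / 2 := by
        refine (hle k).trans ?_
        have h3 : 2 / pseudoGap π M < ((k + 1 : ℕ) : ℝ) := by
          refine hN.trans ?_
          exact_mod_cast (by omega : N < k + 1)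
        rw [div_le_iff₀ (by linarith [div_pos two_pos hpos])]
        rw [div_lt_iff₀ hpos] at h3
        linarith
      exact h2.trans (hk0.le.trans (hm k0 (Finset.mem_range.2 (by omega))))

/-- **Main inequality.** -/
lemma pseudoGap_lazy_ge (hd : 2 ≤ d) (hπ : ∀ i, 0 < π i) (hM : Good π M) {α : ℝ} (h0 : 0 < α)
    (h1 : α < 1) (hpos : 0 < pseudoGap π M) :
    pseudoGap π M * (1 - α) ^ (1 / pseudoGap π M) ≤ pseudoGap π (lazy α M) := by
  obtain ⟨k, hk⟩ := attained hd hπ hpos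
  have hk1 : (0 : ℝ) < ((k + 1 : ℕ) : ℝ) := by exact_mod_cast Nat.succ_pos k
  have h2 := gap_lazy_ge hd hπ hM h0.le h1.le (k + 1)
  have h3 : gap (dagger π ((lazy α M) ^ (k + 1))) / (k + 1 : ℕ) ≤ pseudoGap π (lazy α M) :=
    le_ciSup (bdd hd hπ) k
  refine le_trans ?_ h3
  have hkg : ((k + 1 : ℕ) : ℝ) ≤ 1 / pseudoGap π M := by
    rw [le_div_iff₀ hpos, ← hk, mul_div_cancel₀ _ hk1.ne']
    exact gap_le_one hd hπ
  have h4 : (1 - α) ^ (1 / pseudoGap π M) ≤ (1 - α) ^ (k + 1) := by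
    rw [← Real.rpow_natCast]
    exact Real.rpow_le_rpow_of_exponent_ge (by linarith) (by linarith) hkg
  calc pseudoGap π M * (1 - α) ^ (1 / pseudoGap π M)
      ≤ pseudoGap π M * (1 - α) ^ (k + 1) := mul_le_mul_of_nonneg_left h4 hpos.le
    _ = ((1 - α) ^ (k + 1) * gap (dagger π (M ^ (k + 1)))) / (k + 1 : ℕ) := by
        rw [← hk]
        ring
    _ ≤ gap (dagger π ((lazy α M) ^ (k + 1))) / (k + 1 : ℕ) :=
        div_le_div_of_nonneg_right h2 hk1.le

end main

/-! ### ergodic matrices -/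

section erg

variable {π : Fin d → ℝ} {M : Matrix (Fin d) (Fin d) ℝ}

lemma good_of (hM : IsErgodic M) (hπ : IsStationary M π) : Good π M :=
  ⟨hM.nonneg, hM.row_sum, hπ.stationary⟩

lemma pi_pos_of (hM : IsErgodic M) (hπ : IsStationary M π) (i : Fin d) : 0 < π i := by
  have hG := good_of hM hπ
  obtain ⟨j, hj⟩ : ∃ j, 0 < π j := by
    by_contra hcon
    push Not at hcon
    have : ∑ i, π i ≤ 0 := Finset.sum_nonpos fun i _ => hcon i
    rw [hπ.sum_one] at this
    linarith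
  obtain ⟨k, hk⟩ := hM.irreducible j i
  have h1 := (hG.pow k).stat i
  rw [← h1]
  have h2 : π j * (M ^ k) j i ≤ ∑ l, π l * (M ^ k) l i :=
    Finset.single_le_sum (f := fun l => π l * (M ^ k) l i)
      (fun l _ => mul_nonneg (hπ.nonneg l) ((hG.pow k).nonneg l i)) (Finset.mem_univ j)
  exact (mul_pos hj hk).trans_le h2

/-- irreducible and aperiodic stochastic matrices are primitive -/
lemma primitive (hM : IsErgodic M) : ∃ k : ℕ, 1 ≤ k ∧ ∀ i j, 0 < (M ^ k) i j := by
  have hnn : ∀ k i j, 0 ≤ (M ^ k) i j := by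
    intro k
    induction k with
    | zero => intro i j; rw [pow_zero, Matrix.one_apply]; split_ifs <;> norm_num
    | succ k ih =>
      intro i j
      rw [pow_succ, Matrix.mul_apply]
      exact Finset.sum_nonneg fun l _ => mul_nonneg (ih i l) (hM.nonneg l j)
  have hmul : ∀ k l i j m, 0 < (M ^ k) i j → 0 < (M ^ l) j m → 0 < (M ^ (k + l)) i m := by
    intro k l i j m h1 h2
    rw [pow_add, Matrix.mul_apply]
    exact (mul_pos h1 h2).trans_le (Finset.single_le_sum
      (f := fun q => (M ^ k) i q * (M ^ l) q m)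
      (fun q _ => mul_nonneg (hnn k i q) (hnn l q m)) (Finset.mem_univ j))
  -- return times
  have hret : ∀ i, ∃ n : ℕ, ∀ m ≥ n, 0 < (M ^ m) i i := by
    intro i
    let s : Set ℕ := {k | 1 ≤ k ∧ 0 < (M ^ k) i i}
    obtain ⟨n, hn⟩ := Nat.exists_mem_closure_of_ge s
    refine ⟨n, fun m hm => ?_⟩
    have hgcd : Nat.setGcd s = 1 := by
      apply hM.aperiodic i
      intro k hk1 hk2
      exact Nat.setGcd_dvd_of_mem ⟨hk1, hk2⟩
    have hmem := hn m hm (by rw [hgcd]; exact one_dvd m)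
    have hsub : ∀ x ∈ AddSubmonoid.closure s, 0 < (M ^ x) i i := by
      intro x hx
      induction hx using AddSubmonoid.closure_induction with
      | mem x hx => exact hx.2
      | zero => simp
      | add x y _ _ hx hy => exact hmul x y i i i hx hy
    exact hsub m hmem
  choose n hn using hret
  choose c hc using hM.irreducible
  refine ⟨1 + ∑ i, n i + ∑ i, ∑ j, c i j, by omega, fun i j => ?_⟩
  have h1 : n i ≤ ∑ i, n i := Finset.single_le_sum (fun _ _ => Nat.zero_le _) (Finset.mem_univ i)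
  have h2 : c i j ≤ ∑ i, ∑ j, c i j :=
    (Finset.single_le_sum (f := fun j => c i j) (fun _ _ => Nat.zero_le _)
      (Finset.mem_univ j)).trans
      (Finset.single_le_sum (f := fun i => ∑ j, c i j) (fun _ _ => Nat.zero_le _)
        (Finset.mem_univ i))
  have h3 : 1 + ∑ i, n i + ∑ i, ∑ j, c i j =
      (1 + ∑ i, n i + ∑ i, ∑ j, c i j - c i j) + c i j := by omega
  rw [h3]
  exact hmul _ _ i i j (hn i _ (by omega)) (hc i j)

/-- positivity of the gap of a power -/
lemma exists_gap_pos (hd : 2 ≤ d) (hM : IsErgodic M) (hπ : IsStationary M π) :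
    ∃ k : ℕ, 1 ≤ k ∧ 0 < gap (dagger π (M ^ k)) := by
  obtain ⟨k, hk1, hk⟩ := primitive hM
  have hpos := pi_pos_of hM hπ
  have hG := (good_of hM hπ).pow k
  have hle1 : ∀ i, π i ≤ 1 := by
    intro i
    rw [← hπ.sum_one]
    exact Finset.single_le_sum (fun j _ => hπ.nonneg j) (Finset.mem_univ i)
  have hne : (Finset.univ : Finset (Fin d × Fin d)).Nonempty :=
    ⟨(⟨0, by omega⟩, ⟨0, by omega⟩), Finset.mem_univ _⟩
  obtain ⟨z, -, hz⟩ := Finset.exists_min_image Finset.univ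
    (fun z : Fin d × Fin d => (M ^ k) z.1 z.2) hne
  set δ := (M ^ k) z.1 z.2 with hδ
  have hδ0 : 0 < δ := hk _ _
  have hδ1 : ∀ i j, δ * π j ≤ (M ^ k) i j := by
    intro i j
    refine le_trans ?_ (hz (i, j) (Finset.mem_univ _))
    exact mul_le_of_le_one_right hδ0.le (hle1 j)
  have hδle : δ ≤ 1 := by
    have h1 : (M ^ k) z.1 z.2 ≤ ∑ j, (M ^ k) z.1 j :=
      Finset.single_le_sum (f := fun j => (M ^ k) z.1 j) (fun j _ => hG.nonneg _ j)
        (Finset.mem_univ _)
    rwa [hG.row_sum] at h1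
  refine ⟨k, hk1, ?_⟩
  have := gap_ge (A := M ^ k) hd hpos ((1 - δ) ^ 2) (fun f hf => by
    have h1 : M ^ k *ᵥ f = (Matrix.of fun i j => (M ^ k) i j - δ * π j) *ᵥ f := by
      funext i
      simp only [mulVec, dotProduct, Matrix.of_apply, sub_mul, Finset.sum_sub_distrib]
      have : ∑ j, δ * π j * f j = δ * ∑ j, π j * f j := by
        rw [Finset.mul_sum]
        exact Finset.sum_congr rfl fun j _ => mul_assoc _ _ _
      rw [this, hf]
      ring
    rw [h1]
    apply nsq_mulVec_le (fun i => (hpos i).le)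
    · intro i j
      rw [Matrix.of_apply]
      linarith [hδ1 i j]
    · intro i
      simp only [Matrix.of_apply, Finset.sum_sub_distrib, hG.row_sum, ← Finset.mul_sum,
        hπ.sum_one, mul_one]
    · intro j
      simp only [Matrix.of_apply, mul_sub, Finset.sum_sub_distrib, hG.stat, ← Finset.sum_mul,
        hπ.sum_one, one_mul]
      ring)
  have h2 : (1 - δ) ^ 2 < 1 := by nlinarith
  linarith

lemma pseudoGap_pos (hd : 2 ≤ d) (hM : IsErgodic M) (hπ : IsStationary M π) :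
    0 < pseudoGap π M := by
  obtain ⟨k, hk1, hk⟩ := exists_gap_pos hd hM hπ
  obtain ⟨m, rfl⟩ : ∃ m, k = m + 1 := ⟨k - 1, by omega⟩
  refine lt_of_lt_of_le ?_ (le_ciSup (bdd (M := M) hd (pi_pos_of hM hπ)) m)
  have h1 : (0 : ℝ) < ((m + 1 : ℕ) : ℝ) := by exact_mod_cast Nat.succ_pos m
  exact div_pos hk h1

end erg

end Pool.Agent.R964.Pseudo
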