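import Mathlib

/-!
# Maxima of correlated Gaussian families: the rotation argument

For a centred Gaussian family `X`, an independent copy `Z` with the same covariance, and the
rotated family `cos φ X + sin φ Z`, the difference of the maxima has a Gaussian tail whose scale is
`φ` times the maximal standard deviation.
-/

set_option autoImplicit false

open MeasureTheory ProbabilityTheory Filter Topology
open scoped ENNReal NNReal

namespace Pool.Agent.R964.Rot

/-- `exp` with values in `[0, ∞]`. -/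
noncomputable def e (x : ℝ) : ℝ≥0∞ := ENNReal.ofReal (Real.exp x)

lemma e_mono {x y : ℝ} (h : x ≤ y) : e x ≤ e y := ENNReal.ofReal_le_ofReal (Real.exp_le_exp.2 h)

lemma e_add (x y : ℝ) : e (x + y) = e x * e y := by
  unfold e
  rw [Real.exp_add, ENNReal.ofReal_mul (Real.exp_nonneg _)]

@[fun_prop]
lemma measurable_e : Measurable e := by unfold e; fun_prop

/-- the maximum of a finite family -/
noncomputable def mx {N : ℕ} (x : Fin (N + 1) → ℝ) : ℝ :=
  Finset.univ.sup' Finset.univ_nonempty x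

lemma le_mx {N : ℕ} (x : Fin (N + 1) → ℝ) (j : Fin (N + 1)) : x j ≤ mx x :=
  Finset.le_sup' x (Finset.mem_univ j)

lemma am_aux {N : ℕ} (x : Fin (N + 1) → ℝ) :
    (Finset.univ.filter fun j => x j = mx x).Nonempty := by
  obtain ⟨j, -, hj⟩ := Finset.exists_mem_eq_sup' (Finset.univ_nonempty (α := Fin (N + 1))) x
  exact ⟨j, by simp [mx, hj]⟩

/-- the first index at which the maximum is attained -/
noncomputable def am {N : ℕ} (x : Fin (N + 1) → ℝ) : Fin (N + 1) :=
  (Finset.univ.filter fun j => x j = mx x).min' (am_aux x)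

lemma am_spec {N : ℕ} (x : Fin (N + 1) → ℝ) : x (am x) = mx x := by
  have := Finset.min'_mem (Finset.univ.filter fun j => x j = mx x) (am_aux x)
  exact (Finset.mem_filter.1 this).2

lemma measurable_mx {N : ℕ} : Measurable (mx (N := N)) := by
  have : (mx (N := N)) =
      Finset.univ.sup' Finset.univ_nonempty (fun j (x : Fin (N + 1) → ℝ) => x j) := by
    funext x
    rw [Finset.sup'_apply]
    rfl
  rw [this]
  exact Finset.measurable_sup' _ fun j _ => measurable_pi_apply j

lemma am_eq_iff {N : ℕ} (x : Fin (N + 1) → ℝ) (j : Fin (N + 1)) :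
    am x = j ↔ x j = mx x ∧ ∀ i < j, x i ≠ mx x := by
  constructor
  · rintro rfl
    refine ⟨am_spec x, fun i hi h => ?_⟩
    have : am x ≤ i := Finset.min'_le _ _ (by simp [h])
    exact absurd hi (not_lt.2 this)
  · rintro ⟨h1, h2⟩
    apply le_antisymm
    · exact Finset.min'_le _ _ (by simp [h1])
    · by_contra h
      exact h2 _ (not_le.1 h) (am_spec x)

lemma measurable_am {N : ℕ} : Measurable (am (N := N)) := by
  refine measurable_to_countable' fun j => ?_
  have : am (N := N) ⁻¹' {j} = {x | x j = mx x} ∩ ⋂ i : {i : Fin (N + 1) // i < j},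
      {x : Fin (N + 1) → ℝ | x i = mx x}ᶜ := by
    ext x
    simp only [Set.mem_preimage, Set.mem_singleton_iff, am_eq_iff, Set.mem_inter_iff,
      Set.mem_ofPred_eq, Set.mem_iInter, Set.mem_compl_iff, Subtype.forall, ne_eq]
  rw [this]
  refine (measurableSet_eq_fun (measurable_pi_apply j) measurable_mx).inter
    (MeasurableSet.iInter fun i => ?_)
  exact (measurableSet_eq_fun (measurable_pi_apply _) measurable_mx).compl

lemma measurable_pick {N : ℕ} :
    Measurable fun p : (Fin (N + 1) → ℝ) × (Fin (N + 1) → ℝ) => p.2 (am p.1) := by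
  have : (fun p : (Fin (N + 1) → ℝ) × (Fin (N + 1) → ℝ) => p.2 (am p.1)) =
      fun p => ∑ j, if am p.1 = j then p.2 j else 0 := by
    funext p
    rw [Finset.sum_ite_eq]
    simp
  rw [this]
  refine Finset.measurable_fun_sum _ fun j _ => Measurable.ite ?_ ?_ measurable_const
  · exact (measurable_am.comp measurable_fst) (measurableSet_singleton j)
  · exact (measurable_pi_apply j).comp measurable_snd

variable {Ω : Type*} [MeasurableSpace Ω] {P : Measure Ω}

lemma lint_gauss {X : Ω → ℝ} (hX : HasGaussianLaw X P) (h0 : P[X] = 0) {M : ℝ}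
    (hv : Var[X; P] ≤ M) (c : ℝ) : ∫⁻ ω, e (c * X ω) ∂P ≤ e (c ^ 2 * M / 2) := by
  have h1 : ∫⁻ ω, e (c * X ω) ∂P = ∫⁻ x, e (c * x) ∂(P.map X) := by
    rw [lintegral_map' (by fun_prop) hX.aemeasurable]
  rw [h1, hX.map_eq_gaussianReal, h0]
  have h2 : ∫⁻ x, e (c * x) ∂(gaussianReal 0 (Var[X; P]).toNNReal) =
      ENNReal.ofReal (∫ x, Real.exp (c * x) ∂(gaussianReal 0 (Var[X; P]).toNNReal)) := by
    rw [ofReal_integral_eq_lintegral_ofReal (integrable_exp_mul_gaussianReal c)
      (ae_of_all _ fun x => (Real.exp_nonneg _))]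
    rfl
  rw [h2]
  have h3 : ∫ x, Real.exp (c * x) ∂(gaussianReal 0 (Var[X; P]).toNNReal) =
      mgf id (gaussianReal 0 (Var[X; P]).toNNReal) c := rfl
  rw [h3, mgf_id_gaussianReal]
  apply ENNReal.ofReal_le_ofReal
  apply Real.exp_le_exp.2
  have h4 : 0 ≤ Var[X; P] := variance_nonneg _ _
  rw [Real.coe_toNNReal _ h4]
  have : Var[X; P] * c ^ 2 ≤ M * c ^ 2 := mul_le_mul_of_nonneg_right hv (sq_nonneg c)
  simp only [zero_mul, zero_add]
  linarith

/-- Conditioning on `W`, the coordinate of the independent family `V` picked by the argmax of `W`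
is Gaussian. -/
lemma pick_bound {N : ℕ} {W V : Fin (N + 1) → Ω → ℝ}
    (hWV : HasGaussianLaw (fun ω => (fun j => W j ω, fun j => V j ω)) P)
    (h0 : ∀ j, P[V j] = 0) {M : ℝ} (hM : ∀ j, Var[V j; P] ≤ M)
    (hc : ∀ i j, cov[W i, V j; P] = 0) (c s : ℝ) :
    ∫⁻ ω, e (c * V (am fun j => W j ω) ω + s * mx fun j => W j ω) ∂P ≤
      e (c ^ 2 * M / 2) * ∫⁻ ω, e (s * mx fun j => W j ω) ∂P := by
  have hP := hWV.isProbabilityMeasure
  have hind : IndepFun (fun ω j => W j ω) (fun ω j => V j ω) P :=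
    hWV.indepFun_of_covariance_eval hc
  have hWm : AEMeasurable (fun ω j => W j ω) P := hWV.fst.aemeasurable
  have hVm : AEMeasurable (fun ω j => V j ω) P := hWV.snd.aemeasurable
  have hmeas : Measurable fun p : (Fin (N + 1) → ℝ) × (Fin (N + 1) → ℝ) =>
      e (c * p.2 (am p.1) + s * mx p.1) := by
    refine measurable_e.comp (((measurable_pick).const_mul c).add
      ((measurable_mx.comp measurable_fst).const_mul s))
  have h1 : ∫⁻ ω, e (c * V (am fun j => W j ω) ω + s * mx fun j => W j ω) ∂P =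
      ∫⁻ p, e (c * p.2 (am p.1) + s * mx p.1)
        ∂(P.map fun ω => ((fun j => W j ω), fun j => V j ω)) := by
    rw [lintegral_map' hmeas.aemeasurable (hWm.prodMk hVm)]
  rw [h1, (indepFun_iff_map_prod_eq_prod_map_map hWm hVm).1 hind]
  rw [lintegral_prod _ hmeas.aemeasurable]
  have hpW : IsProbabilityMeasure (P.map fun ω j => W j ω) :=
    Measure.isProbabilityMeasure_map hWm
  have h2 : ∀ w : Fin (N + 1) → ℝ, ∫⁻ v, e (c * v (am w) + s * mx w)
      ∂(P.map fun ω j => V j ω) ≤ e (c ^ 2 * M / 2) * e (s * mx w) := by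
    intro w
    simp_rw [e_add]
    have hm0 : Measurable fun v : Fin (N + 1) → ℝ => v (am w) := measurable_pi_apply (am w)
    have hm1 : Measurable fun v : Fin (N + 1) → ℝ => e (c * v (am w)) :=
      measurable_e.comp (measurable_const.mul hm0)
    rw [lintegral_mul_const _ hm1, lintegral_map' hm1.aemeasurable hVm]
    gcongr
    have := lint_gauss (P := P) (X := V (am w)) (hWV.snd.eval (am w)) (h0 _) (hM _) c
    exact this
  refine (lintegral_mono h2).trans ?_
  have hm2 : Measurable fun w : Fin (N + 1) → ℝ => e (s * mx w) :=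
    measurable_e.comp (measurable_mx.const_mul s)
  rw [lintegral_const_mul _ hm2, lintegral_map' hm2.aemeasurable hWm]

lemma mx_bound {N : ℕ} {W : Fin (N + 1) → Ω → ℝ} [IsProbabilityMeasure P]
    (hW : ∀ j, HasGaussianLaw (W j) P)
    (h0 : ∀ j, P[W j] = 0) {M : ℝ} (hM : ∀ j, Var[W j; P] ≤ M) {s : ℝ} (hs0 : 0 ≤ s)
    (hs1 : s ≤ 1) :
    ∫⁻ ω, e (s * mx fun j => W j ω) ∂P ≤
      ENNReal.ofReal (1 + s * ((N + 1) * Real.exp (M / 2))) := by
  have h1 : ∀ ω, e (s * mx fun j => W j ω) ≤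
      1 + ENNReal.ofReal s * ∑ j, e (1 * W j ω) := by
    intro ω
    set y := mx fun j => W j ω with hy
    have h2 : Real.exp (s * y) ≤ 1 + s * Real.exp y := by
      have := convexOn_exp.2 (Set.mem_univ (0 : ℝ)) (Set.mem_univ y) (sub_nonneg.2 hs1) hs0
        (by ring)
      simp only [smul_eq_mul, mul_zero, zero_add, Real.exp_zero, mul_one] at this
      linarith
    have h3 : Real.exp y ≤ ∑ j, Real.exp (1 * W j ω) := by
      rw [hy, ← am_spec fun j => W j ω]
      refine le_trans ?_ (Finset.single_le_sum (f := fun j => Real.exp (1 * W j ω))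
        (fun j _ => Real.exp_nonneg _) (Finset.mem_univ (am fun j => W j ω)))
      simp
    calc e (s * y) ≤ ENNReal.ofReal (1 + s * ∑ j, Real.exp (1 * W j ω)) := by
          apply ENNReal.ofReal_le_ofReal
          refine h2.trans ?_
          gcongr
      _ = 1 + ENNReal.ofReal s * ∑ j, e (1 * W j ω) := by
          rw [ENNReal.ofReal_add zero_le_one (by positivity), ENNReal.ofReal_one,
            ENNReal.ofReal_mul hs0, ENNReal.ofReal_sum_of_nonneg fun j _ => Real.exp_nonneg _]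
          rfl
  refine (lintegral_mono h1).trans ?_
  have hae : ∀ j, AEMeasurable (fun ω => e (1 * W j ω)) P := fun j =>
    measurable_e.comp_aemeasurable ((hW j).aemeasurable.const_mul 1)
  rw [lintegral_add_left measurable_const, lintegral_const, measure_univ, mul_one,
    lintegral_const_mul'' _ (Finset.aemeasurable_fun_sum _ fun j _ => hae j),
    lintegral_finsetSum' _ fun j _ => hae j]
  have h4 : ∑ j, ∫⁻ ω, e (1 * W j ω) ∂P ≤ ENNReal.ofReal ((N + 1) * Real.exp (M / 2)) := by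
    calc ∑ j, ∫⁻ ω, e (1 * W j ω) ∂P ≤ ∑ j : Fin (N + 1), e (1 ^ 2 * M / 2) :=
          Finset.sum_le_sum fun j _ => lint_gauss (hW j) (h0 j) (hM j) 1
      _ = ENNReal.ofReal ((N + 1) * Real.exp (M / 2)) := by
          rw [Finset.sum_const, Finset.card_univ, Fintype.card_fin, nsmul_eq_mul,
            ENNReal.ofReal_mul (by positivity)]
          congr 1
          · rw [ENNReal.ofReal_add (by positivity) zero_le_one, ENNReal.ofReal_natCast,
              ENNReal.ofReal_one]
            push_cast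
            rfl
          · unfold e
            norm_num
  calc 1 + ENNReal.ofReal s * ∑ j, ∫⁻ ω, e (1 * W j ω) ∂P
      ≤ 1 + ENNReal.ofReal s * ENNReal.ofReal ((N + 1) * Real.exp (M / 2)) := by gcongr
    _ = _ := by
      rw [ENNReal.ofReal_add zero_le_one (by positivity), ENNReal.ofReal_one,
        ENNReal.ofReal_mul hs0]

lemma cov_lin [IsFiniteMeasure P] {A B C D : Ω → ℝ} (hA : MemLp A 2 P) (hB : MemLp B 2 P)
    (hC : MemLp C 2 P) (hD : MemLp D 2 P) (a b c d : ℝ) :
    cov[fun ω => a * A ω + b * B ω, fun ω => c * C ω + d * D ω; P] =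
      a * c * cov[A, C; P] + a * d * cov[A, D; P] + b * c * cov[B, C; P]
        + b * d * cov[B, D; P] := by
  have hA' : MemLp (fun ω => a * A ω) 2 P := hA.const_mul a
  have hB' : MemLp (fun ω => b * B ω) 2 P := hB.const_mul b
  have hC' : MemLp (fun ω => c * C ω) 2 P := hC.const_mul c
  have hD' : MemLp (fun ω => d * D ω) 2 P := hD.const_mul d
  have e1 : (fun ω => a * A ω + b * B ω) = (fun ω => a * A ω) + fun ω => b * B ω := rfl
  have e2 : (fun ω => c * C ω + d * D ω) = (fun ω => c * C ω) + fun ω => d * D ω := rfl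
  rw [e1, e2, covariance_add_left hA' hB' (hC'.add hD'), covariance_add_right hA' hC' hD',
    covariance_add_right hB' hC' hD']
  simp only [covariance_const_mul_left, covariance_const_mul_right]
  ring

/-- rotated family -/
noncomputable def W {N : ℕ} (X Z : Fin (N + 1) → Ω → ℝ) (θ : ℝ) (j : Fin (N + 1)) (ω : Ω) : ℝ :=
  Real.cos θ * X j ω + Real.sin θ * Z j ω

/-- the derivative of the rotated family -/
noncomputable def V {N : ℕ} (X Z : Fin (N + 1) → Ω → ℝ) (θ : ℝ) (j : Fin (N + 1)) (ω : Ω) : ℝ :=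
  -Real.sin θ * X j ω + Real.cos θ * Z j ω

section rot

variable {N : ℕ} {X Z : Fin (N + 1) → Ω → ℝ}

lemma gauss_rot (hXZ : HasGaussianLaw (fun ω => (fun j => X j ω, fun j => Z j ω)) P) (θ : ℝ) :
    HasGaussianLaw (fun ω => (fun j => W X Z θ j ω, fun j => V X Z θ j ω)) P := by
  let A : ((Fin (N + 1) → ℝ) × (Fin (N + 1) → ℝ)) →L[ℝ] (Fin (N + 1) → ℝ) :=
    ContinuousLinearMap.fst ℝ (Fin (N + 1) → ℝ) (Fin (N + 1) → ℝ)
  let B : ((Fin (N + 1) → ℝ) × (Fin (N + 1) → ℝ)) →L[ℝ] (Fin (N + 1) → ℝ) :=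
    ContinuousLinearMap.snd ℝ (Fin (N + 1) → ℝ) (Fin (N + 1) → ℝ)
  let L : ((Fin (N + 1) → ℝ) × (Fin (N + 1) → ℝ)) →L[ℝ]
      ((Fin (N + 1) → ℝ) × (Fin (N + 1) → ℝ)) :=
    ContinuousLinearMap.prod (Real.cos θ • A + Real.sin θ • B)
      ((-Real.sin θ) • A + Real.cos θ • B)
  exact hXZ.map_fun L

/-- **Rotation inequality.** -/
theorem tail
    (hXZ : HasGaussianLaw (fun ω => (fun j => X j ω, fun j => Z j ω)) P)
    (hX0 : ∀ j, P[X j] = 0) (hZ0 : ∀ j, P[Z j] = 0) {R : Fin (N + 1) → Fin (N + 1) → ℝ}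
    (hXX : ∀ i j, cov[X i, X j; P] = R i j) (hZZ : ∀ i j, cov[Z i, Z j; P] = R i j)
    (hc : ∀ i j, cov[X i, Z j; P] = 0) {M : ℝ} (hM : ∀ j, R j j ≤ M) (hM0 : 0 < M)
    {φ : ℝ} (hφ : 0 < φ) {a : ℝ} (ha : 0 ≤ a) :
    P {ω | a ≤ mx (fun j => Real.cos φ * X j ω + Real.sin φ * Z j ω) - mx fun j => X j ω} ≤
      ENNReal.ofReal (Real.exp (-a ^ 2 / (2 * M * φ ^ 2))) := by
  have hP := hXZ.isProbabilityMeasure
  have hXg : ∀ j, HasGaussianLaw (X j) P := fun j => hXZ.fst.eval j
  have hZg : ∀ j, HasGaussianLaw (Z j) P := fun j => hXZ.snd.eval j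
  have hWg : ∀ θ j, HasGaussianLaw (W X Z θ j) P := fun θ j => (gauss_rot hXZ θ).fst.eval j
  have hVg : ∀ θ j, HasGaussianLaw (V X Z θ j) P := fun θ j => (gauss_rot hXZ θ).snd.eval j
  have hW0 : ∀ θ j, P[W X Z θ j] = 0 := by
    intro θ j
    unfold W
    rw [integral_add ((hXg j).integrable.const_mul _) ((hZg j).integrable.const_mul _),
      integral_const_mul, integral_const_mul, hX0, hZ0]
    simp
  have hV0 : ∀ θ j, P[V X Z θ j] = 0 := by
    intro θ j
    unfold V
    rw [integral_add ((hXg j).integrable.const_mul _) ((hZg j).integrable.const_mul _),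
      integral_const_mul, integral_const_mul, hX0, hZ0]
    simp
  have hc' : ∀ i j, cov[Z i, X j; P] = 0 := fun i j => by rw [covariance_comm]; exact hc j i
  have hVv : ∀ θ j, Var[V X Z θ j; P] ≤ M := by
    intro θ j
    rw [← covariance_self (hVg θ j).aemeasurable]
    unfold V
    rw [cov_lin (hXg j).memLp_two (hZg j).memLp_two (hXg j).memLp_two (hZg j).memLp_two,
      hXX, hZZ, hc, hc']
    have := Real.sin_sq_add_cos_sq θ
    nlinarith [hM j]
  have hWv : ∀ θ j, Var[W X Z θ j; P] ≤ M := by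
    intro θ j
    rw [← covariance_self (hWg θ j).aemeasurable]
    unfold W
    rw [cov_lin (hXg j).memLp_two (hZg j).memLp_two (hXg j).memLp_two (hZg j).memLp_two,
      hXX, hZZ, hc, hc']
    have := Real.sin_sq_add_cos_sq θ
    nlinarith [hM j]
  have hWV : ∀ θ i j, cov[W X Z θ i, V X Z θ j; P] = 0 := by
    intro θ i j
    unfold V W
    rw [cov_lin (hXg i).memLp_two (hZg i).memLp_two (hXg j).memLp_two (hZg j).memLp_two,
      hXX, hZZ, hc, hc']
    ring
  -- one step of the rotation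
  have hstep : ∀ (θ δ : ℝ) (ω : Ω), mx (fun j => W X Z θ j ω) - mx (fun j => W X Z (θ - δ) j ω) ≤
      (1 - Real.cos δ) * mx (fun j => W X Z θ j ω) +
        Real.sin δ * V X Z θ (am fun j => W X Z θ j ω) ω := by
    intro θ δ ω
    set j := am fun j => W X Z θ j ω with hj
    have h1 : W X Z θ j ω = mx fun j => W X Z θ j ω := am_spec fun j => W X Z θ j ω
    have h2 : W X Z (θ - δ) j ω ≤ mx (fun j => W X Z (θ - δ) j ω) :=
      le_mx (fun j => W X Z (θ - δ) j ω) j
    have h3 : W X Z (θ - δ) j ω = Real.cos δ * W X Z θ j ω - Real.sin δ * V X Z θ j ω := by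
      unfold W V
      rw [Real.cos_sub, Real.sin_sub]
      ring
    rw [← h1]
    linarith
  set Δ : Ω → ℝ := fun ω => mx (fun j => W X Z φ j ω) - mx (fun j => W X Z 0 j ω) with hΔ
  set D : ℝ := (N + 1) * Real.exp (M / 2) with hD
  have hD0 : 0 ≤ D := by positivity
  have hmain : ∀ (lam : ℝ), 0 ≤ lam → ∀ K : ℕ, 0 < K → lam * φ ^ 2 / (2 * K) ≤ 1 →
      ∫⁻ ω, e (lam * Δ ω) ∂P ≤
        e (lam ^ 2 * φ ^ 2 * M / 2) * ENNReal.ofReal (1 + lam * φ ^ 2 / (2 * K) * D) := by
    intro lam hlam K hK hs1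
    have hK' : (0 : ℝ) < K := by exact_mod_cast hK
    set δ : ℝ := φ / K with hδ
    have hδ0 : 0 < δ := by positivity
    have hKδ : K * δ = φ := by rw [hδ]; field_simp
    set s : ℝ := lam * K * (1 - Real.cos δ) with hs
    set c : ℝ := lam * K * Real.sin δ with hcdef
    have hs0 : 0 ≤ s := by
      have : 0 ≤ 1 - Real.cos δ := by linarith [Real.cos_le_one δ]
      positivity
    have hs2 : s ≤ lam * φ ^ 2 / (2 * K) := by
      have h1 : 1 - Real.cos δ ≤ δ ^ 2 / 2 := by linarith [Real.one_sub_sq_div_two_le_cos (x := δ)]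
      calc s ≤ lam * K * (δ ^ 2 / 2) := by rw [hs]; gcongr
        _ = lam * φ ^ 2 / (2 * K) := by rw [hδ]; field_simp
    have hc2 : c ^ 2 ≤ lam ^ 2 * φ ^ 2 := by
      have h1 : |Real.sin δ| ≤ δ := by
        have := Real.abs_sin_le_abs (x := δ)
        rwa [abs_of_pos hδ0] at this
      have h2 : Real.sin δ ^ 2 ≤ δ ^ 2 := by
        rw [← sq_abs]
        gcongr
      calc c ^ 2 = (lam * K) ^ 2 * Real.sin δ ^ 2 := by rw [hcdef]; ring
        _ ≤ (lam * K) ^ 2 * δ ^ 2 := by gcongr
        _ = lam ^ 2 * (K * δ) ^ 2 := by ring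
        _ = lam ^ 2 * φ ^ 2 := by rw [hKδ]
    -- the summands
    set Y : ℕ → Ω → ℝ := fun k ω =>
      c * V X Z ((k + 1 : ℕ) * δ) (am fun j => W X Z ((k + 1 : ℕ) * δ) j ω) ω +
        s * mx (fun j => W X Z ((k + 1 : ℕ) * δ) j ω) with hY
    have hpt : ∀ ω, e (lam * Δ ω) ≤ ENNReal.ofReal (1 / K) * ∑ k ∈ Finset.range K, e (Y k ω) := by
      intro ω
      have h1 : Δ ω = ∑ k ∈ Finset.range K,
          (mx (fun j => W X Z ((k + 1 : ℕ) * δ) j ω) - mx (fun j => W X Z ((k : ℕ) * δ) j ω)) := by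
        rw [Finset.sum_range_sub (fun k : ℕ => mx (fun j => W X Z ((k : ℕ) * δ) j ω)), hΔ]
        simp only [Nat.cast_zero, zero_mul, hKδ]
      have h2 : lam * Δ ω ≤ ∑ k ∈ Finset.range K, (1 / (K : ℝ)) * Y k ω := by
        rw [h1, Finset.mul_sum]
        refine Finset.sum_le_sum fun k _ => ?_
        have h3 := hstep ((k + 1 : ℕ) * δ) δ ω
        have h4 : ((k + 1 : ℕ) : ℝ) * δ - δ = (k : ℕ) * δ := by push_cast; ring
        rw [h4] at h3
        have h5 := mul_le_mul_of_nonneg_left h3 hlam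
        refine h5.trans (le_of_eq ?_)
        rw [hY, hs, hcdef]
        field_simp
        ring
      have h6 : Real.exp (∑ k ∈ Finset.range K, (1 / (K : ℝ)) * Y k ω) ≤
          ∑ k ∈ Finset.range K, (1 / (K : ℝ)) * Real.exp (Y k ω) := by
        have := convexOn_exp.map_sum_le (t := Finset.range K) (w := fun _ => 1 / (K : ℝ))
          (p := fun k => Y k ω) (fun _ _ => by positivity)
          (by rw [Finset.sum_const, Finset.card_range, nsmul_eq_mul]; field_simp)
          (fun _ _ => Set.mem_univ _)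
        simpa only [smul_eq_mul] using this
      calc e (lam * Δ ω) ≤ ENNReal.ofReal (∑ k ∈ Finset.range K, (1 / (K : ℝ)) *
            Real.exp (Y k ω)) :=
            ENNReal.ofReal_le_ofReal ((Real.exp_le_exp.2 h2).trans h6)
        _ = ENNReal.ofReal (1 / K) * ∑ k ∈ Finset.range K, e (Y k ω) := by
            rw [← Finset.mul_sum, ENNReal.ofReal_mul (by positivity),
              ENNReal.ofReal_sum_of_nonneg fun _ _ => Real.exp_nonneg _]
            rfl
    have hWm : ∀ θ, AEMeasurable (fun ω j => W X Z θ j ω) P :=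
      fun θ => (gauss_rot hXZ θ).fst.aemeasurable
    have hVm : ∀ θ, AEMeasurable (fun ω j => V X Z θ j ω) P :=
      fun θ => (gauss_rot hXZ θ).snd.aemeasurable
    have hYm : ∀ k, AEMeasurable (fun ω => e (Y k ω)) P := by
      intro k
      have hmeas : Measurable fun p : (Fin (N + 1) → ℝ) × (Fin (N + 1) → ℝ) =>
          e (c * p.2 (am p.1) + s * mx p.1) :=
        measurable_e.comp (((measurable_pick).const_mul c).add
          ((measurable_mx.comp measurable_fst).const_mul s))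
      exact hmeas.comp_aemeasurable ((hWm ((k + 1 : ℕ) * δ)).prodMk (hVm ((k + 1 : ℕ) * δ)))
    have hYb : ∀ k, ∫⁻ ω, e (Y k ω) ∂P ≤
        e (lam ^ 2 * φ ^ 2 * M / 2) * ENNReal.ofReal (1 + lam * φ ^ 2 / (2 * K) * D) := by
      intro k
      refine (pick_bound (gauss_rot hXZ _) (hV0 _) (hVv _) (hWV _) c s).trans ?_
      refine mul_le_mul' (e_mono ?_) ?_
      · nlinarith
      · refine (mx_bound (hWg _) (hW0 _) (hWv _) hs0 (hs2.trans hs1)).trans ?_
        apply ENNReal.ofReal_le_ofReal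
        gcongr
    calc ∫⁻ ω, e (lam * Δ ω) ∂P
        ≤ ∫⁻ ω, ENNReal.ofReal (1 / K) * ∑ k ∈ Finset.range K, e (Y k ω) ∂P :=
          lintegral_mono hpt
      _ = ENNReal.ofReal (1 / K) * ∑ k ∈ Finset.range K, ∫⁻ ω, e (Y k ω) ∂P := by
          rw [lintegral_const_mul'' _ (Finset.aemeasurable_fun_sum _ fun k _ => hYm k),
            lintegral_finsetSum' _ fun k _ => hYm k]
      _ ≤ ENNReal.ofReal (1 / K) * ∑ k ∈ Finset.range K,
          (e (lam ^ 2 * φ ^ 2 * M / 2) * ENNReal.ofReal (1 + lam * φ ^ 2 / (2 * K) * D)) := by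
          gcongr
          exact hYb _
      _ = _ := by
          rw [Finset.sum_const, Finset.card_range, nsmul_eq_mul, ← mul_assoc]
          have : ENNReal.ofReal (1 / K) * (K : ℝ≥0∞) = 1 := by
            rw [← ENNReal.ofReal_natCast, ← ENNReal.ofReal_mul (by positivity)]
            rw [one_div, inv_mul_cancel₀ hK'.ne', ENNReal.ofReal_one]
          rw [this, one_mul]
  -- let `K → ∞`
  have hlim : ∀ (lam : ℝ), 0 ≤ lam → ∫⁻ ω, e (lam * Δ ω) ∂P ≤ e (lam ^ 2 * φ ^ 2 * M / 2) := by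
    intro lam hlam
    have ht : Tendsto (fun K : ℕ => lam * φ ^ 2 / (2 * (K : ℝ))) atTop (𝓝 0) := by
      have : Tendsto (fun K : ℕ => (lam * φ ^ 2 / 2) / (K : ℝ)) atTop (𝓝 0) :=
        tendsto_const_div_atTop_nhds_zero_nat _
      refine this.congr fun K => ?_
      rw [div_div]
    have ht2 : Tendsto (fun K : ℕ => e (lam ^ 2 * φ ^ 2 * M / 2) *
        ENNReal.ofReal (1 + lam * φ ^ 2 / (2 * (K : ℝ)) * D)) atTop
        (𝓝 (e (lam ^ 2 * φ ^ 2 * M / 2) * ENNReal.ofReal (1 + 0 * D))) := by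
      apply ENNReal.Tendsto.const_mul
      · exact ENNReal.tendsto_ofReal ((ht.mul_const D).const_add 1)
      · right; exact ENNReal.ofReal_ne_top
    rw [zero_mul, add_zero, ENNReal.ofReal_one, mul_one] at ht2
    refine ge_of_tendsto ht2 ?_
    filter_upwards [eventually_gt_atTop 0, ht.eventually (gt_mem_nhds one_pos)] with K hK hK1
    exact hmain lam hlam K hK hK1.le
  -- Chernoff
  have hΔm : AEMeasurable Δ P := by
    have h1 : AEMeasurable (fun ω => mx (fun j => W X Z φ j ω)) P :=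
      measurable_mx.comp_aemeasurable (gauss_rot hXZ φ).fst.aemeasurable
    have h2 : AEMeasurable (fun ω => mx (fun j => W X Z 0 j ω)) P :=
      measurable_mx.comp_aemeasurable (gauss_rot hXZ 0).fst.aemeasurable
    exact h1.sub h2
  set lam : ℝ := a / (φ ^ 2 * M) with hlam
  have hlam0 : 0 ≤ lam := by positivity
  have hset : {ω | a ≤ mx (fun j => Real.cos φ * X j ω + Real.sin φ * Z j ω) - mx fun j => X j ω}
      ⊆ {ω | e (lam * a) ≤ e (lam * Δ ω)} := by
    intro ω hω
    rw [Set.mem_ofPred_eq] at hω ⊢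
    apply e_mono
    apply mul_le_mul_of_nonneg_left _ hlam0
    refine hω.trans (le_of_eq ?_)
    rw [hΔ]
    simp only [W, Real.cos_zero, Real.sin_zero, one_mul, zero_mul, add_zero]
  refine (measure_mono hset).trans ?_
  have h1 := mul_meas_ge_le_lintegral₀ (μ := P) (f := fun ω => e (lam * Δ ω))
    (measurable_e.comp_aemeasurable (hΔm.const_mul lam)) (e (lam * a))
  have h2 : P {ω | e (lam * a) ≤ e (lam * Δ ω)} =
      e (-(lam * a)) * (e (lam * a) * P {ω | e (lam * a) ≤ e (lam * Δ ω)}) := by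
    rw [← mul_assoc, ← e_add, neg_add_cancel]
    unfold e
    simp
  rw [h2]
  calc e (-(lam * a)) * (e (lam * a) * P {ω | e (lam * a) ≤ e (lam * Δ ω)})
      ≤ e (-(lam * a)) * e (lam ^ 2 * φ ^ 2 * M / 2) := by
        gcongr
        exact h1.trans (hlim lam hlam0)
    _ = e (-(lam * a) + lam ^ 2 * φ ^ 2 * M / 2) := (e_add _ _).symm
    _ ≤ _ := by
        apply ENNReal.ofReal_le_ofReal
        apply Real.exp_le_exp.2
        apply le_of_eq
        rw [hlam]
        field_simp
        ring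

end rot

end Pool.Agent.R964.Rot
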