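import Mathlib

/-!
# The second largest eigenvalue of a real symmetric matrix with a known top eigenvector
-/

set_option autoImplicit false

namespace Pool.Agent.R964.Spec2

open Matrix

variable {d : ℕ} {S : Matrix (Fin d) (Fin d) ℝ} (hS : S.IsHermitian)

/-- the `i`-th eigenvector -/
noncomputable def ev (i : Fin d) : Fin d → ℝ := ⇑(hS.eigenvectorBasis i)

lemma dot_eq_inner (x y : Fin d → ℝ) :
    x ⬝ᵥ y = inner ℝ (WithLp.toLp 2 x) (WithLp.toLp 2 y) := by
  rw [EuclideanSpace.inner_eq_star_dotProduct]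
  simp [dotProduct_comm]

lemma ev_orth (i j : Fin d) : ev hS i ⬝ᵥ ev hS j = if i = j then 1 else 0 := by
  rw [dot_eq_inner]
  have := (orthonormal_iff_ite.1 hS.eigenvectorBasis.orthonormal) i j
  exact this

lemma norm_expand (x : Fin d → ℝ) : x ⬝ᵥ x = ∑ i, (ev hS i ⬝ᵥ x) ^ 2 := by
  rw [dot_eq_inner, ← hS.eigenvectorBasis.sum_inner_mul_inner]
  apply Finset.sum_congr rfl
  intro i _
  rw [dot_eq_inner, sq, real_inner_comm]
  rfl

lemma dot_expand (x y : Fin d → ℝ) : x ⬝ᵥ y = ∑ i, (ev hS i ⬝ᵥ x) * (ev hS i ⬝ᵥ y) := by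
  rw [dot_eq_inner, ← hS.eigenvectorBasis.sum_inner_mul_inner]
  apply Finset.sum_congr rfl
  intro i _
  rw [dot_eq_inner, dot_eq_inner, real_inner_comm]
  rfl

lemma ev_mulVec (i : Fin d) : S *ᵥ ev hS i = hS.eigenvalues i • ev hS i :=
  hS.mulVec_eigenvectorBasis i

lemma ev_dot_mulVec (i : Fin d) (x : Fin d → ℝ) :
    ev hS i ⬝ᵥ (S *ᵥ x) = hS.eigenvalues i * (ev hS i ⬝ᵥ x) := by
  have hT : Sᵀ = S := by
    have := hS.eq
    rwa [conjTranspose_eq_transpose_of_trivial] at this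
  rw [dotProduct_mulVec, ← mulVec_transpose, hT, ev_mulVec, smul_dotProduct, smul_eq_mul]

lemma quad_expand (x : Fin d → ℝ) :
    x ⬝ᵥ (S *ᵥ x) = ∑ i, hS.eigenvalues i * (ev hS i ⬝ᵥ x) ^ 2 := by
  rw [dot_expand hS]
  apply Finset.sum_congr rfl
  intro i _
  rw [ev_dot_mulVec]
  ring

/-- The second entry of the decreasing list of the eigenvalues (with multiplicity). -/
noncomputable def second (A : Matrix (Fin d) (Fin d) ℝ) : ℝ :=
  (A.charpoly.roots.sort (· ≥ ·)).getD 1 0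

lemma exists_top_two (hd : 2 ≤ d) : ∃ i0 i1 : Fin d, i0 ≠ i1 ∧
    second S = hS.eigenvalues i1 ∧ hS.eigenvalues i1 ≤ hS.eigenvalues i0 ∧
    ∀ i, i ≠ i0 → hS.eigenvalues i ≤ hS.eigenvalues i1 := by
  have hc : Fintype.card (Fin d) = d := Fintype.card_fin d
  set e := (Fintype.equivOfCardEq (Fintype.card_fin (Fintype.card (Fin d))) :
    Fin (Fintype.card (Fin d)) ≃ Fin d) with he
  have hev : ∀ i, hS.eigenvalues i = hS.eigenvalues₀ (e.symm i) := fun i => rfl
  have h0 : 0 < Fintype.card (Fin d) := by omega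
  have h1 : 1 < Fintype.card (Fin d) := by omega
  refine ⟨e ⟨0, h0⟩, e ⟨1, h1⟩, ?_, ?_, ?_, ?_⟩
  · intro h
    have := e.injective h
    simp at this
  · unfold second
    have h2 := hS.sort_roots_charpoly_eq_eigenvalues₀
    have h3 : S.charpoly.roots.map (RCLike.re : ℝ → ℝ) = S.charpoly.roots := by
      have : (RCLike.re : ℝ → ℝ) = id := by
        funext x
        simp
      rw [this, Multiset.map_id]
    rw [h3] at h2
    rw [h2, hev, Equiv.symm_apply_apply, List.getD_eq_getElem _ _ (by simpa using h1)]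
    simp
  · rw [hev, hev, Equiv.symm_apply_apply, Equiv.symm_apply_apply]
    exact hS.eigenvalues₀_antitone (by simp [Fin.le_def])
  · intro i hi
    rw [hev, hev, Equiv.symm_apply_apply]
    apply hS.eigenvalues₀_antitone
    rw [Fin.le_def]
    have : e.symm i ≠ ⟨0, h0⟩ := by
      intro h
      exact hi (by rw [← h, Equiv.apply_symm_apply])
    have h4 : (e.symm i).val ≠ 0 := fun h => this (Fin.ext h)
    change 1 ≤ (e.symm i).val
    omega

include hS in
/-- upper bound for the second eigenvalue -/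
lemma second_le (hd : 2 ≤ d) (u : Fin d → ℝ) (c : ℝ)
    (h : ∀ x : Fin d → ℝ, u ⬝ᵥ x = 0 → x ⬝ᵥ (S *ᵥ x) ≤ c * (x ⬝ᵥ x)) : second S ≤ c := by
  obtain ⟨i0, i1, hne, h1, h2, -⟩ := exists_top_two hS hd
  rw [h1]
  -- a vector in the span of the two eigenvectors
  have key : ∀ α β : ℝ, u ⬝ᵥ (α • ev hS i0 + β • ev hS i1) = 0 →
      hS.eigenvalues i0 * α ^ 2 + hS.eigenvalues i1 * β ^ 2 ≤ c * (α ^ 2 + β ^ 2) := by
    intro α β hu
    have h3 := h _ hu
    have c0 : ev hS i0 ⬝ᵥ ev hS i0 = 1 := by rw [ev_orth, if_pos rfl]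
    have c1 : ev hS i1 ⬝ᵥ ev hS i1 = 1 := by rw [ev_orth, if_pos rfl]
    have c2 : ev hS i0 ⬝ᵥ ev hS i1 = 0 := by rw [ev_orth, if_neg hne]
    have c3 : ev hS i1 ⬝ᵥ ev hS i0 = 0 := by rw [ev_orth, if_neg hne.symm]
    simp only [mulVec_add, mulVec_smul, ev_mulVec, add_dotProduct, dotProduct_add,
      smul_dotProduct, dotProduct_smul, c0, c1, c2, c3, smul_eq_mul] at h3
    linarith
  by_cases hz : u ⬝ᵥ ev hS i1 = 0
  · have := key 0 1 (by simp [hz])
    linarith
  · have hα : 0 < (u ⬝ᵥ ev hS i1) ^ 2 := by positivity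
    have := key (u ⬝ᵥ ev hS i1) (-(u ⬝ᵥ ev hS i0)) (by
      simp only [dotProduct_add, dotProduct_smul, smul_eq_mul]
      ring)
    have h5 : 0 ≤ (u ⬝ᵥ ev hS i0) ^ 2 := sq_nonneg _
    rw [neg_sq] at this
    nlinarith [mul_le_mul_of_nonneg_right h2 hα.le]

include hS in
/-- the Rayleigh quotient orthogonal to the top eigenvector is at most the second eigenvalue -/
lemma le_second (hd : 2 ≤ d) (u : Fin d → ℝ) (hu0 : u ≠ 0) (hu : S *ᵥ u = u)
    (hle : ∀ x : Fin d → ℝ, x ⬝ᵥ (S *ᵥ x) ≤ x ⬝ᵥ x) (x : Fin d → ℝ) (hx : u ⬝ᵥ x = 0) :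
    x ⬝ᵥ (S *ᵥ x) ≤ second S * (x ⬝ᵥ x) := by
  obtain ⟨i0, i1, hne, h1, h2, h3⟩ := exists_top_two hS hd
  rw [h1]
  have hle1 : ∀ i, hS.eigenvalues i ≤ 1 := by
    intro i
    have := hle (ev hS i)
    rwa [ev_dot_mulVec, ev_orth, if_pos rfl, mul_one] at this
  rw [quad_expand hS, norm_expand hS x, Finset.mul_sum]
  by_cases heq : hS.eigenvalues i0 ≤ hS.eigenvalues i1
  · apply Finset.sum_le_sum
    intro i _
    apply mul_le_mul_of_nonneg_right _ (sq_nonneg _)
    by_cases hi : i = i0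
    · rw [hi]; exact heq
    · exact h3 i hi
  · push Not at heq
    -- the coefficients of `u`
    have ha : ∀ i, i ≠ i0 → ev hS i ⬝ᵥ u = 0 := by
      intro i hi
      have h4 := ev_dot_mulVec hS i u
      rw [hu] at h4
      have h5 : hS.eigenvalues i < 1 := (h3 i hi).trans_lt (heq.trans_le (hle1 i0))
      have h6 : (1 - hS.eigenvalues i) * (ev hS i ⬝ᵥ u) = 0 := by linarith
      rcases mul_eq_zero.1 h6 with h7 | h7
      · linarith
      · exact h7
    have ha0 : ev hS i0 ⬝ᵥ u ≠ 0 := by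
      intro h0
      apply hu0
      have h4 := norm_expand hS u
      rw [Finset.sum_eq_zero] at h4
      · exact dotProduct_self_eq_zero.1 h4
      · intro i _
        by_cases hi : i = i0
        · rw [hi, h0]; ring
        · rw [ha i hi]; ring
    have hx0 : ev hS i0 ⬝ᵥ x = 0 := by
      have h4 := dot_expand hS u x
      rw [hx, Finset.sum_eq_single i0] at h4
      · rcases mul_eq_zero.1 h4.symm with h7 | h7
        · exact absurd h7 ha0
        · exact h7
      · intro i _ hi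
        rw [ha i hi, zero_mul]
      · intro h; exact absurd (Finset.mem_univ _) h
    apply Finset.sum_le_sum
    intro i _
    by_cases hi : i = i0
    · rw [hi, hx0]; simp
    · exact mul_le_mul_of_nonneg_right (h3 i hi) (sq_nonneg _)

include hS in
/-- the second eigenvalue of a positive semidefinite matrix is nonnegative -/
lemma second_nonneg (hd : 2 ≤ d) (h : ∀ x : Fin d → ℝ, 0 ≤ x ⬝ᵥ (S *ᵥ x)) : 0 ≤ second S := by
  obtain ⟨i0, i1, hne, h1, -, -⟩ := exists_top_two hS hd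
  rw [h1]
  have := h (ev hS i1)
  rwa [ev_dot_mulVec, ev_orth, if_pos rfl, mul_one] at this

end Pool.Agent.R964.Spec2
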