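import Pool.Agent.R964.Rot

set_option autoImplicit false

open MeasureTheory ProbabilityTheory Filter Topology
open scoped ENNReal NNReal

namespace Pool.Agent.R964.Rot

variable {Ω : Type*} [MeasurableSpace Ω] {P : Measure Ω}

/-- Two correlated centred Gaussian families with the same covariance and correlation `cos φ`. -/
theorem tail_two {N : ℕ} {G₀ G₁ : Fin (N + 1) → Ω → ℝ}
    (hG : HasGaussianLaw (fun ω => (fun j => G₀ j ω, fun j => G₁ j ω)) P)
    (h0 : ∀ j, P[G₀ j] = 0) (h1 : ∀ j, P[G₁ j] = 0) {R : Fin (N + 1) → Fin (N + 1) → ℝ}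
    {φ : ℝ} (hφ : 0 < φ) (hφ' : φ < Real.pi)
    (h00 : ∀ i j, cov[G₀ i, G₀ j; P] = R i j) (h11 : ∀ i j, cov[G₁ i, G₁ j; P] = R i j)
    (h01 : ∀ i j, cov[G₀ i, G₁ j; P] = Real.cos φ * R i j) {M : ℝ} (hM : ∀ j, R j j ≤ M)
    (hM0 : 0 < M) {a : ℝ} (ha : 0 ≤ a) :
    P {ω | a ≤ mx (fun j => G₁ j ω) - mx fun j => G₀ j ω} ≤
      ENNReal.ofReal (Real.exp (-a ^ 2 / (2 * M * φ ^ 2))) := by
  have hP := hG.isProbabilityMeasure
  have hs : 0 < Real.sin φ := Real.sin_pos_of_pos_of_lt_pi hφ hφ'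
  set Z : Fin (N + 1) → Ω → ℝ := fun j ω =>
    (1 / Real.sin φ) * G₁ j ω + (-(Real.cos φ / Real.sin φ)) * G₀ j ω with hZ
  have g0 : ∀ j, HasGaussianLaw (G₀ j) P := fun j => hG.fst.eval j
  have g1 : ∀ j, HasGaussianLaw (G₁ j) P := fun j => hG.snd.eval j
  have hsym : ∀ i j, cov[G₁ i, G₀ j; P] = Real.cos φ * R i j := by
    intro i j
    rw [covariance_comm, h01, ← h00 j i, covariance_comm, h00]
  have hXZ : HasGaussianLaw (fun ω => (fun j => G₀ j ω, fun j => Z j ω)) P := by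
    let A : ((Fin (N + 1) → ℝ) × (Fin (N + 1) → ℝ)) →L[ℝ] (Fin (N + 1) → ℝ) :=
      ContinuousLinearMap.fst ℝ (Fin (N + 1) → ℝ) (Fin (N + 1) → ℝ)
    let B : ((Fin (N + 1) → ℝ) × (Fin (N + 1) → ℝ)) →L[ℝ] (Fin (N + 1) → ℝ) :=
      ContinuousLinearMap.snd ℝ (Fin (N + 1) → ℝ) (Fin (N + 1) → ℝ)
    let L : ((Fin (N + 1) → ℝ) × (Fin (N + 1) → ℝ)) →L[ℝ]
        ((Fin (N + 1) → ℝ) × (Fin (N + 1) → ℝ)) :=
      ContinuousLinearMap.prod A
        ((1 / Real.sin φ) • B + (-(Real.cos φ / Real.sin φ)) • A)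
    exact hG.map_fun L
  have key := tail (X := G₀) (Z := Z) hXZ h0 (by
      intro j
      rw [hZ]
      simp only
      rw [integral_add ((g1 j).integrable.const_mul _) ((g0 j).integrable.const_mul _),
        integral_const_mul, integral_const_mul, h0, h1]
      simp) (R := R) h00 (by
      intro i j
      rw [hZ]
      simp only
      rw [cov_lin (g1 i).memLp_two (g0 i).memLp_two (g1 j).memLp_two (g0 j).memLp_two,
        h11, h00, h01, hsym]
      have := Real.sin_sq_add_cos_sq φ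
      field_simp
      linear_combination (-R i j) * this) (by
      intro i j
      have e1 : (G₀ i) = fun ω => 1 * G₀ i ω + 0 * G₀ i ω := by funext ω; ring
      rw [hZ, e1]
      simp only
      rw [cov_lin (g0 i).memLp_two (g0 i).memLp_two (g1 j).memLp_two (g0 j).memLp_two,
        h00, h01]
      field_simp
      ring) hM hM0 hφ ha
  have e2 : ∀ ω, (fun j => Real.cos φ * G₀ j ω + Real.sin φ * Z j ω) = fun j => G₁ j ω := by
    intro ω
    funext j
    rw [hZ]
    field_simp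
    ring
  simpa only [e2] using key

end Pool.Agent.R964.Rot
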